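import Pool.Agent.LibRD54.Med

/-!
# Graph automorphisms acting on a right-angled Coxeter group, retractions, parity, subgroups
-/

set_option autoImplicit false

namespace Pool.Agent.RD54

variable {V : Type*} {L : SimpleGraph V}

/-- The endomorphism induced by an adjacency-preserving map. -/
noncomputable def racEndo (f : V → V) (hf : ∀ x y, L.Adj x y → L.Adj (f x) (f y)) :
    Rac L →* Rac L :=
  racLift (fun x => gen L (f x)) (fun _ => gen_mul_self _) (fun x y h => gen_comm (hf x y h))

@[simp] theorem racEndo_gen (f : V → V) (hf : ∀ x y, L.Adj x y → L.Adj (f x) (f y)) (x : V) :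
    racEndo (L := L) f hf (gen L x) = gen L (f x) := by
  rw [racEndo, racLift_gen]

/-- A group acting on the graph acts on the right-angled Coxeter group. -/
noncomputable def racAct {A : Type*} [Group A] [MulAction A V] (L : SimpleGraph V)
    (h : ∀ (a : A) (x y : V), L.Adj x y → L.Adj (a • x) (a • y)) : A →* MulAut (Rac L) where
  toFun a :=
    { toFun := racEndo (fun x => a • x) (h a)
      invFun := racEndo (fun x => a⁻¹ • x) (h a⁻¹)
      left_inv := by
        intro w
        have : (racEndo (fun x => a⁻¹ • x) (h a⁻¹)).comp (racEndo (L := L) (fun x => a • x) (h a))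
            = MonoidHom.id _ := by
          apply rac_hom_ext
          intro x
          simp
        exact DFunLike.congr_fun this w
      right_inv := by
        intro w
        have : (racEndo (fun x => a • x) (h a)).comp (racEndo (L := L) (fun x => a⁻¹ • x) (h a⁻¹))
            = MonoidHom.id _ := by
          apply rac_hom_ext
          intro x
          simp
        exact DFunLike.congr_fun this w
      map_mul' := map_mul _ }
  map_one' := by
    ext w
    have : (racEndo (L := L) (fun x => (1 : A) • x) (h 1)) = MonoidHom.id _ := by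
      apply rac_hom_ext
      intro x
      simp
    exact DFunLike.congr_fun this w
  map_mul' a b := by
    ext w
    have : (racEndo (L := L) (fun x => (a * b) • x) (h (a * b)))
        = (racEndo (fun x => a • x) (h a)).comp (racEndo (L := L) (fun x => b • x) (h b)) := by
      apply rac_hom_ext
      intro x
      simp [mul_smul]
    exact DFunLike.congr_fun this w

theorem racAct_gen {A : Type*} [Group A] [MulAction A V]
    (h : ∀ (a : A) (x y : V), L.Adj x y → L.Adj (a • x) (a • y)) (a : A) (x : V) :
    racAct L h a (gen L x) = gen L (a • x) := by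
  change racEndo (fun x => a • x) (h a) (gen L x) = _
  rw [racEndo_gen]

theorem racAct_wp {A : Type*} [Group A] [MulAction A V]
    (h : ∀ (a : A) (x y : V), L.Adj x y → L.Adj (a • x) (a • y)) (a : A) (l : List V) :
    racAct L h a (wp L l) = wp L (l.map (fun x => a • x)) := by
  induction l with
  | nil => simp
  | cons x l ih => rw [wp_cons, map_mul, ih, racAct_gen, List.map_cons, wp_cons]

theorem len_racAct_le {A : Type*} [Group A] [MulAction A V]
    (h : ∀ (a : A) (x y : V), L.Adj x y → L.Adj (a • x) (a • y)) (a : A) (w : Rac L) :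
    len (racAct L h a w) ≤ len w := by
  obtain ⟨l, hl, hl2⟩ := exists_reduced w
  rw [← hl, racAct_wp, hl, ← hl2]
  have := len_wp_le (L := L) (l.map (fun x => a • x))
  rwa [List.length_map] at this

@[simp] theorem len_racAct {A : Type*} [Group A] [MulAction A V]
    (h : ∀ (a : A) (x y : V), L.Adj x y → L.Adj (a • x) (a • y)) (a : A) (w : Rac L) :
    len (racAct L h a w) = len w := by
  apply le_antisymm (len_racAct_le h a w)
  have := len_racAct_le h a⁻¹ (racAct L h a w)
  have e : racAct L h a⁻¹ (racAct L h a w) = w := by
    rw [map_inv]; exact MulAut.inv_apply_self _ (racAct L h a) w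
  rwa [e] at this

/-- The subgroup generated by a set of vertices. -/
noncomputable def sub (L : SimpleGraph V) (J : Set V) : Subgroup (Rac L) :=
  Subgroup.closure (gen L '' J)

theorem gen_mem_sub {J : Set V} {x : V} (h : x ∈ J) : gen L x ∈ sub L J :=
  Subgroup.subset_closure ⟨x, h, rfl⟩

theorem sub_mono {J K : Set V} (h : J ⊆ K) : sub L J ≤ sub L K :=
  Subgroup.closure_mono (Set.image_mono h)

theorem wp_mem_sub {J : Set V} {l : List V} (h : ∀ a ∈ l, a ∈ J) : wp L l ∈ sub L J := by
  induction l with
  | nil => simp
  | cons a l ih =>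
    rw [wp_cons]
    exact Subgroup.mul_mem _ (gen_mem_sub (h a (by simp)))
      (ih (fun b hb => h b (by simp [hb])))

theorem exists_wp_of_mem_sub {J : Set V} {w : Rac L} (h : w ∈ sub L J) :
    ∃ l : List V, (∀ a ∈ l, a ∈ J) ∧ wp L l = w := by
  induction h using Subgroup.closure_induction with
  | mem x hx =>
    obtain ⟨a, ha, rfl⟩ := hx
    exact ⟨[a], by simpa using ha, by simp⟩
  | one => exact ⟨[], by simp, by simp⟩
  | mul x y _ _ ihx ihy =>
    obtain ⟨l, hl, rfl⟩ := ihx
    obtain ⟨l', hl', rfl⟩ := ihy
    refine ⟨l ++ l', ?_, by simp⟩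
    intro a ha
    rw [List.mem_append] at ha
    rcases ha with ha | ha
    · exact hl a ha
    · exact hl' a ha
  | inv x _ ih =>
    obtain ⟨l, hl, rfl⟩ := ih
    refine ⟨l.reverse, ?_, by rw [wp_reverse]⟩
    intro a ha
    exact hl a (by simpa using ha)

/-- Any word contains a reduced subword with the same product. -/
theorem exists_reduced_sublist (l : List V) :
    ∃ l' : List V, l'.Sublist l ∧ wp L l' = wp L l ∧ l'.length = len (wp L l') := by
  induction l using List.reverseRecOn with
  | nil => exact ⟨[], List.Sublist.refl _, rfl, by simp⟩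
  | append_singleton l a ih =>
    obtain ⟨l', h1, h2, h3⟩ := ih
    by_cases hd : Desc (wp L l') a
    · obtain ⟨j, hj, hj2⟩ := exchange h3 hd
      refine ⟨l'.eraseIdx j, ?_, ?_, ?_⟩
      · exact ((List.eraseIdx_sublist _ _).trans h1).trans (List.sublist_append_left _ _)
      · rw [← hj2, h2, wp_append, wp_singleton]
      · rw [← hj2]
        rw [desc_iff] at hd
        have := List.length_eraseIdx_add_one hj
        omega
    · refine ⟨l' ++ [a], ?_, ?_, ?_⟩
      · exact List.Sublist.append h1 (List.Sublist.refl _)
      · rw [wp_append, wp_append, h2]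
      · rw [not_desc_iff] at hd
        rw [wp_append, wp_singleton, hd, List.length_append, List.length_singleton, h3]

theorem exists_reduced_of_mem_sub {J : Set V} {w : Rac L} (h : w ∈ sub L J) :
    ∃ l : List V, (∀ a ∈ l, a ∈ J) ∧ wp L l = w ∧ l.length = len w := by
  obtain ⟨l, hl, rfl⟩ := exists_wp_of_mem_sub h
  obtain ⟨l', h1, h2, h3⟩ := exists_reduced_sublist (L := L) l
  exact ⟨l', fun a ha => hl a (h1.subset ha), h2, by rw [← h2]; exact h3⟩

theorem mem_of_gen_mem_sub {J : Set V} {x : V} (h : gen L x ∈ sub L J) : x ∈ J := by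
  obtain ⟨l, h1, h2, h3⟩ := exists_reduced_of_mem_sub h
  rw [len_gen] at h3
  obtain ⟨a, rfl⟩ := List.length_eq_one_iff.mp h3
  rw [wp_singleton] at h2
  rw [← gen_injective h2]
  exact h1 a (by simp)

theorem desc_mem_sub {J : Set V} {w : Rac L} (h : w ∈ sub L J) {x : V} (hd : Desc w x) :
    x ∈ J ∧ w * gen L x ∈ sub L J := by
  obtain ⟨l, h1, rfl, h3⟩ := exists_reduced_of_mem_sub h
  obtain ⟨j, hj, hj2⟩ := exchange h3 hd
  have h4 : wp L l * gen L x ∈ sub L J := by
    rw [hj2]
    apply wp_mem_sub
    intro a ha
    exact h1 a ((List.eraseIdx_sublist _ _).subset ha)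
  refine ⟨?_, h4⟩
  apply mem_of_gen_mem_sub (L := L)
  have : gen L x = (wp L l)⁻¹ * (wp L l * gen L x) := by group
  rw [this]
  exact Subgroup.mul_mem _ (Subgroup.inv_mem _ h) h4

/-- Prefixes of elements of a standard subgroup stay in it. -/
theorem red_mem_sub {J : Set V} {a b : Rac L} (hr : Red a b) (h : a * b ∈ sub L J) :
    a ∈ sub L J := by
  obtain ⟨l, hl, hl2⟩ := exists_reduced b
  subst hl
  unfold Red at hr
  rw [← hl2] at hr
  clear hl2
  induction l using List.reverseRecOn with
  | nil => simpa using h
  | append_singleton l x ih =>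
    rw [wp_append, wp_singleton, ← mul_assoc] at hr h
    rw [List.length_append, List.length_singleton] at hr
    have h1 : len (a * wp L l) ≤ len a + l.length := by
      have h2 := len_mul_le a (wp L l)
      have h3 := len_wp_le (L := L) l
      omega
    have h2 : len (a * wp L l) = len a + l.length := by
      rcases len_mul_gen (a * wp L l) x with h3 | h3 <;> omega
    have h3 : Desc (a * wp L l * gen L x) x := by
      unfold Desc
      rw [mul_gen_cancel]
      omega
    have h4 := (desc_mem_sub h h3).2
    rw [mul_gen_cancel] at h4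
    exact ih h2 h4

/-- Retraction onto the subgroup generated by `J`: the other generators are killed. -/
noncomputable def ret (L : SimpleGraph V) (J : Set V) : Rac L →* Rac L := by
  classical
  exact racLift (fun x => if x ∈ J then gen L x else 1)
    (fun x => by
      split_ifs
      · exact gen_mul_self x
      · simp)
    (fun x y h => by
      by_cases hx : x ∈ J <;> by_cases hy : y ∈ J <;> simp [hx, hy, gen_comm h])

theorem ret_gen_mem {J : Set V} {x : V} (h : x ∈ J) : ret L J (gen L x) = gen L x := by
  classical
  rw [ret, racLift_gen, if_pos h]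

theorem ret_gen_not_mem {J : Set V} {x : V} (h : x ∉ J) : ret L J (gen L x) = 1 := by
  classical
  rw [ret, racLift_gen, if_neg h]

theorem ret_of_mem_sub {J : Set V} {w : Rac L} (h : w ∈ sub L J) : ret L J w = w := by
  induction h using Subgroup.closure_induction with
  | mem x hx =>
    obtain ⟨a, ha, rfl⟩ := hx
    exact ret_gen_mem ha
  | one => simp
  | mul x y _ _ ihx ihy => rw [map_mul, ihx, ihy]
  | inv x _ ih => rw [map_inv, ih]

theorem ret_of_mem_sub_disjoint {J K : Set V} (hd : ∀ x ∈ K, x ∉ J) {w : Rac L}
    (h : w ∈ sub L K) : ret L J w = 1 := by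
  induction h using Subgroup.closure_induction with
  | mem x hx =>
    obtain ⟨a, ha, rfl⟩ := hx
    exact ret_gen_not_mem (hd a ha)
  | one => simp
  | mul x y _ _ ihx ihy => rw [map_mul, ihx, ihy, one_mul]
  | inv x _ ih => rw [map_inv, ih, inv_one]

theorem len_ret_le (J : Set V) (w : Rac L) : len (ret L J w) ≤ len w := by
  classical
  obtain ⟨l, hl, hl2⟩ := exists_reduced w
  rw [← hl2, ← hl]
  clear hl hl2
  induction l with
  | nil => simp
  | cons a l ih =>
    rw [wp_cons, map_mul, List.length_cons]
    by_cases h : a ∈ J
    · rw [ret_gen_mem h]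
      have := len_mul_le (gen L a) (ret L J (wp L l))
      rw [len_gen] at this
      omega
    · rw [ret_gen_not_mem h, one_mul]
      omega

/-- The parity homomorphism: number of occurrences of each generator modulo two. -/
noncomputable def par (L : SimpleGraph V) : Rac L →* Multiplicative (V → ZMod 2) := by
  classical
  exact racLift (fun x => Multiplicative.ofAdd (Pi.single x (1 : ZMod 2)))
    (by
      intro x
      rw [← ofAdd_add, ← Pi.single_add]
      have : (1 : ZMod 2) + 1 = 0 := by decide
      rw [this, Pi.single_zero, ofAdd_zero])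
    (by intro x y _; exact mul_comm _ _)

open Classical in
theorem par_gen (x : V) :
    par L (gen L x) = Multiplicative.ofAdd (Pi.single x (1 : ZMod 2)) := by
  rw [par, racLift_gen]

open Classical in
theorem par_wp (l : List V) (x : V) :
    Multiplicative.toAdd (par L (wp L l)) x = (l.count x : ZMod 2) := by
  induction l with
  | nil => simp
  | cons a l ih =>
    rw [wp_cons, map_mul, toAdd_mul, Pi.add_apply, ih, par_gen, toAdd_ofAdd, List.count_cons]
    by_cases h : a = x
    · subst h; simp [add_comm]
    · have h' : ¬ x = a := fun e => h e.symm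
      simp [h, h']

end Pool.Agent.RD54
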