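import Pool.Agent.LibRD54.Tree

/-!
# Centre data for iterated semidirect products with right-angled Coxeter groups
-/

set_option autoImplicit false

open scoped Topology

namespace Pool.Agent.RD54

/-- The algebraic part of the centre data. -/
structure PreCD {G K : Type*} [Group G] [MulAction G K] (A : G → Set K) (B : Set G) (P : ℕ) :
    Prop where
  fin : ∀ x, (A x).Finite
  card : ∀ x, (A x).ncard ≤ P
  cent : ∀ y ∈ B, ∀ x, ∃ c ∈ A y, c ∈ A x ∧ y⁻¹ • c ∈ A (y⁻¹ * x)

/-- A set that injects into a product of two finite sets. -/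
theorem ncard_inj_prod {X Y Z : Type*} (f : X → Y) (g : X → Z)
    (hfg : ∀ a b, f a = f b → g a = g b → a = b) (s : Set Y) (t : Set Z) (hs : s.Finite)
    (ht : t.Finite) :
    {a | f a ∈ s ∧ g a ∈ t}.Finite ∧ {a | f a ∈ s ∧ g a ∈ t}.ncard ≤ s.ncard * t.ncard := by
  have hinj : Set.InjOn (fun a => (f a, g a)) {a | f a ∈ s ∧ g a ∈ t} := by
    intro a _ b _ e
    obtain ⟨e1, e2⟩ := Prod.mk.inj e
    exact hfg a b e1 e2
  have hmaps : ∀ a ∈ {a | f a ∈ s ∧ g a ∈ t}, (f a, g a) ∈ s ×ˢ t := fun a ha => ha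
  have hfin : (s ×ˢ t).Finite := hs.prod ht
  refine ⟨Set.Finite.of_finite_image (hfin.subset (by rintro _ ⟨a, ha, rfl⟩; exact hmaps a ha))
    hinj, ?_⟩
  rw [← Set.ncard_prod]
  exact Set.ncard_le_ncard_of_injOn _ hmaps hinj hfin

variable {V : Type*} {L : SimpleGraph V} {Q : Type*} [Group Q] [MulAction Q V]
  {K : Type*} [MulAction Q K]

/-! ### Point centres -/

/-- Points of the group together with centres of the acting group. -/
@[ext] structure KP (L : SimpleGraph V) (K : Type*) where
  /-- the point -/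
  pt : Rac L
  /-- the rest -/
  rest : K

noncomputable instance instKP (h : ∀ (a : Q) (x y : V), L.Adj x y → L.Adj (a • x) (a • y)) :
    MulAction (Rac L ⋊[racAct L h] Q) (KP L K) where
  smul g c := ⟨g.left * racAct L h g.right c.pt, g.right • c.rest⟩
  one_smul c := by
    change KP.mk ((1 : Rac L) * racAct L h 1 c.pt) ((1 : Q) • c.rest) = c
    rw [map_one, one_smul, one_mul]
    rfl
  mul_smul g g' c := by
    change KP.mk ((g * g').left * racAct L h (g * g').right c.pt) ((g * g').right • c.rest) =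
      KP.mk (g.left * racAct L h g.right (g'.left * racAct L h g'.right c.pt))
        (g.right • g'.right • c.rest)
    rw [SemidirectProduct.mul_left, SemidirectProduct.mul_right, mul_smul, map_mul, map_mul,
      mul_assoc, MulAut.mul_apply]

theorem KP_smul_pt (h : ∀ (a : Q) (x y : V), L.Adj x y → L.Adj (a • x) (a • y))
    (g : Rac L ⋊[racAct L h] Q) (c : KP L K) :
    (g • c).pt = g.left * racAct L h g.right c.pt := rfl

theorem KP_smul_rest (h : ∀ (a : Q) (x y : V), L.Adj x y → L.Adj (a • x) (a • y))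
    (g : Rac L ⋊[racAct L h] Q) (c : KP L K) :
    (g • c).rest = g.right • c.rest := rfl

/-- Centre sets. -/
def AP {L : SimpleGraph V} (n : ℕ) (x : Rac L) (S : Set K) : Set (KP L K) :=
  {c | c.pt ∈ Pf n x ∧ c.rest ∈ S}

theorem PreCD.tree (h : ∀ (a : Q) (x y : V), (⊥ : SimpleGraph V).Adj x y →
      (⊥ : SimpleGraph V).Adj (a • x) (a • y))
    {A : Q → Set K} {B : Set Q} {P : ℕ} (D : PreCD A B P) (n : ℕ) :
    PreCD (G := Rac (⊥ : SimpleGraph V) ⋊[racAct ⊥ h] Q) (K := KP (⊥ : SimpleGraph V) K)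
      (fun g => AP n g.left (A g.right)) {g | len g.left ≤ n ∧ g.right ∈ B}
      ((n + 1) * P) where
  fin g := (ncard_inj_prod KP.pt KP.rest (fun _ _ => KP.ext) _ _ (finite_Pf n g.left)
    (D.fin g.right)).1
  card g := (ncard_inj_prod KP.pt KP.rest (fun _ _ => KP.ext) _ _ (finite_Pf n g.left)
    (D.fin g.right)).2.trans (Nat.mul_le_mul (ncard_Pf n g.left) (D.card g.right))
  cent y hy x := by
    obtain ⟨hy1, hy2⟩ := hy
    obtain ⟨m, h1, h2, h3⟩ := exists_centre_pt (x := x.left) hy1
    obtain ⟨c, c1, c2, c3⟩ := D.cent y.right hy2 x.right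
    refine ⟨⟨m, c⟩, ⟨h1, c1⟩, ⟨h2, c2⟩, ?_⟩
    have e1 : (y⁻¹).left * racAct ⊥ h (y⁻¹).right m = racAct ⊥ h y.right⁻¹ (y.left⁻¹ * m) := by
      rw [SemidirectProduct.inv_left, SemidirectProduct.inv_right, map_mul]
    have e2 : (y⁻¹ * x).left = racAct ⊥ h y.right⁻¹ (y.left⁻¹ * x.left) := by
      rw [SemidirectProduct.mul_left, SemidirectProduct.inv_left, SemidirectProduct.inv_right,
        map_mul]
    have e3 : (y⁻¹ * x).right = y.right⁻¹ * x.right := by
      rw [SemidirectProduct.mul_right, SemidirectProduct.inv_right]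
    refine ⟨?_, ?_⟩
    · change (y⁻¹).left * racAct ⊥ h (y⁻¹).right m ∈ Pf n (y⁻¹ * x).left
      rw [e1, e2]
      exact Pf_racAct h _ h3
    · change (y⁻¹).right • c ∈ A (y⁻¹ * x).right
      rw [e3, SemidirectProduct.inv_right]
      exact c3

/-! ### Coset centres -/

/-- Finite subsets of the group together with centres of the acting group. -/
@[ext] structure KR (L : SimpleGraph V) (K : Type*) where
  /-- the subset -/
  st : Set (Rac L)
  /-- it is finite -/
  fin : st.Finite
  /-- the rest -/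
  rest : K

noncomputable instance instKR (h : ∀ (a : Q) (x y : V), L.Adj x y → L.Adj (a • x) (a • y)) :
    MulAction (Rac L ⋊[racAct L h] Q) (KR L K) where
  smul g c := ⟨(fun w => g.left * racAct L h g.right w) '' c.st, c.fin.image _, g.right • c.rest⟩
  one_smul c := by
    apply KR.ext
    · change (fun w => (1 : Rac L) * racAct L h 1 w) '' c.st = c.st
      have : (fun w => (1 : Rac L) * racAct L h 1 w) = id := by
        funext w
        rw [map_one, one_mul]; rfl
      rw [this, Set.image_id]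
    · change (1 : Q) • c.rest = c.rest
      rw [one_smul]
  mul_smul g g' c := by
    apply KR.ext
    · change (fun w => (g * g').left * racAct L h (g * g').right w) '' c.st =
        (fun w => g.left * racAct L h g.right w) ''
          ((fun w => g'.left * racAct L h g'.right w) '' c.st)
      rw [Set.image_image]
      apply congrArg (fun f => f '' c.st)
      funext w
      rw [SemidirectProduct.mul_left, SemidirectProduct.mul_right, map_mul, map_mul,
        mul_assoc, MulAut.mul_apply]
    · change (g * g').right • c.rest = g.right • g'.right • c.rest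
      rw [SemidirectProduct.mul_right, mul_smul]

theorem KR_smul_st (h : ∀ (a : Q) (x y : V), L.Adj x y → L.Adj (a • x) (a • y))
    (g : Rac L ⋊[racAct L h] Q) (c : KR L K) :
    (g • c).st = (fun w => g.left * racAct L h g.right w) '' c.st := rfl

theorem KR_smul_rest (h : ∀ (a : Q) (x y : V), L.Adj x y → L.Adj (a • x) (a • y))
    (g : Rac L ⋊[racAct L h] Q) (c : KR L K) : (g • c).rest = g.right • c.rest := rfl

theorem finite_of_mem_CW (hD : DiamondFree L) (hb : ∀ s t, L.Adj s t → (blk L s t).Finite)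
    {J : Set V} {n : ℕ} {x : Rac L} {z : Set (Rac L)} (hz : z ∈ CW L J n x) : z.Finite := by
  rcases CW_cases hz with ⟨m, rfl⟩ | ⟨m, s, t, hst, rfl⟩
  · exact Set.finite_singleton m
  · have h1 := (finite_sub (hb s t hst) (blk_pairwise hD hst)).1
    have : coset m (blk L s t) = (fun w => m * w) '' (sub L (blk L s t) : Set (Rac L)) := by
      ext w
      constructor
      · intro hw
        exact ⟨m⁻¹ * w, hw, by simp⟩
      · rintro ⟨v, hv, rfl⟩
        change m⁻¹ * (m * v) ∈ sub L (blk L s t)
        rw [inv_mul_cancel_left]; exact hv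
    rw [this]
    exact h1.image _

/-- Centre sets. -/
def AR (L : SimpleGraph V) (J : Set V) (n : ℕ) (x : Rac L) (S : Set K) : Set (KR L K) :=
  {c | c.st ∈ CW L J n x ∧ c.rest ∈ S}

theorem PreCD.rac (h : ∀ (a : Q) (x y : V), L.Adj x y → L.Adj (a • x) (a • y))
    (hD : DiamondFree L) (hb : ∀ s t, L.Adj s t → (blk L s t).Finite)
    {J : Set V} {κ : ℕ} (hκ : CliqueBound L J κ)
    {A : Q → Set K} {B : Set Q} {P : ℕ} (D : PreCD A B P) (n : ℕ) :
    PreCD (G := Rac L ⋊[racAct L h] Q) (K := KR L K)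
      (fun g => AR L J n g.left (A g.right))
      {g | len g.left ≤ n ∧ g.left ∈ sub L J ∧ (g⁻¹).left ∈ sub L J ∧ g.right ∈ B}
      (cbound n κ * P) where
  fin g := (ncard_inj_prod KR.st KR.rest (fun _ _ => KR.ext) _ _ (ncard_CW hD hκ n g.left).1
    (D.fin g.right)).1
  card g := (ncard_inj_prod KR.st KR.rest (fun _ _ => KR.ext) _ _ (ncard_CW hD hκ n g.left).1
    (D.fin g.right)).2.trans (Nat.mul_le_mul (ncard_CW hD hκ n g.left).2 (D.card g.right))
  cent y hy x := by
    obtain ⟨hy1, hy2, hy3, hy4⟩ := hy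
    set q := y.right with hq
    have hJ' : y.left⁻¹ ∈ sub L ((fun v => q • v) '' J) := by
      rw [SemidirectProduct.inv_left] at hy3
      have := racAct_mem_sub h q hy3
      rwa [racAct_apply_inv] at this
    obtain ⟨z, z1, z2, z3⟩ := exists_centre hD (x := x.left) hy2 hy1 hJ'
    obtain ⟨c, c1, c2, c3⟩ := D.cent y.right hy4 x.right
    refine ⟨⟨z, finite_of_mem_CW hD hb z1, c⟩, ⟨z1, c1⟩, ⟨z2, c2⟩, ?_⟩
    have e1 : (fun w => (y⁻¹).left * racAct L h (y⁻¹).right w) '' z =
        (fun w => racAct L h q⁻¹ w) '' ((fun w => y.left⁻¹ * w) '' z) := by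
      rw [Set.image_image]
      apply congrArg (fun f => f '' z)
      funext w
      rw [SemidirectProduct.inv_left, SemidirectProduct.inv_right, map_mul]
    have e2 : (y⁻¹ * x).left = racAct L h q⁻¹ (y.left⁻¹ * x.left) := by
      rw [SemidirectProduct.mul_left, SemidirectProduct.inv_left, SemidirectProduct.inv_right,
        map_mul]
    have e3 : (y⁻¹ * x).right = y.right⁻¹ * x.right := by
      rw [SemidirectProduct.mul_right, SemidirectProduct.inv_right]
    refine ⟨?_, ?_⟩
    · change (fun w => (y⁻¹).left * racAct L h (y⁻¹).right w) '' z ∈ CW L J n (y⁻¹ * x).left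
      rw [e1, e2]
      have := CW_racAct h q⁻¹ z3
      rw [Set.image_image] at this
      simpa using this
    · change (y⁻¹).right • c ∈ A (y⁻¹ * x).right
      rw [e3, SemidirectProduct.inv_right]
      exact c3

/-! ### Continuity at the identity -/

/-- Elements close to the identity fix every given point. -/
def NearOne (G K : Type*) [TopologicalSpace G] [Group G] [MulAction G K] : Prop :=
  ∀ c : K, ∀ᶠ g in 𝓝 (1 : G), g • c = c

theorem NearOne.isOpen_stabilizer {G K : Type*} [TopologicalSpace G] [Group G]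
    [IsTopologicalGroup G] [MulAction G K] (hN : NearOne G K) (c : K) :
    IsOpen (MulAction.stabilizer G c : Set G) := by
  apply Subgroup.isOpen_of_mem_nhds (g := 1)
  exact hN c

theorem NearOne.rac_apply [TopologicalSpace Q] (hN : NearOne Q V)
    (h : ∀ (a : Q) (x y : V), L.Adj x y → L.Adj (a • x) (a • y)) (w : Rac L) :
    ∀ᶠ q in 𝓝 (1 : Q), racAct L h q w = w := by
  obtain ⟨l, rfl, -⟩ := exists_reduced w
  have : ∀ l : List V, ∀ᶠ q in 𝓝 (1 : Q), ∀ a ∈ l, q • a = a := by
    intro l
    induction l with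
    | nil => simp
    | cons a l ih =>
      filter_upwards [ih, hN a] with q h1 h2
      intro b hb
      rcases List.mem_cons.mp hb with rfl | hb
      · exact h2
      · exact h1 b hb
  filter_upwards [this l] with q hq
  rw [racAct_wp]
  congr 1
  conv_rhs => rw [← List.map_id l]
  exact List.map_congr_left hq

theorem NearOne.rac_set [TopologicalSpace Q] (hN : NearOne Q V)
    (h : ∀ (a : Q) (x y : V), L.Adj x y → L.Adj (a • x) (a • y)) {z : Set (Rac L)}
    (hz : z.Finite) :
    ∀ᶠ q in 𝓝 (1 : Q), ∀ w ∈ z, racAct L h q w = w := by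
  rw [Filter.eventually_all_finite hz]
  intro w _
  exact hN.rac_apply h w

theorem NearOne.KP [TopologicalSpace Q] (hN : NearOne Q V) (hK : NearOne Q K)
    (h : ∀ (a : Q) (x y : V), L.Adj x y → L.Adj (a • x) (a • y))
    [TopologicalSpace (Rac L ⋊[racAct L h] Q)]
    (hl : ∀ᶠ g in 𝓝 (1 : Rac L ⋊[racAct L h] Q), g.left = 1)
    (hr : Filter.Tendsto (fun g : Rac L ⋊[racAct L h] Q => g.right) (𝓝 1) (𝓝 1)) :
    NearOne (Rac L ⋊[racAct L h] Q) (KP L K) := by
  intro c
  filter_upwards [hl, hr.eventually (hN.rac_apply h c.pt), hr.eventually (hK c.rest)] with g h1 h2 h3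
  apply KP.ext
  · rw [KP_smul_pt, h1, one_mul]; exact h2
  · exact h3

theorem NearOne.KR [TopologicalSpace Q] (hN : NearOne Q V) (hK : NearOne Q K)
    (h : ∀ (a : Q) (x y : V), L.Adj x y → L.Adj (a • x) (a • y))
    [TopologicalSpace (Rac L ⋊[racAct L h] Q)]
    (hl : ∀ᶠ g in 𝓝 (1 : Rac L ⋊[racAct L h] Q), g.left = 1)
    (hr : Filter.Tendsto (fun g : Rac L ⋊[racAct L h] Q => g.right) (𝓝 1) (𝓝 1)) :
    NearOne (Rac L ⋊[racAct L h] Q) (KR L K) := by
  intro c
  filter_upwards [hl, hr.eventually (hN.rac_set h c.fin), hr.eventually (hK c.rest)] with g h1 h2 h3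
  apply KR.ext
  · rw [KR_smul_st]
    ext w
    constructor
    · rintro ⟨v, hv, rfl⟩
      simp only
      rw [h1, one_mul, h2 v hv]; exact hv
    · intro hw
      refine ⟨w, hw, ?_⟩
      simp only
      rw [h1, one_mul, h2 w hw]
  · exact h3

end Pool.Agent.RD54
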