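import Pool.Agent.LibRD54.Count

/-!
# Centres of triples in the right-angled Coxeter group of a diamond-free graph
-/

set_option autoImplicit false

namespace Pool.Agent.RD54

variable {V : Type*} {L : SimpleGraph V}

/-- The block of an edge: common neighbours, together with the two end points. -/
def blk (L : SimpleGraph V) (s t : V) : Set V := {u | (u = s ∨ L.Adj u s) ∧ (u = t ∨ L.Adj u t)}

/-- Every edge lies in a unique maximal clique. -/
def DiamondFree (L : SimpleGraph V) : Prop :=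
  ∀ s t u v, L.Adj s t → L.Adj u s → L.Adj u t → L.Adj v s → L.Adj v t → u ≠ v → L.Adj u v

theorem left_mem_blk {s t : V} (h : L.Adj s t) : s ∈ blk L s t := ⟨Or.inl rfl, Or.inr h⟩

theorem right_mem_blk {s t : V} (h : L.Adj s t) : t ∈ blk L s t := ⟨Or.inr h.symm, Or.inl rfl⟩

theorem blk_clique (hD : DiamondFree L) {s t u v : V} (h : L.Adj s t) (hu : u ∈ blk L s t)
    (hv : v ∈ blk L s t) (hne : u ≠ v) : L.Adj u v := by
  obtain ⟨hu1, hu2⟩ := hu
  obtain ⟨hv1, hv2⟩ := hv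
  rcases hu1 with rfl | hu1
  · rcases hv1 with rfl | hv1
    · exact absurd rfl hne
    · exact hv1.symm
  · rcases hu2 with rfl | hu2
    · rcases hv2 with rfl | hv2
      · exact absurd rfl hne
      · exact hv2.symm
    · rcases hv1 with rfl | hv1
      · exact hu1
      · rcases hv2 with rfl | hv2
        · exact hu2
        · exact hD s t u v h hu1 hu2 hv1 hv2 hne

theorem blk_eq (hD : DiamondFree L) {s t u v : V} (h : L.Adj s t) (hu : u ∈ blk L s t)
    (hv : v ∈ blk L s t) (hne : u ≠ v) : blk L u v = blk L s t := by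
  have huv : L.Adj u v := blk_clique hD h hu hv hne
  have key : ∀ w : V, w ∈ blk L u v → ∀ p ∈ blk L s t, w = p ∨ L.Adj w p := by
    intro w hw p hp
    by_cases hpu : p = u
    · subst hpu; exact hw.1
    · by_cases hpv : p = v
      · subst hpv; exact hw.2
      · have h1 : L.Adj p u := blk_clique hD h hp hu hpu
        have h2 : L.Adj p v := blk_clique hD h hp hv hpv
        by_cases hwp : w = p
        · exact Or.inl hwp
        · right
          rcases hw.1 with rfl | hw1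
          · exact h1.symm
          · rcases hw.2 with rfl | hw2
            · exact h2.symm
            · exact hD u v w p huv hw1 hw2 h1 h2 hwp
  ext w
  constructor
  · intro hw
    exact ⟨key w hw s (left_mem_blk h), key w hw t (right_mem_blk h)⟩
  · intro hw
    constructor
    · by_cases e : w = u
      · exact Or.inl e
      · exact Or.inr (blk_clique hD h hw hu e)
    · by_cases e : w = v
      · exact Or.inl e
      · exact Or.inr (blk_clique hD h hw hv e)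

/-- `m` is thick for the pair `a`, `b`. -/
def Thick (a b m : Rac L) : Prop :=
  ∃ s t u v, s ≠ t ∧ Desc (a⁻¹ * m) s ∧ Desc (a⁻¹ * m) t ∧ u ≠ v ∧ Desc (b⁻¹ * m) u ∧
    Desc (b⁻¹ * m) v ∧ u ∈ blk L s t ∧ v ∈ blk L s t

theorem Thick.symm (hD : DiamondFree L) {a b m : Rac L} (h : Thick a b m) : Thick b a m := by
  obtain ⟨s, t, u, v, h1, h2, h3, h4, h5, h6, h7, h8⟩ := h
  have hst := adj_of_desc h2 h3 h1
  refine ⟨u, v, s, t, h4, h5, h6, h1, h2, h3, ?_, ?_⟩
  · rw [blk_eq hD hst h7 h8 h4]; exact left_mem_blk hst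
  · rw [blk_eq hD hst h7 h8 h4]; exact right_mem_blk hst

theorem thick_mul_left (g a b m : Rac L) : Thick (g * a) (g * b) (g * m) ↔ Thick a b m := by
  unfold Thick
  have e : ∀ x y : Rac L, (g * x)⁻¹ * (g * y) = x⁻¹ * y := by intro x y; group
  simp only [e]

/-- The left coset `m * sub L S` as a set. -/
def coset (m : Rac L) (S : Set V) : Set (Rac L) := {w | m⁻¹ * w ∈ sub L S}

theorem coset_eq {m m' : Rac L} {S : Set V} (h : m⁻¹ * m' ∈ sub L S) :
    coset m S = coset m' S := by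
  ext w
  unfold coset
  simp only [Set.mem_ofPred_eq]
  have e : m'⁻¹ * w = (m⁻¹ * m')⁻¹ * (m⁻¹ * w) := by group
  rw [e]
  constructor
  · intro hw; exact Subgroup.mul_mem _ (Subgroup.inv_mem _ h) hw
  · intro hw
    have := Subgroup.mul_mem _ h hw
    rwa [mul_inv_cancel_left] at this

theorem image_coset (g m : Rac L) (S : Set V) :
    (fun w => g * w) '' coset m S = coset (g * m) S := by
  ext w
  simp only [Set.mem_image, coset, Set.mem_ofPred_eq]
  constructor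
  · rintro ⟨v, hv, rfl⟩
    have e : (g * m)⁻¹ * (g * v) = m⁻¹ * v := by group
    rw [e]; exact hv
  · intro hw
    refine ⟨g⁻¹ * w, ?_, by group⟩
    have e : m⁻¹ * (g⁻¹ * w) = (g * m)⁻¹ * w := by group
    rw [e]; exact hw

/-- The centre set of the pair `1`, `x`. -/
def CW (L : SimpleGraph V) (J : Set V) (n : ℕ) (x : Rac L) : Set (Set (Rac L)) :=
  {z | ∃ m ∈ Qs L J n x, (¬ Thick 1 x m ∧ z = {m}) ∨
    (∃ s t, s ≠ t ∧ ((Desc m s ∧ Desc m t) ∨ (Desc (x⁻¹ * m) s ∧ Desc (x⁻¹ * m) t)) ∧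
      z = coset m (blk L s t))}

/-- Every triple `1, y, x` with `y` small has a common centre. -/
theorem exists_centre (hD : DiamondFree L) {J J' : Set V} {n : ℕ} {x y : Rac L}
    (hy : y ∈ sub L J) (hn : len y ≤ n) (hy' : y⁻¹ ∈ sub L J') :
    ∃ z, z ∈ CW L J n y ∧ z ∈ CW L J n x ∧ (fun w => y⁻¹ * w) '' z ∈ CW L J' n (y⁻¹ * x) := by
  obtain ⟨m, hm⟩ := exists_med 1 y x
  obtain ⟨h1, h2, h3⟩ := hm
  simp only [inv_one, one_mul] at h1 h2
  have py : Pre y m := h1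
  have px : Pre x m := h2
  have pyx : Pre (y⁻¹ * x) (y⁻¹ * m) := by
    unfold Pre
    have e : (y⁻¹ * m)⁻¹ * (y⁻¹ * x) = m⁻¹ * x := by group
    rw [e]; exact h3
  have hmJ : m ∈ sub L J := red_mem_sub py.red (by rw [mul_inv_cancel_left]; exact hy)
  have hmn : len m ≤ n := py.len_le.trans hn
  have hq : Pre y⁻¹ (y⁻¹ * m) := by
    unfold Pre
    have e : (y⁻¹ * m)⁻¹ * y⁻¹ = m⁻¹ := by group
    rw [e, len_inv, len_inv, len_symm]
    omega
  have hmJ' : y⁻¹ * m ∈ sub L J' := red_mem_sub hq.red (by rw [mul_inv_cancel_left]; exact hy')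
  have hmn' : len (y⁻¹ * m) ≤ n := by
    have := hq.len_le
    rw [len_inv] at this
    exact this.trans hn
  have q1 : m ∈ Qs L J n y := ⟨py, hmn, hmJ⟩
  have q2 : m ∈ Qs L J n x := ⟨px, hmn, hmJ⟩
  have q3 : y⁻¹ * m ∈ Qs L J' n (y⁻¹ * x) := ⟨pyx, hmn', hmJ'⟩
  -- descents seen from the translated pair
  have e1 : (y⁻¹ * x)⁻¹ * (y⁻¹ * m) = x⁻¹ * m := by group
  -- given a block seen by two of the three pairs
  have main : ∀ s t u v : V, s ≠ t → u ≠ v → blk L u v = blk L s t →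
      ((Desc m s ∧ Desc m t ∧ Desc (y⁻¹ * m) u ∧ Desc (y⁻¹ * m) v) ∨
       (Desc m s ∧ Desc m t ∧ Desc (x⁻¹ * m) u ∧ Desc (x⁻¹ * m) v) ∨
       (Desc (y⁻¹ * m) s ∧ Desc (y⁻¹ * m) t ∧ Desc (x⁻¹ * m) u ∧ Desc (x⁻¹ * m) v)) →
      ∃ z, z ∈ CW L J n y ∧ z ∈ CW L J n x ∧ (fun w => y⁻¹ * w) '' z ∈ CW L J' n (y⁻¹ * x) := by
    intro s t u v hst huv hb hc
    refine ⟨coset m (blk L s t), ?_, ?_, ?_⟩
    · rcases hc with ⟨a, b, c, d⟩ | ⟨a, b, c, d⟩ | ⟨a, b, c, d⟩
      · exact ⟨m, q1, Or.inr ⟨s, t, hst, Or.inl ⟨a, b⟩, rfl⟩⟩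
      · exact ⟨m, q1, Or.inr ⟨s, t, hst, Or.inl ⟨a, b⟩, rfl⟩⟩
      · exact ⟨m, q1, Or.inr ⟨s, t, hst, Or.inr ⟨a, b⟩, rfl⟩⟩
    · rcases hc with ⟨a, b, c, d⟩ | ⟨a, b, c, d⟩ | ⟨a, b, c, d⟩
      · exact ⟨m, q2, Or.inr ⟨s, t, hst, Or.inl ⟨a, b⟩, rfl⟩⟩
      · exact ⟨m, q2, Or.inr ⟨s, t, hst, Or.inl ⟨a, b⟩, rfl⟩⟩
      · exact ⟨m, q2, Or.inr ⟨u, v, huv, Or.inr ⟨c, d⟩, by rw [hb]⟩⟩
    · rw [image_coset]
      rcases hc with ⟨a, b, c, d⟩ | ⟨a, b, c, d⟩ | ⟨a, b, c, d⟩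
      · exact ⟨y⁻¹ * m, q3, Or.inr ⟨u, v, huv, Or.inl ⟨c, d⟩, by rw [hb]⟩⟩
      · exact ⟨y⁻¹ * m, q3, Or.inr ⟨u, v, huv, Or.inr (by rw [e1]; exact ⟨c, d⟩), by rw [hb]⟩⟩
      · exact ⟨y⁻¹ * m, q3, Or.inr ⟨s, t, hst, Or.inl ⟨a, b⟩, rfl⟩⟩
  by_cases t1 : Thick 1 y m
  · obtain ⟨s, t, u, v, a1, a2, a3, a4, a5, a6, a7, a8⟩ := t1
    simp only [inv_one, one_mul] at a2 a3
    exact main s t u v a1 a4 (blk_eq hD (adj_of_desc a2 a3 a1) a7 a8 a4)
      (Or.inl ⟨a2, a3, a5, a6⟩)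
  by_cases t2 : Thick 1 x m
  · obtain ⟨s, t, u, v, a1, a2, a3, a4, a5, a6, a7, a8⟩ := t2
    simp only [inv_one, one_mul] at a2 a3
    exact main s t u v a1 a4 (blk_eq hD (adj_of_desc a2 a3 a1) a7 a8 a4)
      (Or.inr (Or.inl ⟨a2, a3, a5, a6⟩))
  by_cases t3 : Thick y x m
  · obtain ⟨s, t, u, v, a1, a2, a3, a4, a5, a6, a7, a8⟩ := t3
    exact main s t u v a1 a4 (blk_eq hD (adj_of_desc a2 a3 a1) a7 a8 a4)
      (Or.inr (Or.inr ⟨a2, a3, a5, a6⟩))
  refine ⟨{m}, ⟨m, q1, Or.inl ⟨t1, rfl⟩⟩, ⟨m, q2, Or.inl ⟨t2, rfl⟩⟩, ?_⟩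
  rw [Set.image_singleton]
  refine ⟨y⁻¹ * m, q3, Or.inl ⟨?_, rfl⟩⟩
  have := thick_mul_left y⁻¹ y x m
  rw [inv_mul_cancel] at this
  rw [this]; exact t3

/-! ### Counting centres -/

/-- Common data of two prefixes sharing two descent walls. -/
theorem shared_walls {x m m' : Rac L} (h : Pre x m) (h' : Pre x m') {s t s' t' : V}
    (hs : Desc m s) (ht : Desc m t) (hs' : Desc m' s') (ht' : Desc m' t')
    (w1 : m * gen L s * m⁻¹ = m' * gen L s' * m'⁻¹)
    (w2 : m * gen L t * m⁻¹ = m' * gen L t' * m'⁻¹) :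
    s = s' ∧ t = t' ∧ ∃ (l l' : List V), l.length = len (wp L l) ∧ l'.length = len (wp L l') ∧
      m * (wp L l)⁻¹ * wp L l' = m' ∧
      (∀ a ∈ l, a ∈ blk L s t) ∧ (∀ a ∈ l', a ∈ blk L s t) ∧
      Pre (m⁻¹ * x) (wp L l') ∧ Pre (m'⁻¹ * x) (wp L l) ∧
      (∀ l0 a, l = l0 ++ [a] → Desc m a) := by
  obtain ⟨k, l, l', hk, p1, p2, hl, hl', r1, r2, g1, g2, g3⟩ := two_prefixes h h'
  have e1 : k * wp L l = m := by rw [hl, mul_inv_cancel_left]
  have e2 : k * wp L l' = m' := by rw [hl', mul_inv_cancel_left]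
  have a1 : sg m (m * gen L s * m⁻¹) = 1 := desc_iff_sg.mp hs
  have a2 : sg m (m * gen L t * m⁻¹) = 1 := desc_iff_sg.mp ht
  have b1 : sg m' (m' * gen L s' * m'⁻¹) = 1 := desc_iff_sg.mp hs'
  have b2 : sg m' (m' * gen L t' * m'⁻¹) = 1 := desc_iff_sg.mp ht'
  have c1 : sg k (m * gen L s * m⁻¹) = 1 := sg_med hk a1 (by rw [w1]; exact b1)
  have c2 : sg k (m * gen L t * m⁻¹) = 1 := sg_med hk a2 (by rw [w2]; exact b2)
  have len1 : len (k * wp L l) = len k + l.length := by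
    rw [e1, r1, hl]; exact p1
  have len2 : len (k * wp L l') = len k + l'.length := by
    rw [e2, r2, hl']; exact p2
  obtain ⟨d1, d2, d3⟩ := strip l len1 (by rw [e1]; exact hs) (by rw [e1]; exact c1)
  obtain ⟨d4, d5, d6⟩ := strip l len1 (by rw [e1]; exact ht) (by rw [e1]; exact c2)
  obtain ⟨f1, f2, f3⟩ := strip l' len2 (by rw [e2]; exact hs') (by rw [e2, ← w1]; exact c1)
  obtain ⟨f4, f5, f6⟩ := strip l' len2 (by rw [e2]; exact ht') (by rw [e2, ← w2]; exact c2)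
  have conj_inj : ∀ a b : V, k * gen L a * k⁻¹ = k * gen L b * k⁻¹ → a = b := by
    intro a b hab
    apply gen_injective (L := L)
    have : k⁻¹ * (k * gen L a * k⁻¹) * k = k⁻¹ * (k * gen L b * k⁻¹) * k := by rw [hab]
    have e : ∀ g : Rac L, k⁻¹ * (k * g * k⁻¹) * k = g := by intro g; group
    rwa [e, e] at this
  have es : s = s' := conj_inj s s' (by rw [d3, f3, e1, e2, w1])
  have et : t = t' := conj_inj t t' (by rw [d6, f6, e1, e2, w2])
  refine ⟨es, et, l, l', r1, r2, ?_, ?_, ?_, g2, g3, ?_⟩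
  · rw [← e2, ← e1]; group
  · intro a ha
    exact ⟨Or.inr (d1 a ha), Or.inr (d4 a ha)⟩
  · intro a ha
    refine ⟨Or.inr ?_, Or.inr ?_⟩
    · rw [es]; exact f1 a ha
    · rw [et]; exact f4 a ha
  · intro l0 a hla
    exact last_desc p1 hl r1 hla

/-- Cosets seen through two descents. -/
def C1 (L : SimpleGraph V) (J : Set V) (n : ℕ) (x : Rac L) : Set (Set (Rac L)) :=
  {z | ∃ m ∈ Qs L J n x, ∃ s t, s ≠ t ∧ Desc m s ∧ Desc m t ∧ z = coset m (blk L s t)}

theorem ncard_C1 {J : Set V} {κ : ℕ} (hκ : CliqueBound L J κ) (n : ℕ) (x : Rac L) :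
    (C1 L J n x).Finite ∧ (C1 L J n x).ncard ≤ (1 + n * κ) * (1 + n * κ) := by
  classical
  obtain ⟨hWf, hWc⟩ := ncard_Ws hκ n x
  have hex : ∀ z ∈ C1 L J n x, ∃ p : Rac L × Rac L, ∃ m ∈ Qs L J n x, ∃ s t, s ≠ t ∧ Desc m s ∧
      Desc m t ∧ z = coset m (blk L s t) ∧ p = (m * gen L s * m⁻¹, m * gen L t * m⁻¹) := by
    rintro z ⟨m, hm, s, t, h1, h2, h3, h4⟩
    exact ⟨_, m, hm, s, t, h1, h2, h3, h4, rfl⟩
  choose! f hf using hex
  have hmaps : ∀ z ∈ C1 L J n x, f z ∈ (Ws L J n x) ×ˢ (Ws L J n x) := by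
    intro z hz
    obtain ⟨m, hm, s, t, h1, h2, h3, h4, h5⟩ := hf z hz
    rw [h5]
    exact ⟨⟨m, hm, desc_iff_sg.mp h2⟩, ⟨m, hm, desc_iff_sg.mp h3⟩⟩
  have hinj : Set.InjOn f (C1 L J n x) := by
    intro z hz z' hz' h
    obtain ⟨m, hm, s, t, h1, h2, h3, h4, h5⟩ := hf z hz
    obtain ⟨m', hm', s', t', h1', h2', h3', h4', h5'⟩ := hf z' hz'
    rw [h5, h5'] at h
    obtain ⟨w1, w2⟩ := Prod.mk.inj h
    obtain ⟨es, et, l, l', -, -, he, ha, hb, -, -, -⟩ :=
      shared_walls hm.1 hm'.1 h2 h3 h2' h3' w1 w2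
    rw [h4, h4', ← es, ← et]
    apply coset_eq
    have : m⁻¹ * m' = (wp L l)⁻¹ * wp L l' := by rw [← he]; group
    rw [this]
    exact Subgroup.mul_mem _ (Subgroup.inv_mem _ (wp_mem_sub ha)) (wp_mem_sub hb)
  have hfin : ((Ws L J n x) ×ˢ (Ws L J n x)).Finite := hWf.prod hWf
  refine ⟨Set.Finite.of_finite_image (hfin.subset (by rintro _ ⟨z, hz, rfl⟩; exact hmaps z hz)) hinj,
    ?_⟩
  calc (C1 L J n x).ncard ≤ ((Ws L J n x) ×ˢ (Ws L J n x)).ncard :=
        Set.ncard_le_ncard_of_injOn f hmaps hinj hfin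
    _ = (Ws L J n x).ncard * (Ws L J n x).ncard := Set.ncard_prod
    _ ≤ _ := Nat.mul_le_mul hWc hWc

/-- Thin prefixes. -/
def Th (L : SimpleGraph V) (J : Set V) (n : ℕ) (x : Rac L) : Set (Rac L) :=
  {m | m ∈ Qs L J n x ∧ ¬ Thick 1 x m}

/-- Thin prefixes with two given descent walls. -/
def Tp (L : SimpleGraph V) (J : Set V) (n : ℕ) (x : Rac L) (p : Rac L × Rac L) : Set (Rac L) :=
  {m | m ∈ Th L J n x ∧ ∃ s t, s ≠ t ∧ Desc m s ∧ Desc m t ∧ m * gen L s * m⁻¹ = p.1 ∧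
    m * gen L t * m⁻¹ = p.2}

theorem finite_Tp (J : Set V) (n : ℕ) (x : Rac L) (p : Rac L × Rac L) :
    (Tp L J n x p).Finite := (finite_Qs J n x).subset (fun _ h => h.1.1)

theorem ldesc_two {b1 b2 : V} {l : List V} (hr : (b1 :: b2 :: l).length = len (wp L (b1 :: b2 :: l)))
    (hadj : L.Adj b1 b2) : LDesc (wp L (b1 :: b2 :: l)) b1 ∧ LDesc (wp L (b1 :: b2 :: l)) b2 := by
  constructor
  · unfold LDesc
    rw [← hr, wp_cons, gen_mul_gen_cancel]
    have := len_wp_le (L := L) (b2 :: l)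
    simp only [List.length_cons] at this ⊢
    omega
  · unfold LDesc
    rw [← hr, wp_cons, wp_cons, ← mul_assoc (gen L b1), gen_comm hadj, mul_assoc,
      gen_mul_gen_cancel, ← wp_cons]
    have := len_wp_le (L := L) (b1 :: l)
    simp only [List.length_cons] at this ⊢
    omega

/-- In a thin prefix at most one ascent lies in the block of two descents. -/
theorem thin_short (hD : DiamondFree L) {x m : Rac L} (hth : ¬ Thick 1 x m) {s t : V}
    (hst : s ≠ t) (hs : Desc m s) (ht : Desc m t) {l' : List V}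
    (hr : l'.length = len (wp L l')) (hb : ∀ a ∈ l', a ∈ blk L s t)
    (hp : Pre (m⁻¹ * x) (wp L l')) : l' = [] ∨ ∃ b, l' = [b] ∧ b ∈ blk L s t ∧
      Desc (x⁻¹ * m) b := by
  have key : ∀ b, LDesc (wp L l') b → Desc (x⁻¹ * m) b := by
    intro b hb
    have h1 := hp.trans (pre_gen_iff.mpr hb)
    rw [pre_gen_iff, ldesc_iff_desc_inv] at h1
    have e : (m⁻¹ * x)⁻¹ = x⁻¹ * m := by group
    rwa [e] at h1
  match l', hr, hb, hp, key with
  | [], _, _, _, _ => exact Or.inl rfl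
  | [b], hr, hb, hp, key =>
    right
    refine ⟨b, rfl, hb b (by simp), key b ?_⟩
    unfold LDesc
    rw [wp_singleton, gen_mul_self, len_gen, len_one]
    exact Nat.zero_lt_one
  | b1 :: b2 :: l, hr, hb, hp, key =>
    exfalso
    have hadj0 := adj_of_desc hs ht hst
    have hne : b1 ≠ b2 := by
      rintro rfl
      rw [wp_cons, wp_cons, gen_mul_gen_cancel] at hr
      have := len_wp_le (L := L) l
      simp only [List.length_cons] at hr
      omega
    have hadj := blk_clique hD hadj0 (hb b1 (by simp)) (hb b2 (by simp)) hne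
    obtain ⟨k1, k2⟩ := ldesc_two hr hadj
    apply hth
    refine ⟨s, t, b1, b2, hst, by simpa using hs, by simpa using ht, hne, key b1 k1, key b2 k2,
      hb b1 (by simp), hb b2 (by simp)⟩

theorem ncard_desc (m : Rac L) : {a | Desc m a}.Finite ∧ {a | Desc m a}.ncard ≤ len m := by
  obtain ⟨h1, h2⟩ := finite_walls m
  have hmaps : ∀ a ∈ {a | Desc m a}, m * gen L a * m⁻¹ ∈ {r | sg m r = 1} := by
    intro a ha
    exact desc_iff_sg.mp ha
  have hinj : Set.InjOn (fun a => m * gen L a * m⁻¹) {a | Desc m a} := by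
    intro a _ b _ h
    apply gen_injective (L := L)
    simp only at h
    have : m⁻¹ * (m * gen L a * m⁻¹) * m = m⁻¹ * (m * gen L b * m⁻¹) * m := by rw [h]
    have e : ∀ g : Rac L, m⁻¹ * (m * g * m⁻¹) * m = g := by intro g; group
    rwa [e, e] at this
  refine ⟨Set.Finite.of_finite_image (h1.subset (by rintro _ ⟨a, ha, rfl⟩; exact hmaps a ha)) hinj,
    ?_⟩
  rw [← h2]
  exact Set.ncard_le_ncard_of_injOn _ hmaps hinj h1

theorem ncard_Tp (hD : DiamondFree L) {J : Set V} (n : ℕ) (x : Rac L) (p : Rac L × Rac L) :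
    (Tp L J n x p).ncard ≤ (n + 1) * 2 := by
  classical
  rcases (Tp L J n x p).eq_empty_or_nonempty with he | ⟨m, hm⟩
  · rw [he, Set.ncard_empty]; exact Nat.zero_le _
  obtain ⟨⟨hmQ, hth⟩, s, t, hst, hs, ht, w1, w2⟩ := hm
  obtain ⟨hDf, hDc⟩ := ncard_desc m
  set A : Set (Rac L) := {1} ∪ (gen L) '' {a | Desc m a} with hA
  set E : Set (Rac L) := {1} ∪ {g | ∃ b, b ∈ blk L s t ∧ Desc (x⁻¹ * m) b ∧ g = gen L b} with hE
  have hAf : A.Finite := (Set.finite_singleton _).union (hDf.image _)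
  have hAc : A.ncard ≤ n + 1 := by
    have h1 : A.ncard ≤ ({1} : Set (Rac L)).ncard + ((gen L) '' {a | Desc m a}).ncard :=
      Set.ncard_union_le _ _
    have h2 : ((gen L) '' {a | Desc m a}).ncard ≤ {a | Desc m a}.ncard :=
      Set.ncard_image_le hDf
    rw [Set.ncard_singleton] at h1
    have := hmQ.2.1
    omega
  -- at most one ascent in the block
  have huniq : ∀ b b', b ∈ blk L s t → Desc (x⁻¹ * m) b → b' ∈ blk L s t →
      Desc (x⁻¹ * m) b' → b = b' := by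
    intro b b' h1 h2 h3 h4
    by_contra hne
    exact hth ⟨s, t, b, b', hst, by simpa using hs, by simpa using ht, hne, h2, h4, h1, h3⟩
  have hE2 : ∃ g, E ⊆ {1, g} := by
    by_cases hb : ∃ b, b ∈ blk L s t ∧ Desc (x⁻¹ * m) b
    · obtain ⟨b, hb1, hb2⟩ := hb
      refine ⟨gen L b, ?_⟩
      rintro g (hg | ⟨b', h1, h2, rfl⟩)
      · exact Or.inl hg
      · right
        rw [huniq b' b h1 h2 hb1 hb2]; rfl
    · refine ⟨1, ?_⟩
      rintro g (hg | ⟨b', h1, h2, rfl⟩)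
      · exact Or.inl hg
      · exact absurd ⟨b', h1, h2⟩ hb
  obtain ⟨g, hg⟩ := hE2
  have hEf : E.Finite := (Set.toFinite ({1, g} : Set (Rac L))).subset hg
  have hEc : E.ncard ≤ 2 := by
    refine (Set.ncard_le_ncard hg (Set.toFinite _)).trans ?_
    have h1 := Set.ncard_insert_le (1 : Rac L) {g}
    rw [Set.ncard_singleton] at h1
    exact h1
  have hsub : Tp L J n x p ⊆ (fun q : Rac L × Rac L => m * q.1 * q.2) '' (A ×ˢ E) := by
    rintro m' ⟨⟨hmQ', hth'⟩, s', t', hst', hs', ht', w1', w2'⟩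
    obtain ⟨es, et, l, l', r1, r2, he, ha, hb, q1, q2, hlast⟩ :=
      shared_walls hmQ.1 hmQ'.1 hs ht hs' ht' (w1.trans w1'.symm) (w2.trans w2'.symm)
    have k1 := thin_short hD hth hst hs ht r2 hb q1
    have k2 := thin_short hD hth' hst' hs' ht' r1 (by rw [← es, ← et]; exact ha) q2
    refine ⟨((wp L l)⁻¹, wp L l'), ⟨?_, ?_⟩, he⟩
    · rcases k2 with rfl | ⟨a, rfl, -, -⟩
      · left; simp
      · right
        exact ⟨a, hlast [] a rfl, by rw [wp_singleton, gen_inv]⟩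
    · rcases k1 with rfl | ⟨b, rfl, h1, h2⟩
      · left; simp
      · right
        exact ⟨b, h1, h2, by rw [wp_singleton]⟩
  calc (Tp L J n x p).ncard ≤ ((fun q : Rac L × Rac L => m * q.1 * q.2) '' (A ×ˢ E)).ncard :=
        Set.ncard_le_ncard hsub ((hAf.prod hEf).image _)
    _ ≤ (A ×ˢ E).ncard := Set.ncard_image_le (hAf.prod hEf)
    _ = A.ncard * E.ncard := Set.ncard_prod
    _ ≤ _ := Nat.mul_le_mul hAc hEc

theorem ncard_Th (hD : DiamondFree L) {J : Set V} {κ : ℕ} (hκ : CliqueBound L J κ) (n : ℕ)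
    (x : Rac L) : (Th L J n x).Finite ∧ (Th L J n x).ncard ≤
      (1 + n * κ) + (1 + n * κ) * (1 + n * κ) * ((n + 1) * 2) := by
  classical
  obtain ⟨hWf, hWc⟩ := ncard_Ws hκ n x
  have hfin : (Th L J n x).Finite := (finite_Qs J n x).subset (fun _ h => h.1)
  refine ⟨hfin, ?_⟩
  set W := hWf.toFinset with hW
  have hsub : hfin.toFinset ⊆ (finite_SDs (L := L) J n x).toFinset ∪
      (W ×ˢ W).biUnion (fun p => (finite_Tp (L := L) J n x p).toFinset) := by
    intro m hm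
    rw [Set.Finite.mem_toFinset] at hm
    rw [Finset.mem_union]
    by_cases h : ∀ s t, Desc m s → Desc m t → s = t
    · left
      rw [Set.Finite.mem_toFinset]
      exact ⟨hm.1, h⟩
    · right
      push Not at h
      obtain ⟨s, t, hs, ht, hst⟩ := h
      rw [Finset.mem_biUnion]
      refine ⟨(m * gen L s * m⁻¹, m * gen L t * m⁻¹), ?_, ?_⟩
      · rw [Finset.mem_product, hW, Set.Finite.mem_toFinset, Set.Finite.mem_toFinset]
        exact ⟨⟨m, hm.1, desc_iff_sg.mp hs⟩, ⟨m, hm.1, desc_iff_sg.mp ht⟩⟩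
      · rw [Set.Finite.mem_toFinset]
        exact ⟨hm, s, t, hst, hs, ht, rfl, rfl⟩
  rw [Set.ncard_eq_toFinset_card _ hfin]
  refine (Finset.card_le_card hsub).trans ((Finset.card_union_le _ _).trans ?_)
  apply Nat.add_le_add
  · rw [← Set.ncard_eq_toFinset_card _ (finite_SDs (L := L) J n x)]
    exact ncard_SDs hκ n x
  · refine Finset.card_biUnion_le.trans ?_
    have h1 : ∀ p ∈ W ×ˢ W, ((finite_Tp (L := L) J n x p).toFinset).card
        ≤ (n + 1) * 2 := by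
      intro p _
      rw [← Set.ncard_eq_toFinset_card _ (finite_Tp (L := L) J n x p)]
      exact ncard_Tp hD n x p
    refine (Finset.sum_le_card_nsmul _ _ _ h1).trans ?_
    rw [smul_eq_mul, Finset.card_product]
    apply Nat.mul_le_mul_right
    have h2 : W.card ≤ 1 + n * κ := by
      rw [hW, ← Set.ncard_eq_toFinset_card _ hWf]; exact hWc
    exact Nat.mul_le_mul h2 h2

/-- The polynomial bound. -/
def cbound (n κ : ℕ) : ℕ :=
  2 * ((1 + n * κ) + (1 + n * κ) * (1 + n * κ) * ((n + 1) * 2)) + (1 + n * κ) * (1 + n * κ)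

theorem ncard_CW (hD : DiamondFree L) {J : Set V} {κ : ℕ} (hκ : CliqueBound L J κ) (n : ℕ)
    (x : Rac L) : (CW L J n x).Finite ∧ (CW L J n x).ncard ≤ cbound n κ := by
  classical
  obtain ⟨hTf, hTc⟩ := ncard_Th hD hκ n x
  obtain ⟨hCf, hCc⟩ := ncard_C1 hκ n x
  -- the block seen from `x`
  let g : Rac L → Set (Rac L) := fun m =>
    if h : ∃ s t, s ≠ t ∧ Desc (x⁻¹ * m) s ∧ Desc (x⁻¹ * m) t then
      coset m (blk L h.choose h.choose_spec.choose) else ∅
  have blk_unique : ∀ (m : Rac L) (s t s' t' : V), s ≠ t → Desc (x⁻¹ * m) s → Desc (x⁻¹ * m) t →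
      s' ≠ t' → Desc (x⁻¹ * m) s' → Desc (x⁻¹ * m) t' → blk L s' t' = blk L s t := by
    intro m s t s' t' h1 h2 h3 h4 h5 h6
    have key : ∀ u, Desc (x⁻¹ * m) u → u ∈ blk L s t := by
      intro u hu
      constructor
      · by_cases e : u = s
        · exact Or.inl e
        · exact Or.inr (adj_of_desc hu h2 e)
      · by_cases e : u = t
        · exact Or.inl e
        · exact Or.inr (adj_of_desc hu h3 e)
    exact blk_eq hD (adj_of_desc h2 h3 h1) (key _ h5) (key _ h6) h4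
  have hsub : CW L J n x ⊆ ((fun m => ({m} : Set (Rac L))) '' Th L J n x ∪ C1 L J n x) ∪
      g '' Th L J n x := by
    rintro z ⟨m, hm, hz⟩
    rcases hz with ⟨h1, rfl⟩ | ⟨s, t, hst, hd, rfl⟩
    · left; left
      exact ⟨m, ⟨hm, h1⟩, rfl⟩
    · rcases hd with ⟨hs, ht⟩ | ⟨hs, ht⟩
      · left; right
        exact ⟨m, hm, s, t, hst, hs, ht, rfl⟩
      · by_cases hth : Thick 1 x m
        · left; right
          obtain ⟨s', t', u, v, a1, a2, a3, a4, a5, a6, a7, a8⟩ := hth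
          simp only [inv_one, one_mul] at a2 a3
          refine ⟨m, hm, s', t', a1, a2, a3, ?_⟩
          rw [← blk_eq hD (adj_of_desc a2 a3 a1) a7 a8 a4,
            blk_unique m s t u v hst hs ht a4 a5 a6]
        · right
          refine ⟨m, ⟨hm, hth⟩, ?_⟩
          have h : ∃ s t, s ≠ t ∧ Desc (x⁻¹ * m) s ∧ Desc (x⁻¹ * m) t := ⟨s, t, hst, hs, ht⟩
          simp only [g, dif_pos h]
          have h2 := h.choose_spec.choose_spec
          rw [blk_unique m s t _ _ hst hs ht h2.1 h2.2.1 h2.2.2]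
  have hfin : (((fun m => ({m} : Set (Rac L))) '' Th L J n x ∪ C1 L J n x) ∪
      g '' Th L J n x).Finite := ((hTf.image _).union hCf).union (hTf.image _)
  refine ⟨hfin.subset hsub, ?_⟩
  have h1 := Set.ncard_le_ncard hsub hfin
  have h2 := Set.ncard_union_le ((fun m => ({m} : Set (Rac L))) '' Th L J n x ∪ C1 L J n x)
    (g '' Th L J n x)
  have h3 := Set.ncard_union_le ((fun m => ({m} : Set (Rac L))) '' Th L J n x) (C1 L J n x)
  have h4 := Set.ncard_image_le (f := fun m => ({m} : Set (Rac L))) hTf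
  have h5 := Set.ncard_image_le (f := g) hTf
  unfold cbound
  omega

end Pool.Agent.RD54
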