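import Pool.Agent.LibRD54.Prefix

/-!
# Counting prefixes and centres
-/

set_option autoImplicit false

namespace Pool.Agent.RD54

variable {V : Type*} {L : SimpleGraph V}

/-- Prefixes of `x` of length at most `n` in the subgroup generated by `J`. -/
def Qs (L : SimpleGraph V) (J : Set V) (n : ℕ) (x : Rac L) : Set (Rac L) :=
  {m | Pre x m ∧ len m ≤ n ∧ m ∈ sub L J}

theorem Qs.of_pre {J : Set V} {n : ℕ} {x m k : Rac L} (h : m ∈ Qs L J n x) (h' : Pre m k) :
    k ∈ Qs L J n x := by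
  obtain ⟨h1, h2, h3⟩ := h
  refine ⟨h1.trans h', h'.len_le.trans h2, ?_⟩
  exact red_mem_sub h'.red (by rw [mul_inv_cancel_left]; exact h3)

theorem pre_mul_gen {m : Rac L} {s : V} (h : Desc m s) : Pre m (m * gen L s) := by
  unfold Pre
  rw [desc_iff] at h
  have e : (m * gen L s)⁻¹ * m = gen L s := by
    rw [mul_inv_rev, gen_inv, inv_mul_cancel_right]
  rw [e, len_gen]; omega

theorem finite_pre (x : Rac L) : {m | Pre x m}.Finite := by
  have h1 : ({r | sg x r = 1} : Set (Rac L)).Finite := (finite_walls x).1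
  have h2 : {t : Set (Rac L) | t ⊆ {r | sg x r = 1}}.Finite := h1.finite_subsets
  apply Set.Finite.of_finite_image (f := fun m => {r | sg m r = 1})
  · apply h2.subset
    rintro _ ⟨m, hm, rfl⟩
    intro r hr
    exact Pre.sg hm hr
  · intro m _ m' _ h
    apply eq_of_sg
    intro r
    have h3 : (sg m r = 1 ↔ sg m' r = 1) := by
      have := Set.ext_iff.mp h r
      exact this
    rcases sg_eq_zero_or_one m r with h4 | h4 <;> rcases sg_eq_zero_or_one m' r with h5 | h5
    · rw [h4, h5]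
    · rw [h3.mpr h5] at h4; exact absurd h4 one_ne_zero
    · rw [h3.mp h4] at h5; exact absurd h5 one_ne_zero
    · rw [h4, h5]

theorem finite_Qs (J : Set V) (n : ℕ) (x : Rac L) : (Qs L J n x).Finite :=
  (finite_pre x).subset (fun _ h => h.1)

/-- Prefixes with at most one descent. -/
def SDs (L : SimpleGraph V) (J : Set V) (n : ℕ) (x : Rac L) : Set (Rac L) :=
  {m | m ∈ Qs L J n x ∧ ∀ s t, Desc m s → Desc m t → s = t}

theorem finite_SDs (J : Set V) (n : ℕ) (x : Rac L) : (SDs L J n x).Finite :=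
  (finite_Qs J n x).subset (fun _ h => h.1)

/-- Data attached to two prefixes of `x`: their meet and the two complementary words. -/
theorem two_prefixes {x m m' : Rac L} (h : Pre x m) (h' : Pre x m') :
    ∃ (k : Rac L) (l l' : List V), IsMed 1 m m' k ∧ Pre m k ∧ Pre m' k ∧
      wp L l = k⁻¹ * m ∧ wp L l' = k⁻¹ * m' ∧ l.length = len (wp L l) ∧
      l'.length = len (wp L l') ∧ (∀ a ∈ l, ∀ b ∈ l', L.Adj a b) ∧
      Pre (m⁻¹ * x) (wp L l') ∧ Pre (m'⁻¹ * x) (wp L l) := by
  obtain ⟨k, hk⟩ := exists_med 1 m m'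
  have hk0 := hk
  obtain ⟨h1, h2, h3⟩ := hk
  have p1 : Pre m k := by unfold Pre; simpa using h1
  have p2 : Pre m' k := by unfold Pre; simpa using h2
  obtain ⟨l, hl, hl2⟩ := exists_reduced (k⁻¹ * m)
  obtain ⟨l', hl', hl2'⟩ := exists_reduced (k⁻¹ * m')
  have r1 : l.length = len (wp L l) := by rw [hl]; exact hl2
  have r2 : l'.length = len (wp L l') := by rw [hl']; exact hl2'
  have q1 : Pre (k⁻¹ * x) (wp L l) := by rw [hl]; exact h.shift p1
  have q2 : Pre (k⁻¹ * x) (wp L l') := by rw [hl']; exact h'.shift p2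
  have hred : len ((wp L l)⁻¹ * wp L l') = l.length + l'.length := by
    have e : (k⁻¹ * m)⁻¹ * (k⁻¹ * m') = m⁻¹ * m' := by group
    rw [hl, hl', e, h3, hl2, hl2', len_symm m k]
  have key : ∀ (m m' : Rac L) (l l' : List V), Pre x m → Pre x m' → wp L l = k⁻¹ * m →
      l.length = len (wp L l) → l'.length = len (wp L l') → Pre (k⁻¹ * x) (wp L l) →
      Pre (k⁻¹ * x) (wp L l') → len ((wp L l)⁻¹ * wp L l') = l.length + l'.length →
      (∀ a ∈ l, ∀ b ∈ l', L.Adj a b) ∧ Pre (m⁻¹ * x) (wp L l') := by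
    intro m m' l l' h h' hl r1 r2 q1 q2 hred
    obtain ⟨g1, g2, g3⟩ := grid2 l l' _ r1 r2 q1 q2 hred
    refine ⟨g1, ?_⟩
    have g4 : Pre (wp L l * wp L l') (wp L l) := by
      unfold Pre
      rw [inv_mul_cancel_left, g3, r1, r2]
    have g5 := g2.shift g4
    rw [inv_mul_cancel_left] at g5
    have e : (wp L l)⁻¹ * (k⁻¹ * x) = m⁻¹ * x := by rw [hl]; group
    rwa [e] at g5
  have hred' : len ((wp L l')⁻¹ * wp L l) = l'.length + l.length := by
    rw [len_symm, hred, add_comm]
  obtain ⟨g1, g2⟩ := key m m' l l' h h' hl r1 r2 q1 q2 hred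
  obtain ⟨-, g3⟩ := key m' m l' l h' h hl' r2 r1 q2 q1 hred'
  exact ⟨k, l, l', hk0, p1, p2, hl, hl', r1, r2, g1, g2, g3⟩

theorem last_desc {k m : Rac L} (hp : Pre m k) {l : List V} (hl : wp L l = k⁻¹ * m)
    (hr : l.length = len (wp L l)) {l0 : List V} {a : V} (he : l = l0 ++ [a]) : Desc m a := by
  have h1 : m = k * wp L l0 * gen L a := by
    have : k * wp L l = m := by rw [hl, mul_inv_cancel_left]
    rw [← this, he, wp_append, wp_singleton, mul_assoc]
  unfold Pre at hp
  rw [← hl, ← hr, he, List.length_append, List.length_singleton] at hp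
  unfold Desc
  have h2 : m * gen L a = k * wp L l0 := by rw [h1, mul_gen_cancel]
  rw [h2]
  have h3 := len_mul_le k (wp L l0)
  have h4 := len_wp_le (L := L) l0
  omega

/-- Single-descent prefixes of the same length have adjacent last letters. -/
theorem adj_last {x m m' : Rac L} (h : Pre x m) (h' : Pre x m') (hlen : len m = len m')
    (hne : m ≠ m') (hs : ∀ s t, Desc m s → Desc m t → s = t)
    (hs' : ∀ s t, Desc m' s → Desc m' t → s = t) {s s' : V} (hd : Desc m s) (hd' : Desc m' s') :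
    L.Adj s s' := by
  obtain ⟨k, l, l', hk, p1, p2, hl, hl', r1, r2, g1, -, -⟩ := two_prefixes h h'
  have e1 : k * wp L l = m := by rw [hl, mul_inv_cancel_left]
  have e2 : k * wp L l' = m' := by rw [hl', mul_inv_cancel_left]
  unfold Pre at p1 p2
  have n1 : l ≠ [] := by
    rintro rfl
    rw [wp_nil, mul_one] at e1
    rw [← e1] at hlen
    have h0 : len (k⁻¹ * m') = 0 := by omega
    rw [len_eq_zero] at h0
    apply hne
    rw [← e1]
    exact inv_mul_eq_one.mp h0
  have n2 : l' ≠ [] := by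
    rintro rfl
    rw [wp_nil, mul_one] at e2
    rw [← e2] at hlen
    have h0 : len (k⁻¹ * m) = 0 := by omega
    rw [len_eq_zero] at h0
    apply hne
    rw [← e2]
    exact (inv_mul_eq_one.mp h0).symm
  obtain ⟨l0, a, rfl⟩ := List.eq_nil_or_concat'  l |>.resolve_left n1
  obtain ⟨l0', a', rfl⟩ := List.eq_nil_or_concat' l' |>.resolve_left n2
  have d1 := last_desc p1 hl r1 rfl
  have d2 := last_desc p2 hl' r2 rfl
  rw [hs s a hd d1, hs' s' a' hd' d2]
  exact g1 a (by simp) a' (by simp)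

/-- Cliques inside `J` have at most `κ` elements. -/
def CliqueBound (L : SimpleGraph V) (J : Set V) (κ : ℕ) : Prop :=
  ∀ F : Finset V, (∀ x ∈ F, x ∈ J) → (∀ x ∈ F, ∀ y ∈ F, x ≠ y → L.Adj x y) → F.card ≤ κ

theorem ncard_SDs {J : Set V} {κ : ℕ} (hκ : CliqueBound L J κ) (n : ℕ) (x : Rac L) :
    (SDs L J n x).ncard ≤ 1 + n * κ := by
  classical
  set T := (finite_SDs (L := L) J n x).toFinset with hT
  have hcard : (SDs L J n x).ncard = T.card := Set.ncard_eq_toFinset_card _ _
  rw [hcard]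
  have hmaps : ∀ m ∈ T, len m ∈ Finset.range (n + 1) := by
    intro m hm
    rw [hT, Set.Finite.mem_toFinset] at hm
    have := hm.1.2.1
    rw [Finset.mem_range]; omega
  rw [Finset.card_eq_sum_card_fiberwise hmaps, Finset.sum_range_succ']
  have h0 : (T.filter (fun m => len m = 0)).card ≤ 1 := by
    rw [Finset.card_le_one]
    intro a ha b hb
    rw [Finset.mem_filter, len_eq_zero] at ha hb
    rw [ha.2, hb.2]
  have hj : ∀ j ∈ Finset.range n, (T.filter (fun m => len m = j + 1)).card ≤ κ := by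
    intro j _
    set F := T.filter (fun m => len m = j + 1) with hF
    have hex : ∀ m ∈ F, ∃ s, Desc m s := by
      intro m hm
      rw [hF, Finset.mem_filter] at hm
      apply exists_desc
      intro h
      rw [h, len_one] at hm
      omega
    rcases F.eq_empty_or_nonempty with hFe | ⟨m₀, hm₀⟩
    · rw [hFe, Finset.card_empty]; exact Nat.zero_le _
    have : Nonempty V := ⟨(hex m₀ hm₀).choose⟩
    choose! f hf using hex
    have hadj : ∀ m ∈ F, ∀ m' ∈ F, m ≠ m' → L.Adj (f m) (f m') := by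
      intro m hm m' hm' hne
      have hm0 := hm
      have hm0' := hm'
      rw [hF, Finset.mem_filter, hT, Set.Finite.mem_toFinset] at hm hm'
      exact adj_last hm.1.1.1 hm'.1.1.1 (by rw [hm.2, hm'.2]) hne hm.1.2 hm'.1.2
        (hf m hm0) (hf m' hm0')
    have hinj : Set.InjOn f F := by
      intro m hm m' hm' h
      by_contra hne
      exact (hadj m hm m' hm' hne).ne h
    rw [← Finset.card_image_of_injOn hinj]
    apply hκ
    · intro y hy
      rw [Finset.mem_image] at hy
      obtain ⟨m, hm, rfl⟩ := hy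
      have hd := hf m hm
      rw [hF, Finset.mem_filter, hT, Set.Finite.mem_toFinset] at hm
      exact (desc_mem_sub hm.1.1.2.2 hd).1
    · intro y hy y' hy' hne
      rw [Finset.mem_image] at hy hy'
      obtain ⟨m, hm, rfl⟩ := hy
      obtain ⟨m', hm', rfl⟩ := hy'
      exact hadj m hm m' hm' (fun h => hne (by rw [h]))
  have hsum := Finset.sum_le_card_nsmul (Finset.range n) _ κ hj
  rw [Finset.card_range, smul_eq_mul] at hsum
  omega

/-- Walls crossed by the prefixes in `Qs`. -/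
def Ws (L : SimpleGraph V) (J : Set V) (n : ℕ) (x : Rac L) : Set (Rac L) :=
  {r | ∃ m ∈ Qs L J n x, sg m r = 1}

theorem exists_min_prefix {J : Set V} {n : ℕ} {x r : Rac L} (hr : r ∈ Ws L J n x) :
    ∃ m ∈ SDs L J n x, ∃ s, Desc m s ∧ m * gen L s * m⁻¹ = r := by
  classical
  obtain ⟨m0, hm0, hm1⟩ := hr
  have hex : ∃ j, ∃ m ∈ Qs L J n x, sg m r = 1 ∧ len m = j := ⟨_, m0, hm0, hm1, rfl⟩
  obtain ⟨m, hm, hmr, hml⟩ := Nat.find_spec hex
  have hmin : ∀ m' ∈ Qs L J n x, sg m' r = 1 → len m ≤ len m' := by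
    intro m' h1 h2
    rw [hml]
    exact Nat.find_min' hex ⟨m', h1, h2, rfl⟩
  have key : ∀ s, Desc m s → m * gen L s * m⁻¹ = r := by
    intro s hs
    by_contra hne
    have h1 : sg (m * gen L s) r = 1 := by
      rw [sg_mul, hmr, sg_gen]
      have h2 : ¬ m⁻¹ * r * m = gen L s := by
        intro h
        apply hne
        rw [← h]; group
      simp [h2]
    have h2 := hmin _ (Qs.of_pre hm (pre_mul_gen hs)) h1
    unfold Desc at hs
    omega
  have hne : m ≠ 1 := by
    rintro rfl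
    rw [sg_one] at hmr
    exact zero_ne_one hmr
  obtain ⟨s, hs⟩ := exists_desc hne
  refine ⟨m, ⟨hm, ?_⟩, s, hs, key s hs⟩
  intro a b ha hb
  have h1 := (key a ha).trans (key b hb).symm
  apply gen_injective (L := L)
  have h2 : m⁻¹ * (m * gen L a * m⁻¹) * m = m⁻¹ * (m * gen L b * m⁻¹) * m := by rw [h1]
  have e : ∀ g : Rac L, m⁻¹ * (m * g * m⁻¹) * m = g := by intro g; group
  rwa [e, e] at h2

theorem ncard_Ws {J : Set V} {κ : ℕ} (hκ : CliqueBound L J κ) (n : ℕ) (x : Rac L) :
    (Ws L J n x).Finite ∧ (Ws L J n x).ncard ≤ 1 + n * κ := by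
  classical
  have hex : ∀ r ∈ Ws L J n x, ∃ m ∈ SDs L J n x, ∃ s, Desc m s ∧ m * gen L s * m⁻¹ = r :=
    fun r hr => exists_min_prefix hr
  choose! f hf1 hf2 using hex
  have hinj : Set.InjOn f (Ws L J n x) := by
    intro r hr r' hr' h
    obtain ⟨s, hs1, hs2⟩ := hf2 r hr
    obtain ⟨s', hs1', hs2'⟩ := hf2 r' hr'
    rw [← h] at hs1' hs2'
    have := (hf1 r hr).2 s s' hs1 hs1'
    rw [← hs2, ← hs2', this]
  have hmaps : ∀ r ∈ Ws L J n x, f r ∈ SDs L J n x := hf1
  refine ⟨?_, ?_⟩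
  · exact Set.Finite.of_finite_image ((finite_SDs J n x).subset (by rintro _ ⟨r, hr, rfl⟩; exact hmaps r hr)) hinj
  · exact (Set.ncard_le_ncard_of_injOn f hmaps hinj (finite_SDs J n x)).trans (ncard_SDs hκ n x)

end Pool.Agent.RD54
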