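import Pool.Agent.LibRD54.Exch

/-!
# Two descents of an element commute
-/

set_option autoImplicit false

namespace Pool.Agent.RD54

variable {V : Type*} {L : SimpleGraph V}

theorem walls_append (l l' : List V) :
    walls (L := L) (l ++ l') = walls l ++ (walls l').map (MulAut.conj (wp L l)) := by
  induction l with
  | nil => simp [walls_nil]
  | cons x l ih =>
    rw [List.cons_append, walls_cons, ih, walls_cons, List.map_append, List.map_map,
      List.cons_append, wp_cons, map_mul]
    rfl

/-- Key: from an element `g` of minimal length in its dihedral coset, alternating words add up. -/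
theorem len_mul_alt {a b : V} (hab : ¬ L.Adj a b) (hne : a ≠ b) (g : Rac L)
    (hmin : ∀ x ∈ Subgroup.closure ({gen L a, gen L b} : Set (Rac L)), len g ≤ len (g * x))
    (k : ℕ) : len (g * wp L (alt a b k)) = len g + k := by
  have hmem : ∀ (k : ℕ), wp L (alt a b k) ∈ Subgroup.closure ({gen L a, gen L b} : Set (Rac L)) ∧
      wp L (alt b a k) ∈ Subgroup.closure ({gen L a, gen L b} : Set (Rac L)) := by
    intro k
    have ha : gen L a ∈ Subgroup.closure ({gen L a, gen L b} : Set (Rac L)) :=
      Subgroup.subset_closure (by simp)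
    have hb : gen L b ∈ Subgroup.closure ({gen L a, gen L b} : Set (Rac L)) :=
      Subgroup.subset_closure (by simp)
    induction k with
    | zero => simp [alt]
    | succ k ih =>
      constructor
      · rw [alt, wp_cons]; exact Subgroup.mul_mem _ ha ih.2
      · rw [alt, wp_cons]; exact Subgroup.mul_mem _ hb ih.1
  induction k with
  | zero => simp [alt]
  | succ k ih =>
    set c := altLast a b k with hc
    have hlast : wp L (alt a b (k + 1)) = wp L (alt a b k) * gen L c := by
      rw [alt_succ', wp_append, wp_singleton]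
    rw [hlast, ← mul_assoc]
    by_contra hcon
    have hd : Desc (g * wp L (alt a b k)) c := by
      by_contra hnd
      rw [not_desc_iff] at hnd
      apply hcon
      rw [hnd, ih]; ring
    obtain ⟨l, hl, hl2⟩ := exists_reduced g
    have hred : (l ++ alt a b k).length = len (wp L (l ++ alt a b k)) := by
      rw [wp_append, hl, ih, List.length_append, hl2, length_alt]
    have hd' : Desc (wp L (l ++ alt a b k)) c := by rw [wp_append, hl]; exact hd
    rw [desc_iff_sg, sg_eq_one_iff_mem hred, walls_append, List.mem_append] at hd'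
    have hcm : gen L c ∈ Subgroup.closure ({gen L a, gen L b} : Set (Rac L)) := by
      have : c = a ∨ c = b := by
        rw [hc]; unfold altLast; split_ifs <;> simp
      rcases this with h | h <;> rw [h] <;> exact Subgroup.subset_closure (by simp)
    rcases hd' with h | h
    · -- the wall is crossed inside `g`
      have h1 : sg (wp L l) ((wp L (l ++ alt a b k)) * gen L c * (wp L (l ++ alt a b k))⁻¹) = 1 := by
        rw [sg_eq_one_iff_mem (by rw [hl]; exact hl2)]
        exact h
      rw [← len_lt_iff_sg (isRefl_conj_gen _ _)] at h1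
      rw [wp_append, hl] at h1
      have h2 : g * wp L (alt a b k) * gen L c * (g * wp L (alt a b k))⁻¹ * g
          = g * (wp L (alt a b k) * gen L c * (wp L (alt a b k))⁻¹) := by group
      rw [h2] at h1
      have h3 := hmin (wp L (alt a b k) * gen L c * (wp L (alt a b k))⁻¹)
        (Subgroup.mul_mem _ (Subgroup.mul_mem _ (hmem k).1 hcm)
          (Subgroup.inv_mem _ (hmem k).1))
      omega
    · rw [List.mem_map] at h
      obtain ⟨t, ht1, ht2⟩ := h
      have ht3 : t = wp L (alt a b k) * gen L c * (wp L (alt a b k))⁻¹ := by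
        rw [MulAut.conj_apply, wp_append] at ht2
        have : t = (wp L l)⁻¹ * (wp L l * t * (wp L l)⁻¹) * wp L l := by group
        rw [this, ht2]; group
      have h1 : sg (wp L (alt a b k)) t = 1 := by
        rw [sg_eq_one_iff_mem (by rw [length_alt, len_alt hab hne])]
        exact ht1
      rw [ht3, ← len_lt_iff_sg (isRefl_conj_gen _ _)] at h1
      have h2 : wp L (alt a b k) * gen L c * (wp L (alt a b k))⁻¹ * wp L (alt a b k)
          = wp L (alt a b (k + 1)) := by rw [hlast]; group
      rw [h2, len_alt hab hne, len_alt hab hne] at h1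
      omega

theorem mem_dihedral {a b : V} (x : Rac L)
    (hx : x ∈ Subgroup.closure ({gen L a, gen L b} : Set (Rac L))) :
    ∃ k, x = wp L (alt a b k) ∨ x = wp L (alt b a k) := by
  have step : ∀ x : Rac L, (x = gen L a ∨ x = gen L b) → ∀ y : Rac L,
      (∃ k, y = wp L (alt a b k) ∨ y = wp L (alt b a k)) →
      (∃ k, x * y = wp L (alt a b k) ∨ x * y = wp L (alt b a k)) := by
    intro x hx y hy
    obtain ⟨k, hk⟩ := hy
    rcases hx with rfl | rfl
    · rcases hk with rfl | rfl
      · cases k with
        | zero => exact ⟨1, Or.inl (by simp [alt])⟩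
        | succ k => exact ⟨k, Or.inr (by rw [alt, wp_cons, gen_mul_gen_cancel])⟩
      · exact ⟨k + 1, Or.inl (by rw [alt, wp_cons])⟩
    · rcases hk with rfl | rfl
      · exact ⟨k + 1, Or.inr (by rw [alt, wp_cons])⟩
      · cases k with
        | zero => exact ⟨1, Or.inr (by simp [alt])⟩
        | succ k => exact ⟨k, Or.inl (by rw [alt, wp_cons, gen_mul_gen_cancel])⟩
  have key : ∀ x ∈ Subgroup.closure ({gen L a, gen L b} : Set (Rac L)), ∀ y : Rac L,
      (∃ k, y = wp L (alt a b k) ∨ y = wp L (alt b a k)) →
      (∃ k, x * y = wp L (alt a b k) ∨ x * y = wp L (alt b a k)) ∧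
      (∃ k, x⁻¹ * y = wp L (alt a b k) ∨ x⁻¹ * y = wp L (alt b a k)) := by
    intro x hx
    induction hx using Subgroup.closure_induction with
    | mem x hx =>
      intro y hy
      have hx' : x = gen L a ∨ x = gen L b := by simpa using hx
      refine ⟨step x hx' y hy, step x⁻¹ ?_ y hy⟩
      rcases hx' with rfl | rfl
      · exact Or.inl (gen_inv a)
      · exact Or.inr (gen_inv b)
    | one => intro y hy; simpa using hy
    | mul x x' _ _ ih ih' =>
      intro y hy
      constructor
      · rw [mul_assoc]; exact (ih _ (ih' _ hy).1).1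
      · rw [mul_inv_rev, mul_assoc]; exact (ih' _ (ih _ hy).2).2
    | inv x _ ih =>
      intro y hy
      refine ⟨(ih y hy).2, ?_⟩
      rw [inv_inv]; exact (ih y hy).1
  have := (key x hx 1 ⟨0, Or.inl (by simp [alt])⟩).1
  simpa using this

/-- Two distinct right descents are adjacent. -/
theorem adj_of_desc {w : Rac L} {a b : V} (ha : Desc w a) (hb : Desc w b) (hne : a ≠ b) :
    L.Adj a b := by
  by_contra hab
  set D := Subgroup.closure ({gen L a, gen L b} : Set (Rac L)) with hD
  have hex : ∃ n, ∃ x ∈ D, len (w * x) = n := ⟨_, 1, Subgroup.one_mem _, rfl⟩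
  classical
  obtain ⟨x, hx, hxn⟩ := Nat.find_spec hex
  set g := w * x with hg
  have hmin : ∀ y ∈ D, len g ≤ len (g * y) := by
    intro y hy
    rw [hxn]
    apply Nat.find_min' hex
    exact ⟨x * y, Subgroup.mul_mem _ hx hy, by rw [hg, mul_assoc]⟩
  have hmin' : ∀ y ∈ Subgroup.closure ({gen L b, gen L a} : Set (Rac L)), len g ≤ len (g * y) := by
    intro y hy
    apply hmin
    rw [hD, Set.pair_comm]; exact hy
  have hab' : ¬ L.Adj b a := fun h => hab h.symm
  have hw : w = g * x⁻¹ := by rw [hg]; group
  obtain ⟨k, hk⟩ := mem_dihedral x⁻¹ (Subgroup.inv_mem _ hx)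
  rcases hk with hk | hk
  · -- `w = g * alt a b k`
    have h1 := len_mul_alt hab hne g hmin k
    have h2 := len_mul_alt hab hne g hmin (k + 1)
    rw [alt_succ', wp_append, wp_singleton, ← mul_assoc, ← hk, ← hw] at h2
    rw [← hk, ← hw] at h1
    have h3 : Desc w (altLast a b k) := by unfold altLast; split_ifs <;> assumption
    unfold Desc at h3
    omega
  · have h1 := len_mul_alt hab' hne.symm g hmin' k
    have h2 := len_mul_alt hab' hne.symm g hmin' (k + 1)
    rw [alt_succ', wp_append, wp_singleton, ← mul_assoc, ← hk, ← hw] at h2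
    rw [← hk, ← hw] at h1
    have h3 : Desc w (altLast b a k) := by unfold altLast; split_ifs <;> assumption
    unfold Desc at h3
    omega

/-- Removing one descent keeps the other, with the same wall. -/
theorem desc_mul_gen {w : Rac L} {a b : V} (ha : Desc w a) (hb : Desc w b) (hne : a ≠ b) :
    Desc (w * gen L b) a ∧
      (w * gen L b) * gen L a * (w * gen L b)⁻¹ = w * gen L a * w⁻¹ := by
  have hadj := adj_of_desc ha hb hne
  have hc := gen_comm hadj
  have hwall : (w * gen L b) * gen L a * (w * gen L b)⁻¹ = w * gen L a * w⁻¹ := by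
    rw [mul_inv_rev, gen_inv]
    calc w * gen L b * gen L a * (gen L b * w⁻¹)
        = w * (gen L b * gen L a) * gen L b * w⁻¹ := by group
      _ = w * (gen L a * gen L b) * gen L b * w⁻¹ := by rw [hc]
      _ = w * gen L a * (gen L b * gen L b) * w⁻¹ := by group
      _ = w * gen L a * w⁻¹ := by rw [gen_mul_self, mul_one]
  refine ⟨?_, hwall⟩
  classical
  rw [desc_iff_sg, hwall, sg_mul]
  rw [desc_iff_sg] at ha
  rw [ha, sg_gen]
  have h1 : w⁻¹ * (w * gen L a * w⁻¹) * w = gen L a := by group
  rw [h1]
  have h2 : ¬ gen L a = gen L b := fun h => hne (gen_injective h)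
  simp [h2]

end Pool.Agent.RD54
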