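import Pool.Agent.LibRD54.Centre

/-!
# Equivariance of the centre sets under graph automorphisms
-/

set_option autoImplicit false

namespace Pool.Agent.RD54

variable {V : Type*} {L : SimpleGraph V} {A : Type*} [Group A] [MulAction A V]

theorem acts_adj_iff (h : ∀ (a : A) (x y : V), L.Adj x y → L.Adj (a • x) (a • y)) (a : A) (x y : V) : L.Adj (a • x) (a • y) ↔ L.Adj x y := by
  constructor
  · intro hh
    have := h a⁻¹ _ _ hh
    rwa [inv_smul_smul, inv_smul_smul] at this
  · exact h a x y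

theorem racAct_inv_apply (h : ∀ (a : A) (x y : V), L.Adj x y → L.Adj (a • x) (a • y)) (a : A) (w : Rac L) :
    racAct L h a⁻¹ (racAct L h a w) = w := by
  rw [map_inv]; exact MulAut.inv_apply_self _ (racAct L h a) w

theorem racAct_apply_inv (h : ∀ (a : A) (x y : V), L.Adj x y → L.Adj (a • x) (a • y)) (a : A) (w : Rac L) :
    racAct L h a (racAct L h a⁻¹ w) = w := by
  rw [map_inv]; exact MulAut.apply_inv_self _ (racAct L h a) w

theorem desc_racAct (h : ∀ (a : A) (x y : V), L.Adj x y → L.Adj (a • x) (a • y)) (a : A) {w : Rac L} {s : V} :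
    Desc (racAct L h a w) (a • s) ↔ Desc w s := by
  unfold Desc
  rw [← racAct_gen h a s, ← map_mul, len_racAct, len_racAct]

theorem desc_racAct' (h : ∀ (a : A) (x y : V), L.Adj x y → L.Adj (a • x) (a • y)) (a : A) {w : Rac L} {s : V} :
    Desc (racAct L h a w) s ↔ Desc w (a⁻¹ • s) := by
  rw [← desc_racAct h a (w := w) (s := a⁻¹ • s), smul_inv_smul]

theorem pre_racAct (h : ∀ (a : A) (x y : V), L.Adj x y → L.Adj (a • x) (a • y)) (a : A) {x m : Rac L} :
    Pre (racAct L h a x) (racAct L h a m) ↔ Pre x m := by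
  unfold Pre
  rw [← map_inv, ← map_mul, len_racAct, len_racAct, len_racAct]

theorem racAct_mem_sub (h : ∀ (a : A) (x y : V), L.Adj x y → L.Adj (a • x) (a • y)) (a : A) {J : Set V} {w : Rac L} (hw : w ∈ sub L J) :
    racAct L h a w ∈ sub L ((fun x => a • x) '' J) := by
  obtain ⟨l, hl, rfl⟩ := exists_wp_of_mem_sub hw
  rw [racAct_wp]
  apply wp_mem_sub
  intro b hb
  rw [List.mem_map] at hb
  obtain ⟨c, hc, rfl⟩ := hb
  exact ⟨c, hl c hc, rfl⟩

theorem racAct_mem_sub_iff (h : ∀ (a : A) (x y : V), L.Adj x y → L.Adj (a • x) (a • y)) (a : A) {J : Set V} {w : Rac L} :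
    racAct L h a w ∈ sub L ((fun x => a • x) '' J) ↔ w ∈ sub L J := by
  constructor
  · intro hw
    have := racAct_mem_sub h a⁻¹ hw
    rw [racAct_inv_apply, Set.image_image] at this
    simpa using this
  · exact racAct_mem_sub h a

theorem blk_smul (h : ∀ (a : A) (x y : V), L.Adj x y → L.Adj (a • x) (a • y)) (a : A) (s t : V) :
    blk L (a • s) (a • t) = (fun x => a • x) '' blk L s t := by
  ext u
  constructor
  · intro hu
    refine ⟨a⁻¹ • u, ?_, by simp⟩
    obtain ⟨h1, h2⟩ := hu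
    refine ⟨?_, ?_⟩
    · rcases h1 with rfl | h1
      · left; simp
      · right
        rw [← acts_adj_iff h a, smul_inv_smul]; exact h1
    · rcases h2 with rfl | h2
      · left; simp
      · right
        rw [← acts_adj_iff h a, smul_inv_smul]; exact h2
  · rintro ⟨v, ⟨h1, h2⟩, rfl⟩
    refine ⟨?_, ?_⟩
    · rcases h1 with rfl | h1
      · left; rfl
      · right
        exact h a _ _ h1
    · rcases h2 with rfl | h2
      · left; rfl
      · right
        exact h a _ _ h2

theorem image_racAct_coset (h : ∀ (a : A) (x y : V), L.Adj x y → L.Adj (a • x) (a • y)) (a : A) (m : Rac L) (S : Set V) :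
    (fun w => racAct L h a w) '' coset m S =
      coset (racAct L h a m) ((fun x => a • x) '' S) := by
  ext w
  simp only [Set.mem_image, coset, Set.mem_ofPred_eq]
  constructor
  · rintro ⟨v, hv, rfl⟩
    rw [← map_inv, ← map_mul]
    exact racAct_mem_sub h a hv
  · intro hw
    refine ⟨racAct L h a⁻¹ w, ?_, racAct_apply_inv h a w⟩
    rw [← racAct_mem_sub_iff h a, map_mul, map_inv, racAct_apply_inv]
    exact hw

theorem thick_racAct (h : ∀ (a : A) (x y : V), L.Adj x y → L.Adj (a • x) (a • y)) (a : A) {p q m : Rac L} (ht : Thick p q m) :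
    Thick (racAct L h a p) (racAct L h a q) (racAct L h a m) := by
  obtain ⟨s, t, u, v, h1, h2, h3, h4, h5, h6, h7, h8⟩ := ht
  refine ⟨a • s, a • t, a • u, a • v, ?_, ?_, ?_, ?_, ?_, ?_, ?_, ?_⟩
  · intro e; exact h1 (MulAction.injective a e)
  · rw [← map_inv, ← map_mul, desc_racAct]; exact h2
  · rw [← map_inv, ← map_mul, desc_racAct]; exact h3
  · intro e; exact h4 (MulAction.injective a e)
  · rw [← map_inv, ← map_mul, desc_racAct]; exact h5
  · rw [← map_inv, ← map_mul, desc_racAct]; exact h6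
  · rw [blk_smul h]; exact ⟨u, h7, rfl⟩
  · rw [blk_smul h]; exact ⟨v, h8, rfl⟩

theorem thick_racAct_iff (h : ∀ (a : A) (x y : V), L.Adj x y → L.Adj (a • x) (a • y)) (a : A) {p q m : Rac L} :
    Thick (racAct L h a p) (racAct L h a q) (racAct L h a m) ↔ Thick p q m := by
  constructor
  · intro ht
    have := thick_racAct h a⁻¹ ht
    simpa only [racAct_inv_apply] using this
  · exact thick_racAct h a

theorem Qs_racAct (h : ∀ (a : A) (x y : V), L.Adj x y → L.Adj (a • x) (a • y)) (a : A) {J : Set V} {n : ℕ} {x m : Rac L}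
    (hm : m ∈ Qs L J n x) :
    racAct L h a m ∈ Qs L ((fun x => a • x) '' J) n (racAct L h a x) := by
  obtain ⟨h1, h2, h3⟩ := hm
  exact ⟨(pre_racAct h a).mpr h1, by rw [len_racAct]; exact h2, racAct_mem_sub h a h3⟩

/-- The centre sets are equivariant. -/
theorem CW_racAct (h : ∀ (a : A) (x y : V), L.Adj x y → L.Adj (a • x) (a • y)) (a : A) {J : Set V} {n : ℕ} {x : Rac L}
    {z : Set (Rac L)} (hz : z ∈ CW L J n x) :
    (fun w => racAct L h a w) '' z ∈ CW L ((fun x => a • x) '' J) n (racAct L h a x) := by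
  obtain ⟨m, hm, hz⟩ := hz
  refine ⟨racAct L h a m, Qs_racAct h a hm, ?_⟩
  rcases hz with ⟨ht, rfl⟩ | ⟨s, t, hst, hd, rfl⟩
  · left
    refine ⟨?_, by simp⟩
    have := thick_racAct_iff h a (p := 1) (q := x) (m := m)
    rw [map_one] at this
    rwa [this]
  · right
    refine ⟨a • s, a • t, fun e => hst (MulAction.injective a e), ?_, ?_⟩
    · rcases hd with ⟨h1, h2⟩ | ⟨h1, h2⟩
      · left
        exact ⟨(desc_racAct h a).mpr h1, (desc_racAct h a).mpr h2⟩
      · right
        rw [← map_inv, ← map_mul]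
        exact ⟨(desc_racAct h a).mpr h1, (desc_racAct h a).mpr h2⟩
    · rw [image_racAct_coset, blk_smul h]

theorem Qs_mono {J K : Set V} (h : J ⊆ K) {n : ℕ} {x : Rac L} : Qs L J n x ⊆ Qs L K n x := by
  rintro m ⟨h1, h2, h3⟩
  exact ⟨h1, h2, sub_mono h h3⟩

theorem CW_mono {J K : Set V} (h : J ⊆ K) {n : ℕ} {x : Rac L} : CW L J n x ⊆ CW L K n x := by
  rintro z ⟨m, hm, hz⟩
  exact ⟨m, Qs_mono h hm, hz⟩

/-! ### Description of centres -/

theorem CW_cases {J : Set V} {n : ℕ} {x : Rac L} {z : Set (Rac L)} (hz : z ∈ CW L J n x) :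
    (∃ m, z = {m}) ∨ ∃ m s t, L.Adj s t ∧ z = coset m (blk L s t) := by
  obtain ⟨m, -, hz⟩ := hz
  rcases hz with ⟨-, rfl⟩ | ⟨s, t, hst, hd, rfl⟩
  · exact Or.inl ⟨m, rfl⟩
  · right
    rcases hd with ⟨h1, h2⟩ | ⟨h1, h2⟩
    · exact ⟨m, s, t, adj_of_desc h1 h2 hst, rfl⟩
    · exact ⟨m, s, t, adj_of_desc h1 h2 hst, rfl⟩

theorem mem_coset_self (m : Rac L) (S : Set V) : m ∈ coset m S := by
  change m⁻¹ * m ∈ sub L S
  rw [inv_mul_cancel]; exact Subgroup.one_mem _

theorem sub_injective {S T : Set V} (h : sub L S = sub L T) : S = T := by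
  ext x
  constructor
  · intro hx
    have := gen_mem_sub (L := L) hx
    rw [h] at this
    exact mem_of_gen_mem_sub this
  · intro hx
    have := gen_mem_sub (L := L) hx
    rw [← h] at this
    exact mem_of_gen_mem_sub this

theorem coset_inj {m m' : Rac L} {S S' : Set V} (h : coset m S = coset m' S') :
    S = S' ∧ m⁻¹ * m' ∈ sub L S := by
  have h1 : m⁻¹ * m' ∈ sub L S := by
    have := mem_coset_self m' S'
    rw [← h] at this
    exact this
  refine ⟨?_, h1⟩
  rw [coset_eq h1] at h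
  apply sub_injective (L := L)
  ext w
  have e : ∀ T : Set V, w ∈ sub L T ↔ m' * w ∈ coset m' T := by
    intro T
    change _ ↔ m'⁻¹ * (m' * w) ∈ sub L T
    rw [inv_mul_cancel_left]
  rw [e S, e S', h]

theorem finite_sub {S : Set V} (hS : S.Finite) (hc : ∀ x ∈ S, ∀ y ∈ S, x ≠ y → L.Adj x y) :
    (sub L S : Set (Rac L)).Finite ∧ (sub L S : Set (Rac L)).ncard ≤ 2 ^ S.ncard := by
  classical
  induction S, hS using Set.Finite.induction_on with
  | empty =>
    have : (sub L (∅ : Set V) : Set (Rac L)) = {1} := by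
      ext w
      simp [sub]
    rw [this]
    simp
  | @insert a S ha hS ih =>
    obtain ⟨h1, h2⟩ := ih (fun x hx y hy => hc x (Or.inr hx) y (Or.inr hy))
    have key : (sub L (insert a S) : Set (Rac L)) ⊆
        (sub L S : Set (Rac L)) ∪ (fun w => gen L a * w) '' (sub L S : Set (Rac L)) := by
      intro w hw
      obtain ⟨l, hl, rfl⟩ := exists_wp_of_mem_sub hw
      clear hw
      have comm : ∀ w ∈ sub L S, gen L a * w = w * gen L a := by
        intro w hw
        obtain ⟨l, hl, rfl⟩ := exists_wp_of_mem_sub hw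
        exact (wp_comm (fun b hb => hc b (Or.inr (hl b hb)) a (Or.inl rfl)
          (fun e => ha (e ▸ hl b hb)))).symm
      induction l with
      | nil => left; simp
      | cons b l ih =>
        have ih' := ih (fun c hc => hl c (by simp [hc]))
        rw [wp_cons]
        rcases hl b (by simp) with rfl | hb
        · rcases ih' with h | ⟨v, hv, hv2⟩
          · right; exact ⟨_, h, rfl⟩
          · left
            simp only at hv2
            rw [← hv2, gen_mul_gen_cancel]; exact hv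
        · rcases ih' with h | ⟨v, hv, hv2⟩
          · left; exact Subgroup.mul_mem _ (gen_mem_sub hb) h
          · right
            simp only at hv2
            refine ⟨gen L b * v, Subgroup.mul_mem _ (gen_mem_sub hb) hv, ?_⟩
            simp only
            rw [← hv2, ← mul_assoc, comm _ (gen_mem_sub hb), mul_assoc]
    have hf : ((sub L S : Set (Rac L)) ∪
        (fun w => gen L a * w) '' (sub L S : Set (Rac L))).Finite := h1.union (h1.image _)
    refine ⟨hf.subset key, ?_⟩
    have e1 := Set.ncard_le_ncard key hf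
    have e2 := Set.ncard_union_le (sub L S : Set (Rac L))
      ((fun w => gen L a * w) '' (sub L S : Set (Rac L)))
    have e3 := Set.ncard_image_le (f := fun w => gen L a * w) h1
    rw [Set.ncard_insert_of_notMem ha hS, pow_succ]
    omega

/-- Blocks are cliques. -/
theorem blk_pairwise (hD : DiamondFree L) {s t : V} (h : L.Adj s t) :
    ∀ x ∈ blk L s t, ∀ y ∈ blk L s t, x ≠ y → L.Adj x y :=
  fun _ hx _ hy hne => blk_clique hD h hx hy hne

/-- The translation stabiliser, twisted by a symmetry, of a coset of a standard subgroup. -/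
theorem twisted_stab (h : ∀ (a : A) (x y : V), L.Adj x y → L.Adj (a • x) (a • y)) (a : A) (m g : Rac L) (S : Set V)
    (he : (fun w => g * racAct L h a w) '' coset m S = coset m S) :
    (fun x => a • x) '' S = S ∧ g ∈ (fun w => m * w * (racAct L h a m)⁻¹) '' (sub L S : Set (Rac L)) := by
  have e1 : (fun w => g * racAct L h a w) '' coset m S =
      coset (g * racAct L h a m) ((fun x => a • x) '' S) := by
    rw [← image_coset, ← image_racAct_coset h, Set.image_image]
  rw [e1] at he
  obtain ⟨h1, h2⟩ := coset_inj he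
  refine ⟨h1, ?_⟩
  rw [h1] at h2
  refine ⟨((g * racAct L h a m)⁻¹ * m)⁻¹, Subgroup.inv_mem _ h2, ?_⟩
  simp only
  group

theorem cbound_le (n κ : ℕ) : cbound n κ ≤ 7 * (n + 1) ^ 3 * (κ + 1) ^ 2 := by
  unfold cbound
  have h1 : 1 + n * κ ≤ (n + 1) * (κ + 1) := by nlinarith
  have h2 : (1 + n * κ) * (1 + n * κ) ≤ ((n + 1) * (κ + 1)) * ((n + 1) * (κ + 1)) :=
    Nat.mul_le_mul h1 h1
  have h3 : (1 + n * κ) * (1 + n * κ) * ((n + 1) * 2) ≤
      ((n + 1) * (κ + 1)) * ((n + 1) * (κ + 1)) * ((n + 1) * 2) := Nat.mul_le_mul_right _ h2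
  have h4 : (n + 1) * (κ + 1) ≤ (n + 1) ^ 3 * (κ + 1) ^ 2 := by
    apply Nat.mul_le_mul
    · exact Nat.le_self_pow (by norm_num) _
    · exact Nat.le_self_pow (by norm_num) _
  have h5 : ((n + 1) * (κ + 1)) * ((n + 1) * (κ + 1)) ≤ (n + 1) ^ 3 * (κ + 1) ^ 2 := by
    have : ((n + 1) * (κ + 1)) * ((n + 1) * (κ + 1)) = (n + 1) ^ 2 * (κ + 1) ^ 2 := by ring
    rw [this]
    apply Nat.mul_le_mul_right
    exact Nat.pow_le_pow_right (by omega) (by norm_num)
  have h6 : ((n + 1) * (κ + 1)) * ((n + 1) * (κ + 1)) * ((n + 1) * 2) =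
      2 * ((n + 1) ^ 3 * (κ + 1) ^ 2) := by ring
  have h7 : 7 * (n + 1) ^ 3 * (κ + 1) ^ 2 = 7 * ((n + 1) ^ 3 * (κ + 1) ^ 2) := by ring
  rw [h7]
  omega

end Pool.Agent.RD54
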