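import Pool.Agent.LibRD54.Rac

/-!
# Exchange property, commuting descents
-/

set_option autoImplicit false

namespace Pool.Agent.RD54

variable {V : Type*} {L : SimpleGraph V}

/-- Reflections. -/
def IsRefl (t : Rac L) : Prop := ∃ (w : Rac L) (x : V), t = w * gen L x * w⁻¹

theorem isRefl_conj_gen (w : Rac L) (x : V) : IsRefl (w * gen L x * w⁻¹) := ⟨w, x, rfl⟩

theorem IsRefl.mul_self {t : Rac L} (h : IsRefl t) : t * t = 1 := by
  obtain ⟨w, x, rfl⟩ := h
  have : w * gen L x * w⁻¹ * (w * gen L x * w⁻¹) = w * (gen L x * gen L x) * w⁻¹ := by group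
  rw [this, gen_mul_self, mul_one, mul_inv_cancel]

/-- The list of walls crossed by a word. -/
noncomputable def walls (l : List V) : List (Rac L) := (csy L).leftInvSeq l

theorem walls_nil : walls (L := L) [] = [] := rfl

theorem walls_cons (x : V) (l : List V) :
    walls (L := L) (x :: l) = gen L x :: (walls l).map (MulAut.conj (gen L x)) := rfl

theorem length_walls (l : List V) : (walls (L := L) l).length = l.length :=
  (csy L).length_leftInvSeq l

open Classical in
theorem sg_wp (l : List V) (r : Rac L) : sg (wp L l) r = ((walls l).count r : ℕ) := by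
  induction l generalizing r with
  | nil => simp [walls_nil, sg_one]
  | cons x l ih =>
    rw [wp_cons, sg_mul, ih, sg_gen, walls_cons, List.count_cons]
    have h1 : ((walls l).map (MulAut.conj (gen L x))).count r
        = (walls l).count ((gen L x)⁻¹ * r * gen L x) := by
      have h2 : r = MulAut.conj (gen L x) ((gen L x)⁻¹ * r * gen L x) := by
        simp [MulAut.conj_apply, mul_assoc]
      conv_lhs => rw [h2]
      exact List.count_map_of_injective _ _ (MulEquiv.injective _) _
    rw [h1]
    by_cases h : gen L x = r
    · subst h; simp [add_comm]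
    · have h' : ¬ r = gen L x := fun e => h e.symm
      simp [h, h']

theorem nodup_walls {l : List V} (h : l.length = len (wp L l)) : (walls (L := L) l).Nodup :=
  CoxeterSystem.IsReduced.nodup_leftInvSeq (cs := csy L) (ω := l) h.symm

theorem sg_eq_one_iff_mem {l : List V} (h : l.length = len (wp L l)) (r : Rac L) :
    sg (wp L l) r = 1 ↔ r ∈ walls (L := L) l := by
  classical
  rw [sg_wp]
  constructor
  · intro h1
    by_contra h2
    rw [List.count_eq_zero_of_not_mem h2] at h1
    simp at h1
  · intro h1
    rw [List.count_eq_one_of_mem (nodup_walls h) h1]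
    simp

theorem mem_walls_exchange {l : List V} {t : Rac L} (h : t ∈ walls (L := L) l) :
    ∃ j, j < l.length ∧ t * wp L l = wp L (l.eraseIdx j) := by
  obtain ⟨j, hj, rfl⟩ := List.mem_iff_getElem.mp h
  have hj' : j < l.length := by rwa [length_walls] at hj
  refine ⟨j, hj', ?_⟩
  have : (walls (L := L) l).getD j 1 * wp L l = wp L (l.eraseIdx j) :=
    (csy L).getD_leftInvSeq_mul_wordProd l j
  rw [List.getD_eq_getElem _ _ hj] at this
  exact this

theorem isRefl_of_mem_walls {l : List V} {t : Rac L} (h : t ∈ walls (L := L) l) : IsRefl t := by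
  obtain ⟨w, i, hi⟩ := (csy L).isReflection_of_mem_leftInvSeq l h
  exact ⟨w, i, hi⟩

theorem sg_refl_self {t : Rac L} (h : IsRefl t) : sg t t = 1 := by
  classical
  obtain ⟨w, x, rfl⟩ := h
  set t := w * gen L x * w⁻¹ with ht
  have e1 : w⁻¹ * t * w = gen L x := by rw [ht]; group
  have e2 : (w * gen L x)⁻¹ * t * (w * gen L x) = gen L x := by
    rw [ht]; rw [mul_inv_rev, gen_inv]
    calc gen L x * w⁻¹ * (w * gen L x * w⁻¹) * (w * gen L x)
        = (gen L x * gen L x) * gen L x := by group
      _ = gen L x := by rw [gen_mul_self, one_mul]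
  have h1 : sg (w * gen L x * w⁻¹) t = sg (w * gen L x) t + sg w⁻¹ (gen L x) := by
    rw [sg_mul, e2]
  rw [h1, sg_mul, e1, sg_gen, sg_inv, ← ht]
  simp only [if_true]
  have : ∀ a : ZMod 2, a + 1 + a = 1 := by decide
  exact this _

theorem sg_mul_refl {t : Rac L} (h : IsRefl t) (w : Rac L) : sg (t * w) t = 1 + sg w t := by
  have ht : t⁻¹ * t * t = t := by simp
  rw [sg_mul, ht, sg_refl_self h]

/-- `t` is an inversion of `w` iff `t * w` is shorter. -/
theorem len_lt_iff_sg {t : Rac L} (h : IsRefl t) (w : Rac L) :
    len (t * w) < len w ↔ sg w t = 1 := by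
  have key : ∀ w : Rac L, sg w t = 1 → len (t * w) < len w := by
    intro w hw
    obtain ⟨l, hl, hl2⟩ := exists_reduced w
    subst hl
    rw [sg_eq_one_iff_mem hl2] at hw
    obtain ⟨j, hj, hj2⟩ := mem_walls_exchange hw
    rw [hj2, ← hl2]
    calc len (wp L (l.eraseIdx j)) ≤ (l.eraseIdx j).length := len_wp_le _
      _ < l.length := by rw [← List.length_eraseIdx_add_one hj]; exact lt_add_one _
  constructor
  · intro h1
    by_contra h2
    have h3 : sg w t = 0 := by
      have : ∀ a : ZMod 2, a ≠ 1 → a = 0 := by decide
      exact this _ h2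
    have h4 : sg (t * w) t = 1 := by rw [sg_mul_refl h, h3, add_zero]
    have h5 := key _ h4
    rw [← mul_assoc, h.mul_self, one_mul] at h5
    omega
  · exact key w

theorem desc_iff_sg {w : Rac L} {x : V} : Desc w x ↔ sg w (w * gen L x * w⁻¹) = 1 := by
  rw [← len_lt_iff_sg (isRefl_conj_gen w x) w]
  have : w * gen L x * w⁻¹ * w = w * gen L x := by group
  rw [this]; rfl

theorem sg_eq_zero_or_one (w r : Rac L) : sg w r = 0 ∨ sg w r = 1 := by
  have : ∀ a : ZMod 2, a = 0 ∨ a = 1 := by decide
  exact this _

/-- Exchange property on the right. -/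
theorem exchange {l : List V} {x : V} (hl : l.length = len (wp L l)) (hd : Desc (wp L l) x) :
    ∃ j, j < l.length ∧ wp L l * gen L x = wp L (l.eraseIdx j) := by
  rw [desc_iff_sg, sg_eq_one_iff_mem hl] at hd
  obtain ⟨j, hj, hj2⟩ := mem_walls_exchange hd
  refine ⟨j, hj, ?_⟩
  rw [← hj2]; group

theorem gen_injective : Function.Injective (gen L) := by
  intro x y h
  classical
  -- the parity homomorphism
  let f : Rac L →* Multiplicative (V → ZMod 2) := racLift
    (fun x => Multiplicative.ofAdd (Pi.single x (1 : ZMod 2)))
    (by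
      intro x
      rw [← ofAdd_add, ← Pi.single_add]
      have : (1 : ZMod 2) + 1 = 0 := by decide
      rw [this, Pi.single_zero, ofAdd_zero])
    (by intro x y _; exact mul_comm _ _)
  have h1 := congrArg f h
  simp only [f, racLift_gen] at h1
  have h2 : (Pi.single x (1 : ZMod 2) : V → ZMod 2) = Pi.single y 1 := Multiplicative.ofAdd.injective h1
  by_contra hne
  have h3 := congrFun h2 x
  rw [Pi.single_eq_same, Pi.single_eq_of_ne hne] at h3
  exact one_ne_zero h3

/-! ### Alternating words of non-adjacent generators -/

/-- The alternating word of length `k` starting with `a`. -/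
def alt (a b : V) : ℕ → List V
  | 0 => []
  | k + 1 => a :: alt b a k

@[simp] theorem length_alt (a b : V) (k : ℕ) : (alt a b k).length = k := by
  induction k generalizing a b with
  | zero => rfl
  | succ k ih => simp [alt, ih]

/-- The last letter slot. -/
def altLast (a b : V) (k : ℕ) : V := if Even k then a else b

theorem alt_succ' (a b : V) (k : ℕ) : alt a b (k + 1) = alt a b k ++ [altLast a b k] := by
  induction k generalizing a b with
  | zero => simp [alt, altLast]
  | succ k ih =>
    rw [show alt a b (k + 1 + 1) = a :: alt b a (k + 1) from rfl, ih b a]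
    rw [show alt a b (k + 1) = a :: alt b a k from rfl]
    have : altLast b a k = altLast a b (k + 1) := by
      unfold altLast
      by_cases h : Even k
      · have h' : ¬ Even (k + 1) := by rw [Nat.even_add_one]; simpa using h
        simp [h, h']
      · have h' : Even (k + 1) := by rw [Nat.even_add_one]; exact h
        simp [h, h']
    rw [this]; rfl

/-- Reflections of the integers generating the infinite dihedral group. -/
noncomputable def dPerm (a b x : V) : Equiv.Perm ℤ := by
  classical
  exact if x = a then ⟨fun z => -1 - z, fun z => -1 - z, fun z => by simp, fun z => by simp⟩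
    else if x = b then ⟨fun z => 1 - z, fun z => 1 - z, fun z => by simp, fun z => by simp⟩
    else 1

theorem dPerm_self (a b x : V) : dPerm a b x * dPerm a b x = 1 := by
  ext z
  unfold dPerm
  split_ifs <;> simp

/-- The homomorphism to the infinite dihedral group. -/
noncomputable def dHom {a b : V} (hab : ¬ L.Adj a b) : Rac L →* Equiv.Perm ℤ :=
  racLift (dPerm a b) (dPerm_self a b) (by
    intro x y hxy
    unfold dPerm
    by_cases hxa : x = a
    · subst hxa
      have hya : y ≠ x := hxy.ne.symm
      have hyb : y ≠ b := by rintro rfl; exact hab hxy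
      simp [hya, hyb]
    · by_cases hxb : x = b
      · subst hxb
        have hyb : y ≠ x := hxy.ne.symm
        have hya : y ≠ a := by rintro rfl; exact hab hxy.symm
        simp [hya, hyb]
      · simp [hxa, hxb])

theorem dHom_abs_le {a b : V} (hab : ¬ L.Adj a b) (l : List V) :
    |dHom hab (wp L l) 0| ≤ l.length := by
  induction l with
  | nil => simp
  | cons x l ih =>
    rw [wp_cons, map_mul, Equiv.Perm.coe_mul, Function.comp_apply]
    have h1 : dHom hab (gen L x) = dPerm a b x := by rw [dHom, racLift_gen]
    rw [h1]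
    set z := dHom hab (wp L l) 0
    have h2 : |dPerm a b x z| ≤ |z| + 1 := by
      unfold dPerm
      split_ifs
      · simp only [Equiv.coe_fn_mk]; rw [abs_le]; constructor <;> (rcases abs_cases z with h | h <;> omega)
      · simp only [Equiv.coe_fn_mk]; rw [abs_le]; constructor <;> (rcases abs_cases z with h | h <;> omega)
      · simp
    simp only [List.length_cons]
    push_cast
    omega

theorem dHom_alt {a b : V} (hab : ¬ L.Adj a b) (hne : a ≠ b) (k : ℕ) :
    dHom hab (wp L (alt a b k)) 0 = -k ∧ dHom hab (wp L (alt b a k)) 0 = k := by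
  induction k with
  | zero => simp [alt]
  | succ k ih =>
    obtain ⟨ih1, ih2⟩ := ih
    have ha : dHom hab (gen L a) = dPerm a b a := by rw [dHom, racLift_gen]
    have hb : dHom hab (gen L b) = dPerm a b b := by rw [dHom, racLift_gen]
    constructor
    · rw [alt, wp_cons, map_mul, Equiv.Perm.coe_mul, Function.comp_apply, ih2, ha]
      simp [dPerm]; ring
    · rw [alt, wp_cons, map_mul, Equiv.Perm.coe_mul, Function.comp_apply, ih1, hb]
      simp [dPerm, hne.symm]; ring

theorem len_alt {a b : V} (hab : ¬ L.Adj a b) (hne : a ≠ b) (k : ℕ) :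
    len (wp L (alt a b k)) = k := by
  apply le_antisymm
  · calc len (wp L (alt a b k)) ≤ (alt a b k).length := len_wp_le _
      _ = k := length_alt a b k
  · obtain ⟨l, hl, hl2⟩ := exists_reduced (wp L (alt a b k))
    have h1 := dHom_abs_le hab l
    rw [hl, (dHom_alt hab hne k).1, hl2] at h1
    simp at h1
    exact h1

end Pool.Agent.RD54
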