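import Pool.Agent.LibRD54.Three
import Pool.Agent.LibRD.Sites
import Pool.Agent.LibRD93.Defs

/-!
# The block hypothesis for the concrete group
-/

set_option autoImplicit false

namespace Pool.Agent.RD54

open Pool.Agent.RD93

theorem site_eq : RD93.site = LibRD.site := rfl

theorem siteOK93 : LibRD.SiteOK RD93.site := LibRD.siteOK

/-- The digit homomorphism. -/
noncomputable def digHom (f : RD93.FF) : MM →* Multiplicative (ZMod 2) where
  toFun v := Multiplicative.ofAdd (dig f v)
  map_one' := by rw [dig_one]; rfl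
  map_mul' v w := by rw [dig_mul]; rfl

/-- All digits of a block. -/
noncomputable def digAll (g : RD93.FF) (N : ℕ) : MM →* (Fin N → Multiplicative (ZMod 2)) where
  toFun v k := digHom (g * dsite k) v
  map_one' := by funext k; simp
  map_mul' v w := by funext k; simp

/-- Powers of the translation. -/
theorem actF_tt (v : MM) : (Multiplicative.toAdd (actF tt v)) =
    ((fun n => (Multiplicative.toAdd v).1 (n - 1)), (Multiplicative.toAdd v).2) := by
  unfold tt
  rw [map_mul, actF_gen, actF_gen]
  change (reflA 1) ((reflA 0) (Multiplicative.toAdd v)) = _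
  ext n
  · change (Multiplicative.toAdd v).1 (0 - (1 - n)) = (Multiplicative.toAdd v).1 (n - 1)
    ring_nf
  · rfl

theorem actF_tt_pow (k : ℕ) (v : MM) : (Multiplicative.toAdd (actF (tt ^ k) v)) =
    ((fun n => (Multiplicative.toAdd v).1 (n - k)), (Multiplicative.toAdd v).2) := by
  induction k with
  | zero => simp
  | succ k ih =>
    rw [pow_succ', map_mul, MulAut.mul_apply, actF_tt, ih]
    ext n
    · simp only [Nat.cast_add, Nat.cast_one]
      ring_nf
    · rfl

theorem actF_tt_pow_inv (k : ℕ) (v : MM) : (Multiplicative.toAdd (actF (tt ^ k)⁻¹ v)) =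
    ((fun n => (Multiplicative.toAdd v).1 (n + k)), (Multiplicative.toAdd v).2) := by
  have h := actF_tt_pow k (actF (tt ^ k)⁻¹ v)
  rw [← MulAut.mul_apply, ← map_mul, mul_inv_cancel, map_one, MulAut.one_apply] at h
  rw [h]
  ext n
  · simp
  · rfl

/-- The digit functionals. -/
theorem actF_dsite (k : ℕ) (v : MM) : (Multiplicative.toAdd (actF (dsite k)⁻¹ v)).1 0 =
    (Multiplicative.toAdd v).1 0 + if k = 0 then 0 else (Multiplicative.toAdd v).2 (-k) := by
  unfold dsite
  by_cases hk : k = 0
  · simp [hk]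
  · rw [if_neg hk, if_neg hk]
    have e : (tt ^ k * gen (⊥ : SimpleGraph (Fin 4)) 2 * (tt ^ k)⁻¹)⁻¹ =
        tt ^ k * (gen (⊥ : SimpleGraph (Fin 4)) 2 * (tt ^ k)⁻¹) := by
      rw [mul_inv_rev, mul_inv_rev, inv_inv, gen_inv]
    rw [e, map_mul, map_mul, MulAut.mul_apply, MulAut.mul_apply, actF_tt_pow, actF_gen]
    change (Multiplicative.toAdd (actF (tt ^ k)⁻¹ v) ).1 (0 - (k : ℤ)) +
      (Multiplicative.toAdd (actF (tt ^ k)⁻¹ v)).2 (0 - (k : ℤ)) = _
    rw [actF_tt_pow_inv]
    simp only [zero_sub, neg_add_cancel]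

theorem dig_dsite (g : RD93.FF) (k : ℕ) (v : MM) : dig (g * dsite k) (actF g v) =
    (Multiplicative.toAdd v).1 0 + if k = 0 then 0 else (Multiplicative.toAdd v).2 (-k) := by
  unfold dig
  have e : actF (g * dsite k)⁻¹ (actF g v) = actF (dsite k)⁻¹ v := by
    rw [← MulAut.mul_apply, ← map_mul, mul_inv_rev, inv_mul_cancel_right]
  rw [e, actF_dsite]

theorem digAll_surjective (g : RD93.FF) (N : ℕ) : Function.Surjective (digAll g N) := by
  intro a
  let a0 : ZMod 2 := if h : 0 < N then Multiplicative.toAdd (a ⟨0, h⟩) else 0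
  let v : MM := Multiplicative.ofAdd ((fun _ => a0),
    fun n => if h : (-n).toNat < N then Multiplicative.toAdd (a ⟨(-n).toNat, h⟩) - a0 else 0)
  refine ⟨actF g v, ?_⟩
  funext k
  change Multiplicative.ofAdd (dig (g * dsite k) (actF g v)) = a k
  rw [dig_dsite]
  by_cases hk : (k : ℕ) = 0
  · rw [if_pos hk, add_zero]
    have h0 : 0 < N := by have := k.2; omega
    have : k = ⟨0, h0⟩ := Fin.ext hk
    rw [this]
    change Multiplicative.ofAdd a0 = _
    simp only [a0, dif_pos h0, ofAdd_toAdd]
  · rw [if_neg hk]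
    change Multiplicative.ofAdd (a0 + (if h : (-(-(k : ℤ))).toNat < N then
      Multiplicative.toAdd (a ⟨(-(-(k : ℤ))).toNat, h⟩) - a0 else 0)) = a k
    have h1 : (-(-((k : ℕ) : ℤ))).toNat = k := by simp
    have h2 : (-(-((k : ℕ) : ℤ))).toNat < N := by rw [h1]; exact k.2
    rw [dif_pos h2]
    have h3 : (⟨(-(-((k : ℕ) : ℤ))).toNat, h2⟩ : Fin N) = k := Fin.ext h1
    rw [h3, add_sub_cancel, ofAdd_toAdd]

/-- Elements preserving a block have vanishing digits. -/
theorem digAll_eq_one {s t o : RD93.W1} {g : RD93.FF} {e : List (ZMod 2)}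
    (hb : LibRD.Bl RD93.site s t o g e) (h : G1) (hh : h.right.right = 1)
    (himg : (fun v => h • v) '' LibRD.bset RD93.site o g e = LibRD.bset RD93.site o g e) :
    digAll g e.length h.right.left = 1 := by
  rw [smul_bset, hh, one_mul] at himg
  have hne := hb.ne siteOK93
  have h1 : s ∈ LibRD.bset RD93.site (h • o) g (dact h.right.left g e) := by
    rw [himg]; exact hb.left_mem
  have h2 : t ∈ LibRD.bset RD93.site (h • o) g (dact h.right.left g e) := by
    rw [himg]; exact hb.symm.left_mem
  obtain ⟨-, -, he⟩ := hb.unique siteOK93 (LibRD.bl_of_mem h1 h2 hne)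
  funext k
  change Multiplicative.ofAdd (dig (g * dsite k) h.right.left) = 1
  have hk : (k : ℕ) < (dact h.right.left g e).length := by rw [length_dact]; exact k.2
  have h3 := getElem_dact h.right.left g e k hk
  have h4 : (dact h.right.left g e)[(k : ℕ)] = e[(k : ℕ)] := by
    congr 1
    exact he.symm
  rw [h4] at h3
  have h5 : dig (g * dsite k) h.right.left = 0 := by
    have h6 : e[(k : ℕ)] + 0 = e[(k : ℕ)] + dig (g * dsite k) h.right.left := by
      rw [add_zero]; exact h3
    exact (add_left_cancel h6).symm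
  rw [h5]; rfl

/-- The twisting element in the concrete group. -/
noncomputable def twG (p : RD93.W1) (m : MM) : G1 :=
  ⟨p * (phi1 (SemidirectProduct.inl m) p)⁻¹, SemidirectProduct.inl m⟩

/-- The block hypothesis of `rd_three`. -/
theorem hblk93 : ∀ s t, Lam.Adj s t → ∀ p : RD93.W1,
      ∃ (E : Type) (_ : Fintype E) (_ : Group E) (χ : MM →* E), Function.Surjective χ ∧
        2 ^ (blk Lam s t).ncard ≤ Fintype.card E ∧
        ∀ m : MM, (fun v => twG p m • v) '' blk Lam s t = blk Lam s t → χ m = 1 := by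
  intro s t hst p
  obtain ⟨o, g, e, hb⟩ := (LibRD.Lam_adj_iff siteOK93).1 hst
  have hblk : blk Lam s t = LibRD.bset RD93.site o g e := LibRD.blk_Lam siteOK93 hb
  refine ⟨Fin e.length → Multiplicative (ZMod 2), inferInstance, inferInstance, digAll g e.length,
    digAll_surjective g e.length, ?_, ?_⟩
  · rw [hblk, LibRD.ncard_bset siteOK93]
    apply le_of_eq
    rw [Fintype.card_fun, Fintype.card_fin]
    rfl
  · intro m hm
    rw [hblk] at hm
    exact digAll_eq_one hb (twG p m) rfl hm

theorem finite_blk93 : ∀ s t, Lam.Adj s t → (blk Lam s t).Finite := by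
  intro s t hst
  obtain ⟨o, g, e, hb⟩ := (LibRD.Lam_adj_iff siteOK93).1 hst
  rw [LibRD.blk_Lam siteOK93 hb]
  exact LibRD.bset_finite o g e

end Pool.Agent.RD54
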