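import Pool.Agent.LibRD54.Desc

/-!
# Cancellation, medians, walls of prefixes
-/

set_option autoImplicit false

namespace Pool.Agent.RD54

variable {V : Type*} {L : SimpleGraph V}

/-- Left descents. -/
def LDesc (w : Rac L) (x : V) : Prop := len (gen L x * w) < len w

theorem ldesc_iff_desc_inv {w : Rac L} {x : V} : LDesc w x ↔ Desc w⁻¹ x := by
  unfold LDesc Desc
  rw [← len_inv (gen L x * w), mul_inv_rev, gen_inv, len_inv w]

theorem ldesc_iff {w : Rac L} {x : V} : LDesc w x ↔ len (gen L x * w) + 1 = len w := by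
  unfold LDesc
  rcases len_gen_mul w x with h | h <;> omega

theorem not_ldesc_iff {w : Rac L} {x : V} : ¬ LDesc w x ↔ len (gen L x * w) = len w + 1 := by
  unfold LDesc
  rcases len_gen_mul w x with h | h <;> omega

/-- Letters all adjacent to `t` : the product commutes with `gen t`. -/
theorem wp_comm {l : List V} {t : V} (h : ∀ a ∈ l, L.Adj a t) :
    wp L l * gen L t = gen L t * wp L l := by
  induction l with
  | nil => simp
  | cons a l ih =>
    have h1 := gen_comm (h a (by simp))
    have h2 := ih (fun a ha => h a (by simp [ha]))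
    rw [wp_cons, mul_assoc, h2, ← mul_assoc, h1, mul_assoc]

theorem move {x : Rac L} {t : V} (l : List V) (h1 : len (x * wp L l) = len x + l.length)
    (h2 : Desc (x * wp L l) t) (h3 : ¬ Desc (wp L l) t) :
    (∀ a ∈ l, L.Adj a t) ∧ Desc x t := by
  induction l using List.reverseRecOn with
  | nil => simpa using h2
  | append_singleton l a ih =>
    rw [wp_append, wp_singleton] at h1 h2 h3
    rw [List.length_append, List.length_singleton] at h1
    have e1 : len (x * (wp L l * gen L a)) ≤ len (x * wp L l) + 1 := by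
      rw [← mul_assoc]
      rcases len_mul_gen (x * wp L l) a with h | h <;> omega
    have e2 : len (x * wp L l) ≤ len x + l.length :=
      (len_mul_le _ _).trans (by have := len_wp_le (L := L) l; omega)
    have e3 : len (x * wp L l) = len x + l.length := by omega
    have e4 : len (wp L l * gen L a) = l.length + 1 := by
      apply le_antisymm
      · have := len_wp_le (L := L) (l ++ [a])
        rw [wp_append, wp_singleton, List.length_append, List.length_singleton] at this
        exact this
      · have := len_mul_le x (wp L l * gen L a)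
        omega
    have hcancel : x * (wp L l * gen L a) * gen L a = x * wp L l := by
      rw [← mul_assoc, mul_gen_cancel]
    have hda : Desc (x * (wp L l * gen L a)) a := by
      unfold Desc; rw [hcancel]; omega
    have hat : a ≠ t := by
      rintro rfl
      rw [not_desc_iff, mul_gen_cancel, e4] at h3
      have := len_wp_le (L := L) l
      omega
    have hadj : L.Adj a t := adj_of_desc hda h2 hat
    have hdt : Desc (x * wp L l) t := by
      have := (desc_mul_gen h2 hda hat.symm).1
      rwa [hcancel] at this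
    have hnd : ¬ Desc (wp L l) t := by
      intro hd
      rw [desc_iff] at hd
      rw [not_desc_iff, e4, mul_assoc, gen_comm hadj, ← mul_assoc] at h3
      have h4 : len (wp L l * gen L t * gen L a) ≤ len (wp L l * gen L t) + 1 := by
        rcases len_mul_gen (wp L l * gen L t) a with h | h <;> omega
      have := len_wp_le (L := L) l
      omega
    obtain ⟨h5, h6⟩ := ih e3 hdt hnd
    refine ⟨?_, h6⟩
    intro b hb
    rw [List.mem_append, List.mem_singleton] at hb
    rcases hb with hb | rfl
    · exact h5 b hb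
    · exact hadj

theorem exists_cancel_list {x : Rac L} (l : List V) (hl : l.length = len (wp L l))
    (h : len (x * wp L l) < len x + l.length) : ∃ s, Desc x s ∧ LDesc (wp L l) s := by
  induction l using List.reverseRecOn with
  | nil => simp at h
  | append_singleton l t ih =>
    have hl0 := hl
    rw [wp_append, wp_singleton] at hl h
    rw [List.length_append, List.length_singleton] at hl h
    have h1 : l.length = len (wp L l) := by
      have h2 := len_wp_le (L := L) l
      rcases len_mul_gen (wp L l) t with h3 | h3 <;> omega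
    by_cases hc : len (x * wp L l) < len x + l.length
    · obtain ⟨s, hs1, hs2⟩ := ih h1 hc
      refine ⟨s, hs1, ?_⟩
      rw [ldesc_iff] at hs2
      unfold LDesc
      rw [← hl0, List.length_append, List.length_singleton, wp_append, wp_singleton, ← mul_assoc]
      rcases len_mul_gen (gen L s * wp L l) t with h3 | h3 <;> omega
    · have e1 : len (x * wp L l) = len x + l.length := by
        have := len_mul_le x (wp L l)
        omega
      have hd : Desc (x * wp L l) t := by
        by_contra hnd
        rw [not_desc_iff, mul_assoc] at hnd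
        omega
      have hnd : ¬ Desc (wp L l) t := by
        rw [not_desc_iff]; omega
      obtain ⟨h3, h4⟩ := move l e1 hd hnd
      refine ⟨t, h4, ?_⟩
      unfold LDesc
      rw [← hl0, List.length_append, List.length_singleton, wp_append, wp_singleton, ← mul_assoc,
        ← wp_comm h3, mul_gen_cancel]
      omega

/-- If a product is not reduced, a letter cancels. -/
theorem exists_cancel {x y : Rac L} (h : len (x * y) < len x + len y) :
    ∃ s, Desc x s ∧ LDesc y s := by
  obtain ⟨l, hl, hl2⟩ := exists_reduced y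
  subst hl
  exact exists_cancel_list l hl2 (by rw [hl2]; exact h)

theorem exists_kappa (n : ℕ) (x y : Rac L) (hn : len x = n) :
    ∃ k : Rac L, len x = len (x * k⁻¹) + len k ∧ len y = len k + len (k * y) ∧
      len (x * y) = len (x * k⁻¹) + len (k * y) := by
  induction n generalizing x y with
  | zero =>
    rw [len_eq_zero] at hn
    subst hn
    exact ⟨1, by simp, by simp, by simp⟩
  | succ n ih =>
    by_cases hc : len (x * y) < len x + len y
    · obtain ⟨s, hs1, hs2⟩ := exists_cancel hc
      rw [desc_iff] at hs1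
      rw [ldesc_iff] at hs2
      obtain ⟨k, h1, h2, h3⟩ := ih (x * gen L s) (gen L s * y) (by omega)
      have e0 : (k * gen L s)⁻¹ = gen L s * k⁻¹ := by rw [mul_inv_rev, gen_inv]
      have e1 : x * (k * gen L s)⁻¹ = x * gen L s * k⁻¹ := by rw [e0, mul_assoc]
      have e2 : k * gen L s * y = k * (gen L s * y) := by rw [mul_assoc]
      have e3 : x * gen L s * (gen L s * y) = x * y := by
        rw [mul_assoc, gen_mul_gen_cancel]
      rw [e3] at h3
      refine ⟨k * gen L s, ?_, ?_, ?_⟩
      · rw [e1]
        have h4 : len x ≤ len (x * gen L s * k⁻¹) + len (k * gen L s) := by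
          have := len_mul_le (x * gen L s * k⁻¹) (k * gen L s)
          have e4 : x * gen L s * k⁻¹ * (k * gen L s) = x := by
            rw [← mul_assoc, inv_mul_cancel_right, mul_gen_cancel]
          rwa [e4] at this
        rcases len_mul_gen k s with h5 | h5 <;> omega
      · rw [e2]
        have h4 : len x ≤ len (x * gen L s * k⁻¹) + len (k * gen L s) := by
          have := len_mul_le (x * gen L s * k⁻¹) (k * gen L s)
          have e4 : x * gen L s * k⁻¹ * (k * gen L s) = x := by
            rw [← mul_assoc, inv_mul_cancel_right, mul_gen_cancel]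
          rwa [e4] at this
        rcases len_mul_gen k s with h5 | h5 <;> omega
      · rw [e1, e2, h3]
    · refine ⟨1, by simp, by simp, ?_⟩
      have := len_mul_le x y
      simp only [inv_one, mul_one, one_mul]
      omega

/-- Medians of three elements. -/
def IsMed (a b c m : Rac L) : Prop :=
  len (a⁻¹ * b) = len (a⁻¹ * m) + len (m⁻¹ * b) ∧
  len (a⁻¹ * c) = len (a⁻¹ * m) + len (m⁻¹ * c) ∧
  len (b⁻¹ * c) = len (b⁻¹ * m) + len (m⁻¹ * c)

theorem exists_med (a b c : Rac L) : ∃ m, IsMed a b c m := by
  obtain ⟨k, h1, h2, h3⟩ := exists_kappa _ (a⁻¹ * b) (b⁻¹ * c) rfl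
  refine ⟨b * k⁻¹, ?_, ?_, ?_⟩
  · have e1 : a⁻¹ * (b * k⁻¹) = a⁻¹ * b * k⁻¹ := by group
    have e2 : (b * k⁻¹)⁻¹ * b = k := by group
    rw [e1, e2]; exact h1
  · have e1 : a⁻¹ * (b * k⁻¹) = a⁻¹ * b * k⁻¹ := by group
    have e2 : (b * k⁻¹)⁻¹ * c = k * (b⁻¹ * c) := by group
    have e3 : a⁻¹ * b * (b⁻¹ * c) = a⁻¹ * c := by group
    rw [e1, e2, ← h3, e3]
  · have e1 : b⁻¹ * (b * k⁻¹) = k⁻¹ := by group
    have e2 : (b * k⁻¹)⁻¹ * c = k * (b⁻¹ * c) := by group
    rw [e1, e2, len_inv]; exact h2

theorem len_symm (a b : Rac L) : len (a⁻¹ * b) = len (b⁻¹ * a) := by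
  rw [← len_inv (a⁻¹ * b), mul_inv_rev, inv_inv]

theorem IsMed.swap12 {a b c m : Rac L} (h : IsMed a b c m) : IsMed b a c m := by
  obtain ⟨h1, h2, h3⟩ := h
  refine ⟨?_, h3, h2⟩
  rw [len_symm b a, h1, len_symm a m, len_symm m b]; ring

theorem IsMed.swap23 {a b c m : Rac L} (h : IsMed a b c m) : IsMed a c b m := by
  obtain ⟨h1, h2, h3⟩ := h
  refine ⟨h2, h1, ?_⟩
  rw [len_symm c b, h3, len_symm b m, len_symm m c]; ring

theorem IsMed.mul_left {a b c m : Rac L} (h : IsMed a b c m) (g : Rac L) :
    IsMed (g * a) (g * b) (g * c) (g * m) := by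
  unfold IsMed at *
  have e : ∀ x y : Rac L, (g * x)⁻¹ * (g * y) = x⁻¹ * y := by intro x y; group
  simp only [e]; exact h

/-! ### Walls of reduced products -/

/-- The product `a * b` is reduced. -/
def Red (a b : Rac L) : Prop := len (a * b) = len a + len b

theorem Red.walls {a b : Rac L} (h : Red a b) :
    ∃ l l' : List V, wp L l = a ∧ wp L l' = b ∧ l.length = len a ∧ l'.length = len b ∧
      (l ++ l').length = len (wp L (l ++ l')) := by
  obtain ⟨l, hl, hl2⟩ := exists_reduced a
  obtain ⟨l', hl', hl2'⟩ := exists_reduced b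
  refine ⟨l, l', hl, hl', hl2, hl2', ?_⟩
  rw [wp_append, hl, hl', List.length_append, hl2, hl2']
  exact h.symm

theorem Red.sg_left {a b : Rac L} (h : Red a b) {r : Rac L} (hr : sg a r = 1) :
    sg (a * b) r = 1 := by
  obtain ⟨l, l', h1, h2, h3, h4, h5⟩ := h.walls
  have e : a * b = wp L (l ++ l') := by rw [wp_append, h1, h2]
  rw [e, sg_eq_one_iff_mem h5, walls_append, List.mem_append]
  left
  rw [← sg_eq_one_iff_mem (by rw [h1]; exact h3), h1]
  exact hr

theorem Red.sg_right {a b : Rac L} (h : Red a b) {r : Rac L} (hr : sg b r = 1) :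
    sg (a * b) (a * r * a⁻¹) = 1 := by
  obtain ⟨l, l', h1, h2, h3, h4, h5⟩ := h.walls
  have e : a * b = wp L (l ++ l') := by rw [wp_append, h1, h2]
  rw [e, sg_eq_one_iff_mem h5, walls_append, List.mem_append]
  right
  rw [List.mem_map]
  refine ⟨r, ?_, by rw [MulAut.conj_apply, h1]⟩
  rw [← sg_eq_one_iff_mem (by rw [h2]; exact h4), h2]
  exact hr

theorem Red.sg_disj {a b : Rac L} (h : Red a b) {r : Rac L} (hr : sg a r = 1) :
    sg b (a⁻¹ * r * a) = 0 := by
  have h1 := h.sg_left hr
  rw [sg_mul, hr] at h1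
  have : ∀ x : ZMod 2, 1 + x = 1 → x = 0 := by decide
  exact this _ h1

theorem Red.sg_disj' {a b : Rac L} (h : Red a b) {r : Rac L} (hr : sg b r = 1) :
    sg a (a * r * a⁻¹) = 0 := by
  rcases sg_eq_zero_or_one a (a * r * a⁻¹) with h1 | h1
  · exact h1
  · have := h.sg_disj h1
    have e : a⁻¹ * (a * r * a⁻¹) * a = r := by group
    rw [e, hr] at this
    exact absurd this one_ne_zero

theorem sg_med {x y m : Rac L} (h : IsMed 1 x y m) {r : Rac L} (hx : sg x r = 1)
    (hy : sg y r = 1) : sg m r = 1 := by
  rcases sg_eq_zero_or_one m r with h0 | h0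
  swap
  · exact h0
  exfalso
  have ex : sg x r = sg m r + sg (m⁻¹ * x) (m⁻¹ * r * m) := by
    rw [← sg_mul]; congr 1; group
  have ey : sg y r = sg m r + sg (m⁻¹ * y) (m⁻¹ * r * m) := by
    rw [← sg_mul]; congr 1; group
  rw [hx, h0, zero_add] at ex
  rw [hy, h0, zero_add] at ey
  have hred : Red (m⁻¹ * x)⁻¹ (m⁻¹ * y) := by
    unfold Red
    have e : (m⁻¹ * x)⁻¹ * (m⁻¹ * y) = x⁻¹ * y := by group
    rw [e, len_inv, h.2.2, len_symm x m]
  have e1 : sg (m⁻¹ * x)⁻¹ ((m⁻¹ * x)⁻¹ * (m⁻¹ * r * m) * (m⁻¹ * x)) = 1 := by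
    rw [sg_inv, ex]; congr 1; group
  have e2 := hred.sg_disj e1
  have e3 : (m⁻¹ * x)⁻¹⁻¹ * ((m⁻¹ * x)⁻¹ * (m⁻¹ * r * m) * (m⁻¹ * x)) * (m⁻¹ * x)⁻¹
      = m⁻¹ * r * m := by group
  rw [e3, ← ey] at e2
  exact one_ne_zero e2

theorem eq_one_of_sg {w : Rac L} (h : ∀ r, sg w r = 0) : w = 1 := by
  by_contra hw
  obtain ⟨x, hx⟩ := exists_desc hw
  rw [desc_iff_sg, h] at hx
  exact zero_ne_one hx

theorem eq_of_sg {a b : Rac L} (h : ∀ r, sg a r = sg b r) : a = b := by
  have h1 : a⁻¹ * b = 1 := by
    apply eq_one_of_sg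
    intro r
    rw [sg_mul, sg_inv, inv_inv, h]
    have : ∀ x : ZMod 2, x + x = 0 := by decide
    exact this _
  exact (inv_mul_eq_one.mp h1)

/-- The finite set of walls separating `1` and `w`. -/
theorem finite_walls (w : Rac L) : {r | sg w r = 1}.Finite ∧ {r | sg w r = 1}.ncard = len w := by
  classical
  obtain ⟨l, hl, hl2⟩ := exists_reduced w
  subst hl
  have : {r | sg (wp L l) r = 1} = ((walls (L := L) l).toFinset : Set (Rac L)) := by
    ext r
    rw [Set.mem_ofPred_eq, sg_eq_one_iff_mem hl2]
    simp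
  rw [this]
  refine ⟨Finset.finite_toSet _, ?_⟩
  rw [Set.ncard_coe_finset, List.toFinset_card_of_nodup (nodup_walls hl2), length_walls, hl2]

end Pool.Agent.RD54
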