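import Pool.Agent.LibRD54.Aut

/-!
# Prefixes of an element: grid and strip lemmas
-/

set_option autoImplicit false

namespace Pool.Agent.RD54

variable {V : Type*} {L : SimpleGraph V}

/-- `m` is a prefix of `x`. -/
def Pre (x m : Rac L) : Prop := len x = len m + len (m⁻¹ * x)

theorem pre_one (x : Rac L) : Pre x 1 := by simp [Pre]

theorem pre_self (x : Rac L) : Pre x x := by simp [Pre]

theorem Pre.red {x m : Rac L} (h : Pre x m) : Red m (m⁻¹ * x) := by
  unfold Red
  rw [mul_inv_cancel_left]; exact h

theorem Pre.len_le {x m : Rac L} (h : Pre x m) : len m ≤ len x := by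
  unfold Pre at h; omega

theorem Pre.sg {x m : Rac L} (h : Pre x m) {r : Rac L} (hr : sg m r = 1) : sg x r = 1 := by
  have := h.red.sg_left hr
  rwa [mul_inv_cancel_left] at this

theorem Pre.trans {x m k : Rac L} (h : Pre x m) (h' : Pre m k) : Pre x k := by
  unfold Pre at *
  have h1 := len_mul_le k (k⁻¹ * x)
  rw [mul_inv_cancel_left] at h1
  have h2 := len_mul_le (k⁻¹ * m) (m⁻¹ * x)
  have e : k⁻¹ * m * (m⁻¹ * x) = k⁻¹ * x := by group
  rw [e] at h2
  omega

theorem Pre.shift {x m k : Rac L} (h : Pre x m) (h' : Pre m k) : Pre (k⁻¹ * x) (k⁻¹ * m) := by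
  have h0 := h.trans h'
  unfold Pre at *
  have e : (k⁻¹ * m)⁻¹ * (k⁻¹ * x) = m⁻¹ * x := by group
  rw [e]
  have h1 := len_mul_le k (k⁻¹ * x)
  rw [mul_inv_cancel_left] at h1
  have h2 := len_mul_le (k⁻¹ * m) (m⁻¹ * x)
  have e : k⁻¹ * m * (m⁻¹ * x) = k⁻¹ * x := by group
  rw [e] at h2
  omega

theorem pre_gen_iff {z : Rac L} {t : V} : Pre z (gen L t) ↔ LDesc z t := by
  unfold Pre
  rw [len_gen, gen_inv, ldesc_iff]
  omega

theorem ldesc_adj {z : Rac L} {a b : V} (ha : LDesc z a) (hb : LDesc z b) (hne : a ≠ b) :
    L.Adj a b := by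
  rw [ldesc_iff_desc_inv] at ha hb
  exact adj_of_desc ha hb hne

theorem ldesc_gen_mul {z : Rac L} {a b : V} (ha : LDesc z a) (hb : LDesc z b) (hne : a ≠ b) :
    LDesc (gen L b * z) a := by
  rw [ldesc_iff_desc_inv] at ha hb ⊢
  rw [mul_inv_rev, gen_inv]
  exact (desc_mul_gen ha hb hne).1

/-- Grid lemma, one letter. -/
theorem grid {t : V} (l : List V) (z : Rac L) (hl : l.length = len (wp L l))
    (hp : Pre z (wp L l)) (ht : LDesc z t) (hnt : ¬ LDesc (wp L l) t) :
    (∀ a ∈ l, L.Adj a t) ∧ Pre z (wp L l * gen L t) := by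
  induction l generalizing z with
  | nil =>
    refine ⟨by simp, ?_⟩
    rw [wp_nil, one_mul, pre_gen_iff]; exact ht
  | cons a l ih =>
    rw [wp_cons] at hl hp hnt ⊢
    rw [List.length_cons] at hl
    have h1 : l.length = len (wp L l) := by
      have h2 := len_wp_le (L := L) l
      rcases len_gen_mul (wp L l) a with h3 | h3 <;> omega
    have hla : LDesc (gen L a * wp L l) a := by
      unfold LDesc
      rw [gen_mul_gen_cancel]; omega
    have hza : LDesc z a := by
      rw [← pre_gen_iff] at hla ⊢
      exact hp.trans hla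
    have hat : a ≠ t := by
      rintro rfl
      exact hnt hla
    have hadj : L.Adj a t := ldesc_adj hza ht hat
    have ht1 : LDesc (gen L a * z) t := ldesc_gen_mul ht hza hat.symm
    have hp1 : Pre (gen L a * z) (wp L l) := by
      have := hp.shift (pre_gen_iff.mpr hla)
      rwa [gen_inv, gen_mul_gen_cancel] at this
    have hn1 : ¬ LDesc (wp L l) t := by
      intro h
      apply hnt
      rw [ldesc_iff] at h
      unfold LDesc
      rw [← mul_assoc, ← gen_comm hadj, mul_assoc]
      have h2 : len (gen L a * (gen L t * wp L l)) ≤ len (gen L t * wp L l) + 1 := by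
        rcases len_gen_mul (gen L t * wp L l) a with h | h <;> omega
      omega
    obtain ⟨h4, h5⟩ := ih (gen L a * z) h1 hp1 ht1 hn1
    refine ⟨?_, ?_⟩
    · intro b hb
      rw [List.mem_cons] at hb
      rcases hb with rfl | hb
      · exact hadj
      · exact h4 b hb
    · unfold Pre at h5 ⊢
      have e : (gen L a * wp L l * gen L t)⁻¹ * z = (wp L l * gen L t)⁻¹ * (gen L a * z) := by
        rw [mul_assoc, mul_inv_rev (gen L a), gen_inv, mul_assoc]
      rw [e]
      rw [ldesc_iff] at hza
      have h6 := len_mul_le (gen L a * wp L l * gen L t) ((gen L a * wp L l * gen L t)⁻¹ * z)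
      rw [mul_inv_cancel_left, e] at h6
      have h7 : len (gen L a * wp L l * gen L t) ≤ len (wp L l * gen L t) + 1 := by
        rw [mul_assoc]
        rcases len_gen_mul (wp L l * gen L t) a with h | h <;> omega
      omega

/-- Grid lemma, two words. -/
theorem grid2 (l l' : List V) (z : Rac L) (hl : l.length = len (wp L l))
    (hl' : l'.length = len (wp L l')) (hp : Pre z (wp L l)) (hp' : Pre z (wp L l'))
    (hred : len ((wp L l)⁻¹ * wp L l') = l.length + l'.length) :
    (∀ a ∈ l, ∀ b ∈ l', L.Adj a b) ∧ Pre z (wp L l * wp L l') ∧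
      len (wp L l * wp L l') = l.length + l'.length := by
  induction l' generalizing z with
  | nil => exact ⟨by simp, by simpa using hp, by simpa using hl.symm⟩
  | cons b l' ih =>
    rw [wp_cons] at hl' hp' hred ⊢
    rw [List.length_cons] at hl' hred
    have h1 : l'.length = len (wp L l') := by
      have h2 := len_wp_le (L := L) l'
      rcases len_gen_mul (wp L l') b with h3 | h3 <;> omega
    have hlb : LDesc (gen L b * wp L l') b := by
      unfold LDesc
      rw [gen_mul_gen_cancel]; omega
    have hzb : LDesc z b := by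
      rw [← pre_gen_iff] at hlb ⊢
      exact hp'.trans hlb
    have hnb : ¬ LDesc (wp L l) b := by
      intro h
      rw [ldesc_iff] at h
      have h2 := len_mul_le ((gen L b * wp L l)⁻¹) (wp L l')
      have e : (gen L b * wp L l)⁻¹ * wp L l' = (wp L l)⁻¹ * (gen L b * wp L l') := by
        rw [mul_inv_rev, gen_inv, mul_assoc]
      rw [e, len_inv] at h2
      omega
    obtain ⟨h3, h4⟩ := grid l z hl hp hzb hnb
    have hcomm := wp_comm h3
    have h5 : len (wp L l * gen L b) = len (wp L l) + 1 := by
      rw [hcomm]; exact not_ldesc_iff.mp hnb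
    have hp1 : Pre (gen L b * z) (wp L l) := by
      unfold Pre at h4 ⊢
      have e : (wp L l * gen L b)⁻¹ * z = (wp L l)⁻¹ * (gen L b * z) := by
        rw [hcomm, mul_inv_rev, gen_inv, mul_assoc]
      rw [e, h5] at h4
      rw [ldesc_iff] at hzb
      omega
    have hp1' : Pre (gen L b * z) (wp L l') := by
      have := hp'.shift (pre_gen_iff.mpr hlb)
      rwa [gen_inv, gen_mul_gen_cancel] at this
    have hred1 : len ((wp L l)⁻¹ * wp L l') = l.length + l'.length := by
      have e : (wp L l)⁻¹ * (gen L b * wp L l') = gen L b * ((wp L l)⁻¹ * wp L l') := by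
        have : (wp L l)⁻¹ * gen L b = gen L b * (wp L l)⁻¹ := by
          rw [inv_mul_eq_iff_eq_mul, ← mul_assoc, hcomm, mul_inv_cancel_right]
        rw [← mul_assoc, this, mul_assoc]
      rw [e] at hred
      have h6 := len_mul_le (wp L l)⁻¹ (wp L l')
      rw [len_inv] at h6
      rcases len_gen_mul ((wp L l)⁻¹ * wp L l') b with h | h <;> omega
    obtain ⟨h6, h7, h70⟩ := ih (gen L b * z) h1 hp1 hp1' hred1
    have h71 : ¬ LDesc (wp L l * wp L l') b := by
      intro h
      rw [← pre_gen_iff] at h
      have := pre_gen_iff.mp (h7.trans h)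
      unfold LDesc at this
      rw [gen_mul_gen_cancel] at this
      rw [ldesc_iff] at hzb
      omega
    refine ⟨?_, ?_, ?_⟩
    · intro a ha c hc
      rw [List.mem_cons] at hc
      rcases hc with rfl | hc
      · exact h3 a ha
      · exact h6 a ha c hc
    · unfold Pre at h7 ⊢
      have e : (wp L l * (gen L b * wp L l'))⁻¹ * z = (wp L l * wp L l')⁻¹ * (gen L b * z) := by
        rw [← mul_assoc, hcomm, mul_assoc, mul_inv_rev (gen L b), gen_inv, mul_assoc]
      rw [e]
      rw [ldesc_iff] at hzb
      have h8 := len_mul_le (wp L l * (gen L b * wp L l')) ((wp L l * (gen L b * wp L l'))⁻¹ * z)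
      rw [mul_inv_cancel_left, e] at h8
      have h9 : len (wp L l * (gen L b * wp L l')) ≤ len (wp L l * wp L l') + 1 := by
        rw [← mul_assoc, hcomm, mul_assoc]
        rcases len_gen_mul (wp L l * wp L l') b with h | h <;> omega
      omega
    · rw [not_ldesc_iff] at h71
      rw [← mul_assoc, hcomm, mul_assoc, h71, h70, List.length_cons]; ring

/-- Strip lemma: a descent whose wall is already crossed before `l` commutes with `l`. -/
theorem strip {m : Rac L} {s : V} (l : List V) (h1 : len (m * wp L l) = len m + l.length)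
    (hd : Desc (m * wp L l) s) (hw : sg m (m * wp L l * gen L s * (m * wp L l)⁻¹) = 1) :
    (∀ a ∈ l, L.Adj a s) ∧ Desc m s ∧
      m * gen L s * m⁻¹ = m * wp L l * gen L s * (m * wp L l)⁻¹ := by
  induction l using List.reverseRecOn with
  | nil => simpa using hd
  | append_singleton l a ih =>
    rw [wp_append, wp_singleton, ← mul_assoc] at h1 hd hw ⊢
    rw [List.length_append, List.length_singleton] at h1
    have e2 : len (m * wp L l) ≤ len m + l.length :=
      (len_mul_le _ _).trans (by have := len_wp_le (L := L) l; omega)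
    have e3 : len (m * wp L l) = len m + l.length := by
      rcases len_mul_gen (m * wp L l) a with h | h <;> omega
    have hda : Desc (m * wp L l * gen L a) a := by
      unfold Desc; rw [mul_gen_cancel]; omega
    -- the wall of `s` is crossed before
    have hw1 : sg (m * wp L l) (m * wp L l * gen L a * gen L s * (m * wp L l * gen L a)⁻¹) = 1 := by
      have hred : Red m (wp L l) := by
        unfold Red
        have := len_wp_le (L := L) l
        have := len_mul_le m (wp L l)
        omega
      exact hred.sg_left hw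
    have has : s ≠ a := by
      rintro rfl
      have e : m * wp L l * gen L s * gen L s * (m * wp L l * gen L s)⁻¹
          = m * wp L l * gen L s * (m * wp L l)⁻¹ := by
        rw [mul_inv_rev (m * wp L l), gen_inv, mul_gen_cancel]; group
      rw [e] at hw1
      have : Desc (m * wp L l) s := desc_iff_sg.mpr hw1
      rw [desc_iff] at this
      omega
    have hadj := adj_of_desc hda hd has.symm
    obtain ⟨h4, h5⟩ := desc_mul_gen hd hda has
    rw [mul_gen_cancel] at h4 h5
    rw [← h5] at hw
    obtain ⟨h6, h7, h8⟩ := ih e3 h4 hw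
    refine ⟨?_, h7, ?_⟩
    · intro b hb
      rw [List.mem_append, List.mem_singleton] at hb
      rcases hb with hb | rfl
      · exact h6 b hb
      · exact hadj
    · rw [h8, h5]

end Pool.Agent.RD54
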