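import Pool.Agent.LibRD54.HBlk
import Pool.Agent.LibRD93.Inst

/-!
# Rapid decay for the concrete group
-/

set_option autoImplicit false

open MeasureTheory
open scoped ENNReal Topology

namespace Pool.Agent.RD54

open Pool.Agent.RD93

theorem nearOne_V1 : NearOne QQ V1 := by
  intro v
  have h := (continuous_smul_V1 v).tendsto 1
  rw [one_smul] at h
  have h2 : ∀ᶠ u in 𝓝 v, u = v := by
    rw [nhds_discrete]; exact Filter.eventually_pure.mpr rfl
  exact h.eventually h2

theorem left_near {N Q : Type*} [Group N] [Group Q] [TopologicalSpace N] [TopologicalSpace Q]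
    [DiscreteTopology N] {φ : Q →* MulAut N} :
    ∀ᶠ g in 𝓝 (1 : N ⋊[φ] Q), g.left = 1 := by
  have h := (continuous_left (φ := φ)).tendsto 1
  have h2 : ∀ᶠ u in 𝓝 (1 : N), u = 1 := by
    rw [nhds_discrete]; exact Filter.eventually_pure.mpr rfl
  rw [SemidirectProduct.one_left] at h
  exact h.eventually h2

theorem right_near {N Q : Type*} [Group N] [Group Q] [TopologicalSpace N] [TopologicalSpace Q]
    [DiscreteTopology Q] {φ : Q →* MulAut N} :
    ∀ᶠ g in 𝓝 (1 : N ⋊[φ] Q), g.right = 1 := by
  have h := (continuous_right (φ := φ)).tendsto 1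
  have h2 : ∀ᶠ u in 𝓝 (1 : Q), u = 1 := by
    rw [nhds_discrete]; exact Filter.eventually_pure.mpr rfl
  rw [SemidirectProduct.one_right] at h
  exact h.eventually h2

theorem right_tendsto {N Q : Type*} [Group N] [Group Q] [TopologicalSpace N] [TopologicalSpace Q]
    {φ : Q →* MulAut N} :
    Filter.Tendsto (fun g : N ⋊[φ] Q => g.right) (𝓝 1) (𝓝 1) := by
  have h := (continuous_right (φ := φ)).tendsto 1
  rwa [SemidirectProduct.one_right] at h

theorem openEmb_inr {N Q : Type*} [Group N] [Group Q] [TopologicalSpace N] [TopologicalSpace Q]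
    [DiscreteTopology N] {φ : Q →* MulAut N} :
    Topology.IsOpenEmbedding (SemidirectProduct.inr : Q →* N ⋊[φ] Q) := by
  have h1 : Topology.IsOpenEmbedding (fun q : Q => ((1 : N), q)) := by
    refine Topology.IsOpenEmbedding.of_continuous_injective_isOpenMap (by fun_prop) ?_ ?_
    · intro a b h
      exact (Prod.mk.inj h).2
    · intro U hU
      have : (fun q : Q => ((1 : N), q)) '' U = {1} ×ˢ U := by
        ext p
        constructor
        · rintro ⟨q, hq, rfl⟩
          exact ⟨rfl, hq⟩
        · rintro ⟨h, hq⟩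
          exact ⟨p.2, hq, Prod.ext h.symm rfl⟩
      rw [this]
      exact (isOpen_discrete _).prod hU
  exact (homeoProd (φ := φ)).symm.isOpenEmbedding.comp h1

theorem openEmb_inl {N Q : Type*} [Group N] [Group Q] [TopologicalSpace N] [TopologicalSpace Q]
    [DiscreteTopology Q] {φ : Q →* MulAut N} :
    Topology.IsOpenEmbedding (SemidirectProduct.inl : N →* N ⋊[φ] Q) := by
  have h1 : Topology.IsOpenEmbedding (fun n : N => (n, (1 : Q))) := by
    refine Topology.IsOpenEmbedding.of_continuous_injective_isOpenMap (by fun_prop) ?_ ?_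
    · intro a b h
      exact (Prod.mk.inj h).1
    · intro U hU
      have : (fun n : N => (n, (1 : Q))) '' U = U ×ˢ {1} := by
        ext p
        constructor
        · rintro ⟨q, hq, rfl⟩
          exact ⟨hq, rfl⟩
        · rintro ⟨hq, h⟩
          exact ⟨p.1, hq, Prod.ext rfl h.symm⟩
      rw [this]
      exact hU.prod (isOpen_discrete _)
  exact (homeoProd (φ := φ)).symm.isOpenEmbedding.comp h1

/-- Rapid decay of the concrete group. -/
theorem rd_GG [MeasurableSpace GG] [BorelSpace GG] (μ : Measure GG) [hμ : μ.IsHaarMeasure] :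
    ∃ L : GG → ℝ, Measurable L ∧ L 1 = 0 ∧ (∀ g, 0 ≤ L g) ∧ (∀ g, L g⁻¹ = L g) ∧
          (∀ g h, L (g * h) ≤ L g + L h) ∧
          (∀ K : Set GG, IsCompact K → BddAbove (L '' K)) ∧
          ∃ C s : ℝ, 0 ≤ C ∧ 0 ≤ s ∧
            ∀ f ξ : GG → ℂ, Continuous f → HasCompactSupport f → Continuous ξ →
              HasCompactSupport ξ →
              eLpNorm (fun x => ∫ y, f y * ξ (y⁻¹ * x) ∂μ) 2 μ ≤
                ENNReal.ofReal C * eLpNorm (fun g => f g * (((1 + L g) ^ s : ℝ) : ℂ)) 2 μ *
                  eLpNorm ξ 2 μ := by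
  have e1 : Topology.IsOpenEmbedding (SemidirectProduct.inl : MM →* QQ) := openEmb_inl
  have e2 : Topology.IsOpenEmbedding (SemidirectProduct.inr : QQ →* G1) := openEmb_inr
  have e3 : Topology.IsOpenEmbedding (SemidirectProduct.inr : G1 →* GG) := openEmb_inr
  have e4 := e3.comp (e2.comp e1)
  have hlc : IsLocallyConstant (fun g : GG => (g.left, g.right.left, g.right.right.right)) := by
    rw [IsLocallyConstant.iff_continuous]
    have c1 : Continuous (fun g : GG => g.left) := continuous_left
    have c2 : Continuous (fun g : GG => g.right.left) := continuous_left.comp continuous_right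
    have c3 : Continuous (fun g : GG => g.right.right.right) :=
      continuous_right.comp (continuous_right.comp continuous_right)
    exact c1.prodMk (c2.prodMk c3)
  exact @rd_three (Fin 4) MM V1 _ actF _ (fun _ _ _ h => h.elim) instMulActionW1 Lam lam_adj_smul
    inferInstance inferInstance (inferInstanceAs (TopologicalSpace G1))
    (inferInstanceAs (TopologicalSpace GG)) (inferInstanceAs (IsTopologicalGroup GG))
    (inferInstanceAs (SecondCountableTopology GG)) (inferInstanceAs (LocallyCompactSpace GG))
    (inferInstanceAs (MeasurableSpace GG)) (inferInstanceAs (BorelSpace GG))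
    inferInstance inferInstance (fun g v => rfl)
    (LibRD.diamondFree_Lam siteOK93) finite_blk93 (LibRD.cliqueBound_Lam siteOK93)
    hblk93 nearOne_V1 right_near left_near right_tendsto left_near right_tendsto hlc e4 μ hμ

end Pool.Agent.RD54
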