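import Mathlib

/-!
# Right-angled Coxeter groups

`Rac L` is the right-angled Coxeter group of a graph `L`: generators `gen L x` of order two, two
generators commute when they are adjacent.  Word length `len`, the sign cocycle and the exchange
property.
-/

set_option autoImplicit false

namespace Pool.Agent.RD54

variable {V : Type*}

/-- The Coxeter matrix of the right-angled Coxeter group of a graph. -/
noncomputable def cm (L : SimpleGraph V) : CoxeterMatrix V := by
  classical
  exact
  { M := Matrix.of fun x y => if x = y then 1 else if L.Adj x y then 2 else 0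
    isSymm := by
      ext x y
      simp only [Matrix.transpose_apply, Matrix.of_apply]
      by_cases h : x = y
      · subst h; simp
      · have h' : ¬ y = x := fun e => h e.symm
        simp [h, h', L.adj_comm]
    diagonal := by intro i; simp
    off_diagonal := by
      intro i j h
      simp only [Matrix.of_apply, h, if_false]
      split_ifs <;> omega }

theorem cm_self (L : SimpleGraph V) (x : V) : cm L x x = 1 := (cm L).diagonal x

theorem cm_adj (L : SimpleGraph V) {x y : V} (h : L.Adj x y) : cm L x y = 2 := by
  classical
  have hne : x ≠ y := h.ne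
  simp [cm, hne, h]

theorem cm_not_adj (L : SimpleGraph V) {x y : V} (h : ¬ L.Adj x y) (hne : x ≠ y) :
    cm L x y = 0 := by
  classical
  simp [cm, hne, h]

/-- The right-angled Coxeter group of the graph `L`. -/
abbrev Rac (L : SimpleGraph V) : Type _ := (cm L).Group

/-- The Coxeter system. -/
noncomputable abbrev csy (L : SimpleGraph V) : CoxeterSystem (cm L) (Rac L) := (cm L).toCoxeterSystem

/-- The generator attached to a vertex. -/
noncomputable def gen (L : SimpleGraph V) (x : V) : Rac L := (csy L).simple x

/-- Word length. -/
noncomputable def len {L : SimpleGraph V} (w : Rac L) : ℕ := (csy L).length w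

variable {L : SimpleGraph V}

theorem gen_mul_self (x : V) : gen L x * gen L x = 1 := (csy L).simple_mul_simple_self x

theorem gen_inv (x : V) : (gen L x)⁻¹ = gen L x := (csy L).inv_simple x

theorem gen_mul_gen_cancel (x : V) (w : Rac L) : gen L x * (gen L x * w) = w := by
  rw [← mul_assoc, gen_mul_self, one_mul]

theorem mul_gen_cancel (x : V) (w : Rac L) : w * gen L x * gen L x = w := by
  rw [mul_assoc, gen_mul_self, mul_one]

theorem conj_conj (x : V) (r : Rac L) :
    gen L x * (gen L x * r * gen L x) * gen L x = r := by
  have h : gen L x * (gen L x * r * gen L x) * gen L x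
      = (gen L x * gen L x) * r * (gen L x * gen L x) := by simp only [mul_assoc]
  rw [h, gen_mul_self, one_mul, mul_one]

theorem gen_comm {x y : V} (h : L.Adj x y) : gen L x * gen L y = gen L y * gen L x := by
  have h1 := (csy L).simple_mul_simple_pow x y
  rw [cm_adj L h] at h1
  have h2 : (gen L x * gen L y) * (gen L x * gen L y) = 1 := by
    have := h1
    rw [pow_two] at this
    exact this
  have h3 : gen L x * gen L y = (gen L x * gen L y)⁻¹ := eq_inv_of_mul_eq_one_left h2
  rw [h3, mul_inv_rev, gen_inv, gen_inv]

/-- The universal property. -/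
theorem liftable {G : Type*} [Monoid G] (f : V → G) (h1 : ∀ x, f x * f x = 1)
    (h2 : ∀ x y, L.Adj x y → f x * f y = f y * f x) : (cm L).IsLiftable f := by
  intro x y
  by_cases hxy : x = y
  · subst hxy; rw [cm_self, pow_one, h1]
  · by_cases ha : L.Adj x y
    · rw [cm_adj L ha, pow_two]
      calc f x * f y * (f x * f y) = f x * (f y * f x) * f y := by simp only [mul_assoc]
        _ = f x * (f x * f y) * f y := by rw [h2 x y ha]
        _ = (f x * f x) * (f y * f y) := by simp only [mul_assoc]
        _ = 1 := by rw [h1, h1, one_mul]
    · rw [cm_not_adj L ha hxy, pow_zero]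

/-- The homomorphism defined by images of generators. -/
noncomputable def racLift {G : Type*} [Monoid G] (f : V → G) (h1 : ∀ x, f x * f x = 1)
    (h2 : ∀ x y, L.Adj x y → f x * f y = f y * f x) : Rac L →* G :=
  (csy L).lift ⟨f, liftable f h1 h2⟩

@[simp] theorem racLift_gen {G : Type*} [Monoid G] (f : V → G) (h1 : ∀ x, f x * f x = 1)
    (h2 : ∀ x y, L.Adj x y → f x * f y = f y * f x) (x : V) :
    racLift (L := L) f h1 h2 (gen L x) = f x :=
  (csy L).lift_apply_simple (liftable f h1 h2) x

theorem rac_hom_ext {G : Type*} [MulOneClass G] {f g : Rac L →* G}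
    (h : ∀ x, f (gen L x) = g (gen L x)) : f = g := (csy L).ext_simple h

/-- Product of a word. -/
noncomputable def wp (L : SimpleGraph V) (l : List V) : Rac L := (l.map (gen L)).prod

theorem wp_eq (l : List V) : wp L l = (csy L).wordProd l := rfl

@[simp] theorem wp_nil : wp L [] = 1 := by simp [wp]

@[simp] theorem wp_cons (x : V) (l : List V) : wp L (x :: l) = gen L x * wp L l := by simp [wp]

@[simp] theorem wp_append (l l' : List V) : wp L (l ++ l') = wp L l * wp L l' := by simp [wp]

theorem wp_singleton (x : V) : wp L [x] = gen L x := by simp [wp]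

theorem wp_reverse (l : List V) : wp L l.reverse = (wp L l)⁻¹ := (csy L).wordProd_reverse l

theorem exists_reduced (w : Rac L) : ∃ l : List V, wp L l = w ∧ l.length = len w := by
  obtain ⟨l, h1, h2⟩ := (csy L).exists_isReduced w
  refine ⟨l, h2.symm, ?_⟩
  rw [h2]; exact h1.symm

theorem len_wp_le (l : List V) : len (wp L l) ≤ l.length := (csy L).length_wordProd_le l

@[simp] theorem len_one : len (1 : Rac L) = 0 := (csy L).length_one

theorem len_eq_zero {w : Rac L} : len w = 0 ↔ w = 1 := (csy L).length_eq_zero_iff

@[simp] theorem len_inv (w : Rac L) : len w⁻¹ = len w := (csy L).length_inv w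

theorem len_mul_le (a b : Rac L) : len (a * b) ≤ len a + len b := (csy L).length_mul_le a b

@[simp] theorem len_gen (x : V) : len (gen L x) = 1 := (csy L).length_simple x

theorem len_mul_gen (w : Rac L) (x : V) :
    len (w * gen L x) = len w + 1 ∨ len (w * gen L x) + 1 = len w := (csy L).length_mul_simple w x

theorem len_gen_mul (w : Rac L) (x : V) :
    len (gen L x * w) = len w + 1 ∨ len (gen L x * w) + 1 = len w := (csy L).length_simple_mul w x

theorem rac_induction {p : Rac L → Prop} (w : Rac L) (h1 : p 1)
    (h2 : ∀ w x, p w → p (w * gen L x)) : p w :=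
  (csy L).simple_induction_right w h1 (fun w x h => h2 w x h)

theorem rac_induction_left {p : Rac L → Prop} (w : Rac L) (h1 : p 1)
    (h2 : ∀ w x, p w → p (gen L x * w)) : p w :=
  (csy L).simple_induction_left w h1 (fun w x h => h2 w x h)

/-- Right descents. -/
def Desc (w : Rac L) (x : V) : Prop := len (w * gen L x) < len w

theorem desc_iff {w : Rac L} {x : V} : Desc w x ↔ len (w * gen L x) + 1 = len w := by
  unfold Desc
  rcases len_mul_gen w x with h | h <;> omega

theorem not_desc_iff {w : Rac L} {x : V} : ¬ Desc w x ↔ len (w * gen L x) = len w + 1 := by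
  unfold Desc
  rcases len_mul_gen w x with h | h <;> omega

theorem exists_desc {w : Rac L} (h : w ≠ 1) : ∃ x, Desc w x :=
  (csy L).exists_rightDescent_of_ne_one h

/-! ### The sign cocycle -/

/-- The action of a generator on pairs (element, sign). -/
noncomputable def signPerm (x : V) : Equiv.Perm (Rac L × ZMod 2) := by
  classical
  exact
  { toFun := fun p => (gen L x * p.1 * gen L x, p.2 + if p.1 = gen L x then 1 else 0)
    invFun := fun p => (gen L x * p.1 * gen L x, p.2 + if p.1 = gen L x then 1 else 0)
    left_inv := by
      rintro ⟨r, e⟩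
      have h1 := conj_conj (L := L) x r
      have h2 : (gen L x * r * gen L x = gen L x) ↔ r = gen L x := by
        constructor
        · intro h
          rw [← h1, h, gen_mul_self, one_mul]
        · rintro rfl
          rw [gen_mul_self, one_mul]
      ext
      · simp [h1]
      · simp only [h2]
        have : ∀ a b : ZMod 2, a + b + b = a := by decide
        rw [this]
    right_inv := by
      rintro ⟨r, e⟩
      have h1 := conj_conj (L := L) x r
      have h2 : (gen L x * r * gen L x = gen L x) ↔ r = gen L x := by
        constructor
        · intro h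
          rw [← h1, h, gen_mul_self, one_mul]
        · rintro rfl
          rw [gen_mul_self, one_mul]
      ext
      · simp [h1]
      · simp only [h2]
        have : ∀ a b : ZMod 2, a + b + b = a := by decide
        rw [this] }

open Classical in
theorem signPerm_apply (x : V) (p : Rac L × ZMod 2) :
    signPerm (L := L) x p = (gen L x * p.1 * gen L x, p.2 + if p.1 = gen L x then 1 else 0) := rfl

/-- The action of the group on pairs (element, sign). -/
noncomputable def signHom (L : SimpleGraph V) : Rac L →* Equiv.Perm (Rac L × ZMod 2) :=
  racLift signPerm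
    (by
      intro x
      ext p
      · exact congrArg Prod.fst ((signPerm (L := L) x).left_inv p)
      · exact congrArg Prod.snd ((signPerm (L := L) x).left_inv p))
    (by
      classical
      intro x y hxy
      have hc := gen_comm hxy
      ext ⟨r, e⟩
      · simp only [Equiv.Perm.coe_mul, Function.comp_apply, signPerm_apply]
        calc gen L x * (gen L y * r * gen L y) * gen L x
            = (gen L x * gen L y) * r * (gen L y * gen L x) := by simp only [mul_assoc]
          _ = (gen L y * gen L x) * r * (gen L x * gen L y) := by rw [hc]
          _ = gen L y * (gen L x * r * gen L x) * gen L y := by simp only [mul_assoc]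
      · simp only [Equiv.Perm.coe_mul, Function.comp_apply, signPerm_apply]
        have h1 : gen L y * r * gen L y = gen L x ↔ r = gen L x := by
          constructor
          · intro h
            have : r = gen L y * gen L x * gen L y := by
              rw [← h, conj_conj]
            rw [this, ← hc, mul_assoc, gen_mul_self, mul_one]
          · rintro rfl
            rw [← hc, mul_assoc, gen_mul_self, mul_one]
        have h2 : gen L x * r * gen L x = gen L y ↔ r = gen L y := by
          constructor
          · intro h
            have : r = gen L x * gen L y * gen L x := by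
              rw [← h, conj_conj]
            rw [this, hc, mul_assoc, gen_mul_self, mul_one]
          · rintro rfl
            rw [hc, mul_assoc, gen_mul_self, mul_one]
        simp only [h1, h2]
        ring)

open Classical in
theorem signHom_gen (x : V) (p : Rac L × ZMod 2) :
    signHom L (gen L x) p = (gen L x * p.1 * gen L x, p.2 + if p.1 = gen L x then 1 else 0) := by
  rw [signHom, racLift_gen, signPerm_apply]

/-- The sign cocycle: `sg w r = 1` iff `r` is an inversion of `w`. -/
noncomputable def sg (w r : Rac L) : ZMod 2 := (signHom L w⁻¹ (r, 0)).2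

theorem signHom_apply (w r : Rac L) (e : ZMod 2) :
    signHom L w (r, e) = (w * r * w⁻¹, e + sg w⁻¹ r) := by
  classical
  have key : ∀ w : Rac L, ∀ r e, (signHom L w (r, e)).1 = w * r * w⁻¹ ∧
      (signHom L w (r, e)).2 = e + (signHom L w (r, 0)).2 := by
    intro w
    refine rac_induction_left (p := fun w => ∀ r e, (signHom L w (r, e)).1 = w * r * w⁻¹ ∧
      (signHom L w (r, e)).2 = e + (signHom L w (r, 0)).2) w ?_ ?_
    · intro r e; simp
    · intro w x ih r e
      obtain ⟨h1, h2⟩ := ih r e
      obtain ⟨h3, h4⟩ := ih r 0
      constructor
      · rw [map_mul, Equiv.Perm.coe_mul, Function.comp_apply, signHom_gen]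
        simp only [h1, mul_inv_rev, gen_inv, mul_assoc]
      · rw [map_mul, Equiv.Perm.coe_mul, Function.comp_apply, signHom_gen]
        rw [Function.comp_apply, signHom_gen]
        simp only [h1, h2, h3]
        ring
  obtain ⟨h1, h2⟩ := key w r e
  ext
  · exact h1
  · simp only [h2, sg, inv_inv]

theorem sg_one (r : Rac L) : sg (1 : Rac L) r = 0 := by simp [sg]

theorem sg_mul (a b r : Rac L) : sg (a * b) r = sg a r + sg b (a⁻¹ * r * a) := by
  have h : signHom L (a * b)⁻¹ (r, 0) = signHom L b⁻¹ (signHom L a⁻¹ (r, 0)) := by
    rw [mul_inv_rev, map_mul, Equiv.Perm.coe_mul, Function.comp_apply]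
  have h1 : signHom L a⁻¹ (r, 0) = (a⁻¹ * r * a, sg a r) := by
    rw [signHom_apply]; simp
  rw [sg, h, h1, signHom_apply]
  simp

open Classical in
theorem sg_gen (x : V) (r : Rac L) : sg (gen L x) r = if r = gen L x then 1 else 0 := by
  rw [sg, gen_inv, signHom_gen]; simp

theorem sg_inv (a r : Rac L) : sg a⁻¹ r = sg a (a * r * a⁻¹) := by
  have h := sg_mul a a⁻¹ (a * r * a⁻¹)
  rw [mul_inv_cancel, sg_one] at h
  have h2 : a⁻¹ * (a * r * a⁻¹) * a = r := by group
  rw [h2] at h
  have h3 : ∀ x y : ZMod 2, 0 = x + y → y = x := by decide
  exact h3 _ _ h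

end Pool.Agent.RD54
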