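import Pool.Agent.LibRD54.CD

/-!
# Length functions on semidirect products with right-angled Coxeter groups
-/

set_option autoImplicit false

open scoped Topology

namespace Pool.Agent.RD54

/-- Integer valued length functions. -/
structure LenFn {G : Type*} [Group G] (l : G → ℕ) : Prop where
  one : l 1 = 0
  inv : ∀ g, l g⁻¹ = l g
  mul : ∀ g h, l (g * h) ≤ l g + l h

variable {V : Type*} {L : SimpleGraph V}

/-- The radius of an element: the least `n` such that it is a product of generators of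
radius at most `n`. -/
noncomputable def rad (ρ : V → ℕ) (w : Rac L) : ℕ := sInf {n | w ∈ sub L {v | ρ v ≤ n}}

theorem rad_nonempty (ρ : V → ℕ) (w : Rac L) : {n | w ∈ sub L {v | ρ v ≤ n}}.Nonempty := by
  obtain ⟨l, rfl, -⟩ := exists_reduced w
  refine ⟨(l.map ρ).sum, ?_⟩
  apply wp_mem_sub
  intro a ha
  exact List.single_le_sum (fun _ _ => Nat.zero_le _) _ (List.mem_map_of_mem ha)

theorem mem_sub_rad (ρ : V → ℕ) (w : Rac L) : w ∈ sub L {v | ρ v ≤ rad ρ w} :=
  Nat.sInf_mem (rad_nonempty ρ w)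

theorem mem_sub_of_rad_le {ρ : V → ℕ} {w : Rac L} {n : ℕ} (h : rad ρ w ≤ n) :
    w ∈ sub L {v | ρ v ≤ n} :=
  sub_mono (fun _ hv => le_trans hv h) (mem_sub_rad ρ w)

theorem rad_le {ρ : V → ℕ} {w : Rac L} {n : ℕ} (h : w ∈ sub L {v | ρ v ≤ n}) : rad ρ w ≤ n :=
  Nat.sInf_le h

theorem rad_one (ρ : V → ℕ) : rad ρ (1 : Rac L) = 0 :=
  Nat.le_zero.mp (rad_le (Subgroup.one_mem _))

theorem rad_inv (ρ : V → ℕ) (w : Rac L) : rad ρ w⁻¹ = rad ρ w := by
  apply le_antisymm
  · exact rad_le (Subgroup.inv_mem _ (mem_sub_rad ρ w))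
  · have := rad_le (ρ := ρ) (Subgroup.inv_mem _ (mem_sub_rad ρ w⁻¹))
    rwa [inv_inv] at this

theorem rad_mul_le (ρ : V → ℕ) (w w' : Rac L) : rad ρ (w * w') ≤ max (rad ρ w) (rad ρ w') := by
  apply rad_le
  exact Subgroup.mul_mem _ (mem_sub_of_rad_le (le_max_left _ _))
    (mem_sub_of_rad_le (le_max_right _ _))

variable {Q : Type*} [Group Q] [MulAction Q V]

theorem rad_racAct_le {ρ : V → ℕ} {l : Q → ℕ} (hρ : ∀ q v, ρ (q • v) ≤ l q + ρ v)
    (h : ∀ (a : Q) (x y : V), L.Adj x y → L.Adj (a • x) (a • y)) (q : Q) (w : Rac L) :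
    rad ρ (racAct L h q w) ≤ l q + rad ρ w := by
  apply rad_le
  have h1 := racAct_mem_sub h q (mem_sub_rad ρ w)
  refine sub_mono ?_ h1
  rintro _ ⟨v, hv, rfl⟩
  exact (hρ q v).trans (Nat.add_le_add_left hv _)

/-- Length on a semidirect product, without control on the radius. -/
theorem LenFn.tree {l : Q → ℕ} (hl : LenFn l)
    (h : ∀ (a : Q) (x y : V), L.Adj x y → L.Adj (a • x) (a • y)) :
    LenFn (fun g : Rac L ⋊[racAct L h] Q => len g.left + l g.right) where
  one := by
    simp only [SemidirectProduct.one_left, SemidirectProduct.one_right, len_one, hl.one]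
  inv g := by
    simp only [SemidirectProduct.inv_left, SemidirectProduct.inv_right, len_racAct, len_inv, hl.inv]
  mul g g' := by
    simp only [SemidirectProduct.mul_left, SemidirectProduct.mul_right]
    have h1 := len_mul_le g.left (racAct L h g.right g'.left)
    rw [len_racAct] at h1
    have h2 := hl.mul g.right g'.right
    omega

/-- One-sided length with control on the radius. -/
noncomputable def lenR (ρ : V → ℕ) (l : Q → ℕ)
    (h : ∀ (a : Q) (x y : V), L.Adj x y → L.Adj (a • x) (a • y))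
    (g : Rac L ⋊[racAct L h] Q) : ℕ := len g.left + max (rad ρ g.left) (l g.right)

theorem lenR_mul {ρ : V → ℕ} {l : Q → ℕ} (hρ : ∀ q v, ρ (q • v) ≤ l q + ρ v) (hl : LenFn l)
    (h : ∀ (a : Q) (x y : V), L.Adj x y → L.Adj (a • x) (a • y))
    (g g' : Rac L ⋊[racAct L h] Q) :
    lenR ρ l h (g * g') ≤ lenR ρ l h g + lenR ρ l h g' := by
  unfold lenR
  rw [SemidirectProduct.mul_left, SemidirectProduct.mul_right]
  have h1 := len_mul_le g.left (racAct L h g.right g'.left)
  rw [len_racAct] at h1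
  have h2 := hl.mul g.right g'.right
  have h3 := rad_mul_le ρ g.left (racAct L h g.right g'.left)
  have h4 := rad_racAct_le hρ h g.right g'.left
  omega

/-- The symmetric length function. -/
noncomputable def lenS (ρ : V → ℕ) (l : Q → ℕ)
    (h : ∀ (a : Q) (x y : V), L.Adj x y → L.Adj (a • x) (a • y))
    (g : Rac L ⋊[racAct L h] Q) : ℕ := max (lenR ρ l h g) (lenR ρ l h g⁻¹)

theorem LenFn.rac {ρ : V → ℕ} {l : Q → ℕ} (hρ : ∀ q v, ρ (q • v) ≤ l q + ρ v) (hl : LenFn l)
    (h : ∀ (a : Q) (x y : V), L.Adj x y → L.Adj (a • x) (a • y)) : LenFn (lenS ρ l h) where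
  one := by
    unfold lenS lenR
    simp only [inv_one, SemidirectProduct.one_left, SemidirectProduct.one_right, len_one, hl.one,
      rad_one, max_self, add_zero]
  inv g := by
    unfold lenS
    rw [inv_inv, max_comm]
  mul g g' := by
    unfold lenS
    have h1 := lenR_mul hρ hl h g g'
    have h2 := lenR_mul hρ hl h g'⁻¹ g⁻¹
    rw [mul_inv_rev]
    omega

theorem mem_of_lenS_le {ρ : V → ℕ} {l : Q → ℕ}
    (h : ∀ (a : Q) (x y : V), L.Adj x y → L.Adj (a • x) (a • y))
    {g : Rac L ⋊[racAct L h] Q} {n : ℕ} (hg : lenS ρ l h g ≤ n) :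
    len g.left ≤ n ∧ g.left ∈ sub L {v | ρ v ≤ n} ∧ (g⁻¹).left ∈ sub L {v | ρ v ≤ n} ∧
      l g.right ≤ n := by
  unfold lenS lenR at hg
  have h1 : rad ρ g.left ≤ n := by omega
  have h2 : rad ρ (g⁻¹).left ≤ n := by omega
  exact ⟨by omega, mem_sub_of_rad_le h1, mem_sub_of_rad_le h2, by omega⟩

end Pool.Agent.RD54
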