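import Mathlib

/-!
# Measure of compact open subgroups by counting graphs over a compact factor
-/

set_option autoImplicit false

open MeasureTheory
open scoped ENNReal

namespace Pool.Agent.RD54

variable {G M : Type*} [TopologicalSpace G] [Group G] [IsTopologicalGroup G] [MeasurableSpace G]
  [BorelSpace G] [TopologicalSpace M] [Group M]

/-- An open set covered by translates of graphs. -/
theorem vol_graph (μ : Measure G) [μ.IsMulLeftInvariant] (ι : M →* G)
    (hι : Topology.IsOpenEmbedding ι) (S : Set G) (hS : IsOpen S) {I : Type*} [Countable I]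
    (p : I → G) (hcov : ∀ g ∈ S, ∃ i m, p i * ι m = g) (N : ℕ)
    (hmult : ∀ m : M, {i | p i * ι m ∈ S}.Finite ∧ {i | p i * ι m ∈ S}.ncard ≤ N) :
    μ S ≤ N * μ (ι '' {m | ∃ i, p i * ι m ∈ S}) := by
  classical
  set T : I → Set M := fun i => {m | p i * ι m ∈ S} with hT
  have hTo : ∀ i, IsOpen (T i) := by
    intro i
    exact hS.preimage (continuous_const.mul hι.continuous)
  have hUo : IsOpen {m | ∃ i, p i * ι m ∈ S} := by
    have : {m | ∃ i, p i * ι m ∈ S} = ⋃ i, T i := by
      ext m; simp [hT]
    rw [this]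
    exact isOpen_iUnion hTo
  have h1 : S ⊆ ⋃ i, (fun g => p i * g) '' (ι '' T i) := by
    intro g hg
    obtain ⟨i, m, rfl⟩ := hcov g hg
    rw [Set.mem_iUnion]
    exact ⟨i, ι m, ⟨m, hg, rfl⟩, rfl⟩
  have h2 : ∀ i, μ ((fun g => p i * g) '' (ι '' T i)) = μ (ι '' T i) := by
    intro i
    have : (fun g => p i * g) '' (ι '' T i) = (fun g => (p i)⁻¹ * g) ⁻¹' (ι '' T i) := by
      ext g
      constructor
      · rintro ⟨x, hx, rfl⟩
        simpa using hx
      · intro hg
        exact ⟨(p i)⁻¹ * g, hg, by simp⟩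
    rw [this, measure_preimage_mul]
  have hmeas : ∀ i, MeasurableSet (ι '' T i) := fun i => (hι.isOpenMap _ (hTo i)).measurableSet
  have hUm : MeasurableSet (ι '' {m | ∃ i, p i * ι m ∈ S}) := (hι.isOpenMap _ hUo).measurableSet
  calc μ S ≤ μ (⋃ i, (fun g => p i * g) '' (ι '' T i)) := measure_mono h1
    _ ≤ ∑' i, μ ((fun g => p i * g) '' (ι '' T i)) := measure_iUnion_le _
    _ = ∑' i, μ (ι '' T i) := by simp_rw [h2]
    _ = ∑' i, ∫⁻ g, (ι '' T i).indicator 1 g ∂μ := by
        congr 1; funext i
        rw [lintegral_indicator_one (hmeas i)]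
    _ = ∫⁻ g, ∑' i, (ι '' T i).indicator 1 g ∂μ := by
        rw [lintegral_tsum]
        intro i
        exact (measurable_one.indicator (hmeas i)).aemeasurable
    _ ≤ ∫⁻ g, N * (ι '' {m | ∃ i, p i * ι m ∈ S}).indicator 1 g ∂μ := by
        refine lintegral_mono fun g => ?_
        by_cases hg : g ∈ ι '' {m | ∃ i, p i * ι m ∈ S}
        · obtain ⟨m, hm, rfl⟩ := hg
          obtain ⟨hf, hc⟩ := hmult m
          rw [Set.indicator_of_mem (show ι m ∈ ι '' {m | ∃ i, p i * ι m ∈ S} from ⟨m, hm, rfl⟩),
            Pi.one_apply, mul_one]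
          have hsupp : ∀ i ∉ hf.toFinset, (ι '' T i).indicator (1 : G → ℝ≥0∞) (ι m) = 0 := by
            intro i hi
            apply Set.indicator_of_notMem
            rintro ⟨m', hm', e⟩
            apply hi
            rw [Set.Finite.mem_toFinset]
            rw [← hι.injective e]; exact hm'
          rw [tsum_eq_sum hsupp]
          have : ∀ i ∈ hf.toFinset, (ι '' T i).indicator (1 : G → ℝ≥0∞) (ι m) ≤ 1 := by
            intro i _
            exact Set.indicator_apply_le' (fun _ => le_rfl) (fun _ => zero_le_one)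
          refine (Finset.sum_le_card_nsmul _ _ _ this).trans ?_
          rw [nsmul_eq_mul, mul_one]
          have h3 : hf.toFinset.card ≤ N := by
            rw [← Set.ncard_eq_toFinset_card _ hf]; exact hc
          exact_mod_cast h3
        · have : ∀ i, (ι '' T i).indicator (1 : G → ℝ≥0∞) g = 0 := by
            intro i
            apply Set.indicator_of_notMem
            rintro ⟨m', hm', e⟩
            exact hg ⟨m', ⟨i, hm'⟩, e⟩
          simp only [this, tsum_zero]
          exact zero_le
    _ = N * μ (ι '' {m | ∃ i, p i * ι m ∈ S}) := by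
        rw [lintegral_const_mul _ (measurable_one.indicator hUm), lintegral_indicator_one hUm]

/-- Sets on which independent characters vanish have small measure. -/
theorem vol_index (μ : Measure G) [μ.IsMulLeftInvariant] (ι : M →* G)
    (hι : Topology.IsOpenEmbedding ι) {E : Type*} [Fintype E] [Group E] (χ : M →* E)
    (hχ : Function.Surjective χ) (U : Set M) (hUo : IsOpen U) (hU : ∀ m ∈ U, χ m = 1) :
    (Fintype.card E : ℝ≥0∞) * μ (ι '' U) ≤ μ (Set.range ι) := by
  classical
  obtain ⟨s, hs⟩ := hχ.hasRightInverse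
  have h2 : ∀ e : E, μ ((fun g => ι (s e) * g) '' (ι '' U)) = μ (ι '' U) := by
    intro e
    have : (fun g => ι (s e) * g) '' (ι '' U) = (fun g => (ι (s e))⁻¹ * g) ⁻¹' (ι '' U) := by
      ext g
      constructor
      · rintro ⟨x, hx, rfl⟩
        simpa using hx
      · intro hg
        exact ⟨(ι (s e))⁻¹ * g, hg, by simp⟩
    rw [this, measure_preimage_mul]
  have hmeas : ∀ e : E, MeasurableSet ((fun g => ι (s e) * g) '' (ι '' U)) := by
    intro e
    exact ((isOpenMap_mul_left (ι (s e))) _ (hι.isOpenMap _ hUo)).measurableSet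
  have hdisj : Pairwise (Function.onFun Disjoint (fun e : E => (fun g => ι (s e) * g) '' (ι '' U))) := by
    intro e e' hne
    rw [Function.onFun, Set.disjoint_left]
    rintro g ⟨_, ⟨m, hm, rfl⟩, rfl⟩ ⟨_, ⟨m', hm', rfl⟩, h⟩
    simp only at h
    rw [← map_mul, ← map_mul] at h
    have h3 := hι.injective h
    have h4 := congrArg χ h3
    rw [map_mul, map_mul, hU m hm, hU m' hm', mul_one, mul_one, hs, hs] at h4
    exact hne h4.symm
  calc (Fintype.card E : ℝ≥0∞) * μ (ι '' U)
      = ∑ e : E, μ ((fun g => ι (s e) * g) '' (ι '' U)) := by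
        simp_rw [h2]
        rw [Finset.sum_const, Finset.card_univ, nsmul_eq_mul]
    _ = ∑' e : E, μ ((fun g => ι (s e) * g) '' (ι '' U)) := (tsum_fintype _).symm
    _ = μ (⋃ e, (fun g => ι (s e) * g) '' (ι '' U)) := (measure_iUnion hdisj hmeas).symm
    _ ≤ μ (Set.range ι) := by
        apply measure_mono
        intro g hg
        rw [Set.mem_iUnion] at hg
        obtain ⟨e, _, ⟨m, -, rfl⟩, rfl⟩ := hg
        exact ⟨s e * m, by simp⟩

end Pool.Agent.RD54
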