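import Pool.Agent.LibRD54.Rad
import Pool.Agent.LibRD54.Vol

/-!
# The three-level group: base level and measure of the stabilisers
-/

set_option autoImplicit false

open MeasureTheory
open scoped ENNReal Topology

namespace Pool.Agent.RD54

variable {V0 M V1 V2 : Type*} [Group M] {ψ : Rac (⊥ : SimpleGraph V0) →* MulAut M}

/-! ### Base level -/

/-- Points of the tree of the base group. -/
@[ext] structure KB (V0 : Type*) where
  /-- the point -/
  pt : Rac (⊥ : SimpleGraph V0)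

noncomputable instance instKB : MulAction (M ⋊[ψ] Rac (⊥ : SimpleGraph V0)) (KB V0) where
  smul q z := ⟨q.right * z.pt⟩
  one_smul z := by
    change KB.mk ((1 : Rac (⊥ : SimpleGraph V0)) * z.pt) = z
    rw [one_mul]
  mul_smul q q' z := by
    change KB.mk ((q * q').right * z.pt) = KB.mk (q.right * (q'.right * z.pt))
    rw [SemidirectProduct.mul_right, mul_assoc]

theorem KB_smul_pt (q : M ⋊[ψ] Rac (⊥ : SimpleGraph V0)) (z : KB V0) :
    (q • z).pt = q.right * z.pt := rfl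

/-- Centre sets of the base level. -/
def AB (n : ℕ) (x : Rac (⊥ : SimpleGraph V0)) : Set (KB V0) := {z | z.pt ∈ Pf n x}

theorem PreCD.base (n : ℕ) :
    PreCD (G := M ⋊[ψ] Rac (⊥ : SimpleGraph V0)) (K := KB V0)
      (fun q => AB n q.right) {q | len q.right ≤ n} (n + 1) where
  fin q := by
    have hinj : Set.InjOn KB.pt (AB n q.right) := fun _ _ _ _ e => KB.ext e
    refine Set.Finite.of_finite_image ((finite_Pf n q.right).subset ?_) hinj
    rintro _ ⟨z, hz, rfl⟩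
    exact hz
  card q := by
    have hinj : Set.InjOn KB.pt (AB n q.right) := fun _ _ _ _ e => KB.ext e
    exact (Set.ncard_le_ncard_of_injOn KB.pt (fun z hz => hz) hinj (finite_Pf n q.right)).trans
      (ncard_Pf n q.right)
  cent y hy x := by
    obtain ⟨m, m1, m2, m3⟩ := exists_centre_pt (x := x.right) hy
    refine ⟨⟨m⟩, m1, m2, ?_⟩
    change (y⁻¹).right * m ∈ Pf n (y⁻¹ * x).right
    rw [SemidirectProduct.mul_right, SemidirectProduct.inv_right]
    exact m3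

theorem lenFn_base : LenFn (fun q : M ⋊[ψ] Rac (⊥ : SimpleGraph V0) => len q.right) where
  one := by simp
  inv q := by simp
  mul q q' := by
    rw [SemidirectProduct.mul_right]
    exact len_mul_le _ _

/-! ### The measure of the stabilisers -/

variable [MulAction (M ⋊[ψ] Rac (⊥ : SimpleGraph V0)) V1]
  (h1 : ∀ (a : M ⋊[ψ] Rac (⊥ : SimpleGraph V0)) (x y : V1), (⊥ : SimpleGraph V1).Adj x y →
    (⊥ : SimpleGraph V1).Adj (a • x) (a • y))
  [MulAction (Rac (⊥ : SimpleGraph V1) ⋊[racAct ⊥ h1] (M ⋊[ψ] Rac (⊥ : SimpleGraph V0))) V2]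
  {Λ : SimpleGraph V2}
  (h2 : ∀ (a : Rac (⊥ : SimpleGraph V1) ⋊[racAct ⊥ h1] (M ⋊[ψ] Rac (⊥ : SimpleGraph V0)))
    (x y : V2), Λ.Adj x y → Λ.Adj (a • x) (a • y))

/-- The element of the second level determined by an element of `M` and a fixed point. -/
noncomputable def tw (p : Rac (⊥ : SimpleGraph V1)) (m : M) :
    Rac (⊥ : SimpleGraph V1) ⋊[racAct ⊥ h1] (M ⋊[ψ] Rac (⊥ : SimpleGraph V0)) :=
  ⟨p * (racAct ⊥ h1 (SemidirectProduct.inl m) p)⁻¹, SemidirectProduct.inl m⟩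

/-- The inclusion of `M`. -/
noncomputable def iotaM : M →* Rac Λ ⋊[racAct Λ h2]
    (Rac (⊥ : SimpleGraph V1) ⋊[racAct ⊥ h1] (M ⋊[ψ] Rac (⊥ : SimpleGraph V0))) :=
  SemidirectProduct.inr.comp (SemidirectProduct.inr.comp SemidirectProduct.inl)

/-- The discrete part. -/
noncomputable def disc (p : Rac Λ × Rac (⊥ : SimpleGraph V1)) : Rac Λ ⋊[racAct Λ h2]
    (Rac (⊥ : SimpleGraph V1) ⋊[racAct ⊥ h1] (M ⋊[ψ] Rac (⊥ : SimpleGraph V0))) :=
  SemidirectProduct.inl p.1 * SemidirectProduct.inr (SemidirectProduct.inl p.2)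

theorem disc_mul_iota (p : Rac Λ × Rac (⊥ : SimpleGraph V1)) (m : M) :
    disc h1 h2 p * iotaM h1 h2 m = ⟨p.1, ⟨p.2, SemidirectProduct.inl m⟩⟩ := by
  unfold disc iotaM
  apply SemidirectProduct.ext
  · simp
  · apply SemidirectProduct.ext
    · simp
    · simp

instance countable_rac {V : Type*} [Countable V] (L : SimpleGraph V) : Countable (Rac L) := by
  have : Function.Surjective (wp L) := by
    intro w
    obtain ⟨l, hl, -⟩ := exists_reduced w
    exact ⟨l, hl⟩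
  exact this.countable

variable [TopologicalSpace M]
  [TopologicalSpace (Rac Λ ⋊[racAct Λ h2]
    (Rac (⊥ : SimpleGraph V1) ⋊[racAct ⊥ h1] (M ⋊[ψ] Rac (⊥ : SimpleGraph V0))))]
  [IsTopologicalGroup (Rac Λ ⋊[racAct Λ h2]
    (Rac (⊥ : SimpleGraph V1) ⋊[racAct ⊥ h1] (M ⋊[ψ] Rac (⊥ : SimpleGraph V0))))]
  [MeasurableSpace (Rac Λ ⋊[racAct Λ h2]
    (Rac (⊥ : SimpleGraph V1) ⋊[racAct ⊥ h1] (M ⋊[ψ] Rac (⊥ : SimpleGraph V0))))]
  [BorelSpace (Rac Λ ⋊[racAct Λ h2]
    (Rac (⊥ : SimpleGraph V1) ⋊[racAct ⊥ h1] (M ⋊[ψ] Rac (⊥ : SimpleGraph V0))))]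

/-- Stabilisers of centres have bounded measure. -/
theorem vol_stab [Countable V1] [Countable V2]
    (μ : Measure (Rac Λ ⋊[racAct Λ h2]
      (Rac (⊥ : SimpleGraph V1) ⋊[racAct ⊥ h1] (M ⋊[ψ] Rac (⊥ : SimpleGraph V0)))))
    [μ.IsMulLeftInvariant] (hι : Topology.IsOpenEmbedding (iotaM h1 h2))
    (hD : DiamondFree Λ) (hb : ∀ s t, Λ.Adj s t → (blk Λ s t).Finite)
    (hblk : ∀ s t, Λ.Adj s t → ∀ p : Rac (⊥ : SimpleGraph V1),
      ∃ (E : Type) (_ : Fintype E) (_ : Group E) (χ : M →* E), Function.Surjective χ ∧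
        2 ^ (blk Λ s t).ncard ≤ Fintype.card E ∧
        ∀ m : M, (fun v => tw h1 p m • v) '' blk Λ s t = blk Λ s t → χ m = 1)
    (c : KR Λ (KP (⊥ : SimpleGraph V1) (KB V0)))
    (hc : (∃ m, c.st = {m}) ∨ ∃ m s t, Λ.Adj s t ∧ c.st = coset m (blk Λ s t))
    (hopen : IsOpen (MulAction.stabilizer (Rac Λ ⋊[racAct Λ h2]
      (Rac (⊥ : SimpleGraph V1) ⋊[racAct ⊥ h1] (M ⋊[ψ] Rac (⊥ : SimpleGraph V0)))) c :
        Set (Rac Λ ⋊[racAct Λ h2]
      (Rac (⊥ : SimpleGraph V1) ⋊[racAct ⊥ h1] (M ⋊[ψ] Rac (⊥ : SimpleGraph V0)))))) :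
    μ (MulAction.stabilizer (Rac Λ ⋊[racAct Λ h2]
      (Rac (⊥ : SimpleGraph V1) ⋊[racAct ⊥ h1] (M ⋊[ψ] Rac (⊥ : SimpleGraph V0)))) c :
        Set (Rac Λ ⋊[racAct Λ h2]
      (Rac (⊥ : SimpleGraph V1) ⋊[racAct ⊥ h1] (M ⋊[ψ] Rac (⊥ : SimpleGraph V0))))) ≤
      μ (Set.range (iotaM h1 h2)) := by
  classical
  set S : Set (Rac Λ ⋊[racAct Λ h2]
      (Rac (⊥ : SimpleGraph V1) ⋊[racAct ⊥ h1] (M ⋊[ψ] Rac (⊥ : SimpleGraph V0)))) :=
    (MulAction.stabilizer (Rac Λ ⋊[racAct Λ h2]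
      (Rac (⊥ : SimpleGraph V1) ⋊[racAct ⊥ h1] (M ⋊[ψ] Rac (⊥ : SimpleGraph V0)))) c :
        Set (Rac Λ ⋊[racAct Λ h2]
      (Rac (⊥ : SimpleGraph V1) ⋊[racAct ⊥ h1] (M ⋊[ψ] Rac (⊥ : SimpleGraph V0))))) with hS
  have hmemS : ∀ g, g ∈ S ↔ g • c = c := fun g => MulAction.mem_stabilizer_iff
  -- structure of elements of the stabiliser
  have key : ∀ g ∈ S, (fun w => g.left * racAct Λ h2 g.right w) '' c.st = c.st ∧
      g.right.left * racAct ⊥ h1 g.right.right c.rest.pt = c.rest.pt ∧ g.right.right.right = 1 := by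
    intro g hg
    rw [hmemS] at hg
    refine ⟨?_, ?_, ?_⟩
    · rw [← KR_smul_st h2 g c, hg]
    · have : (g • c).rest.pt = c.rest.pt := by rw [hg]
      exact this
    · have : (g • c).rest.rest.pt = c.rest.rest.pt := by rw [hg]
      have e : g.right.right.right * c.rest.rest.pt = c.rest.rest.pt := this
      exact mul_eq_right.mp e
  have hcov : ∀ g ∈ S, ∃ i m, disc h1 h2 i * iotaM h1 h2 m = g := by
    intro g hg
    obtain ⟨-, -, k3⟩ := key g hg
    refine ⟨(g.left, g.right.left), g.right.right.left, ?_⟩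
    rw [disc_mul_iota]
    apply SemidirectProduct.ext
    · rfl
    · apply SemidirectProduct.ext
      · rfl
      · apply SemidirectProduct.ext
        · simp
        · simp [k3]
  have htw : ∀ (i : Rac Λ × Rac (⊥ : SimpleGraph V1)) (m : M),
      disc h1 h2 i * iotaM h1 h2 m ∈ S → i.2 = c.rest.pt *
        (racAct ⊥ h1 (SemidirectProduct.inl m) c.rest.pt)⁻¹ ∧
        (fun w => i.1 * racAct Λ h2 (tw h1 c.rest.pt m) w) '' c.st = c.st := by
    intro i m hi
    obtain ⟨k1, k2, -⟩ := key _ hi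
    rw [disc_mul_iota] at k1 k2
    simp only at k1 k2
    have e : i.2 = c.rest.pt * (racAct ⊥ h1 (SemidirectProduct.inl m) c.rest.pt)⁻¹ :=
      eq_mul_inv_of_mul_eq k2
    refine ⟨e, ?_⟩
    unfold tw
    rw [← e]
    exact k1
  set U : Set M := {m | ∃ i, disc h1 h2 i * iotaM h1 h2 m ∈ S} with hU
  have hUo : IsOpen U := by
    have : U = ⋃ i, (fun m => disc h1 h2 i * iotaM h1 h2 m) ⁻¹' S := by
      ext m; simp [hU]
    rw [this]
    exact isOpen_iUnion fun i => hopen.preimage (continuous_const.mul hι.continuous)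
  have hrange : μ (iotaM h1 h2 '' U) ≤ μ (Set.range (iotaM h1 h2)) :=
    measure_mono (Set.image_subset_range _ _)
  rcases hc with ⟨m2, hm2⟩ | ⟨m2, s, t, hst, hm2⟩
  · have hmult : ∀ m : M, {i | disc h1 h2 i * iotaM h1 h2 m ∈ S}.Finite ∧
        {i | disc h1 h2 i * iotaM h1 h2 m ∈ S}.ncard ≤ 1 := by
      intro m
      have hsub : {i | disc h1 h2 i * iotaM h1 h2 m ∈ S} ⊆
          {(m2 * (racAct Λ h2 (tw h1 c.rest.pt m) m2)⁻¹,
            c.rest.pt * (racAct ⊥ h1 (SemidirectProduct.inl m) c.rest.pt)⁻¹)} := by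
        intro i hi
        obtain ⟨e1, e2⟩ := htw i m hi
        rw [hm2, Set.image_singleton, Set.singleton_eq_singleton_iff] at e2
        rw [Set.mem_singleton_iff]
        exact Prod.ext (eq_mul_inv_of_mul_eq e2) e1
      refine ⟨(Set.finite_singleton _).subset hsub, ?_⟩
      refine (Set.ncard_le_ncard hsub (Set.finite_singleton _)).trans ?_
      rw [Set.ncard_singleton]
    have h := vol_graph μ (iotaM h1 h2) hι S hopen (disc h1 h2) hcov 1 hmult
    rw [Nat.cast_one, one_mul] at h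
    exact h.trans hrange
  · obtain ⟨hf, hcard⟩ := finite_sub (L := Λ) (hb s t hst) (blk_pairwise hD hst)
    have hmult : ∀ m : M, {i | disc h1 h2 i * iotaM h1 h2 m ∈ S}.Finite ∧
        {i | disc h1 h2 i * iotaM h1 h2 m ∈ S}.ncard ≤ 2 ^ (blk Λ s t).ncard := by
      intro m
      have hsub : {i | disc h1 h2 i * iotaM h1 h2 m ∈ S} ⊆
          (fun w => (m2 * w * (racAct Λ h2 (tw h1 c.rest.pt m) m2)⁻¹,
            c.rest.pt * (racAct ⊥ h1 (SemidirectProduct.inl m) c.rest.pt)⁻¹)) ''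
            (sub Λ (blk Λ s t) : Set (Rac Λ)) := by
        intro i hi
        obtain ⟨e1, e2⟩ := htw i m hi
        rw [hm2] at e2
        obtain ⟨-, w, hw, hw2⟩ := twisted_stab h2 _ _ _ _ e2
        exact ⟨w, hw, Prod.ext hw2 e1.symm⟩
      refine ⟨(hf.image _).subset hsub, ?_⟩
      exact ((Set.ncard_le_ncard hsub (hf.image _)).trans (Set.ncard_image_le hf)).trans hcard
    have h := vol_graph μ (iotaM h1 h2) hι S hopen (disc h1 h2) hcov _ hmult
    obtain ⟨E, iE, gE, χ, hχ, hE, hχ1⟩ := hblk s t hst c.rest.pt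
    have hU1 : ∀ m ∈ U, χ m = 1 := by
      rintro m ⟨i, hi⟩
      obtain ⟨e1, e2⟩ := htw i m hi
      rw [hm2] at e2
      exact hχ1 m (twisted_stab h2 _ _ _ _ e2).1
    have h3 := vol_index μ (iotaM h1 h2) hι χ hχ U hUo hU1
    refine h.trans (le_trans ?_ h3)
    gcongr

end Pool.Agent.RD54
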