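import Pool.Agent.LibRD54.Stab
import Pool.Agent.LibRD.Crit

/-!
# Rapid decay for the three-level group
-/

set_option autoImplicit false

open MeasureTheory
open scoped ENNReal Topology

namespace Pool.Agent.RD54

theorem PreCD.mono {G K : Type*} [Group G] [MulAction G K] {A : G → Set K} {B B' : Set G}
    {P P' : ℕ} (D : PreCD A B P) (hB : B' ⊆ B) (hP : P ≤ P') : PreCD A B' P' where
  fin := D.fin
  card x := (D.card x).trans hP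
  cent y hy x := D.cent y (hB hy) x

variable {V0 M V1 : Type*} [Group M] {ψ : Rac (⊥ : SimpleGraph V0) →* MulAut M}
  [MulAction (M ⋊[ψ] Rac (⊥ : SimpleGraph V0)) V1]
  (h1 : ∀ (a : M ⋊[ψ] Rac (⊥ : SimpleGraph V0)) (x y : V1), (⊥ : SimpleGraph V1).Adj x y →
    (⊥ : SimpleGraph V1).Adj (a • x) (a • y))
  [MulAction (Rac (⊥ : SimpleGraph V1) ⋊[racAct ⊥ h1] (M ⋊[ψ] Rac (⊥ : SimpleGraph V0)))
    (Rac (⊥ : SimpleGraph V1))]
  {Λ : SimpleGraph (Rac (⊥ : SimpleGraph V1))}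
  (h2 : ∀ (a : Rac (⊥ : SimpleGraph V1) ⋊[racAct ⊥ h1] (M ⋊[ψ] Rac (⊥ : SimpleGraph V0)))
    (x y : Rac (⊥ : SimpleGraph V1)), Λ.Adj x y → Λ.Adj (a • x) (a • y))

/-- The centre sets of the three-level group. -/
def A3 (r : ℕ) (g : Rac Λ ⋊[racAct Λ h2]
    (Rac (⊥ : SimpleGraph V1) ⋊[racAct ⊥ h1] (M ⋊[ψ] Rac (⊥ : SimpleGraph V0)))) :
    Set (KR Λ (KP (⊥ : SimpleGraph V1) (KB V0))) :=
  AR Λ {v | len v ≤ r} r g.left (AP r g.right.left (AB r g.right.right.right))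

/-- Length function of the second level. -/
noncomputable def len1
    (g : Rac (⊥ : SimpleGraph V1) ⋊[racAct ⊥ h1] (M ⋊[ψ] Rac (⊥ : SimpleGraph V0))) : ℕ :=
  len g.left + len g.right.right

omit [MulAction (Rac (⊥ : SimpleGraph V1) ⋊[racAct ⊥ h1] (M ⋊[ψ] Rac (⊥ : SimpleGraph V0)))
    (Rac (⊥ : SimpleGraph V1))] in
theorem lenFn_len1 : LenFn (len1 h1) := (lenFn_base (ψ := ψ)).tree h1

/-- Length function of the three-level group. -/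
noncomputable def len3 (g : Rac Λ ⋊[racAct Λ h2]
    (Rac (⊥ : SimpleGraph V1) ⋊[racAct ⊥ h1] (M ⋊[ψ] Rac (⊥ : SimpleGraph V0)))) : ℕ :=
  lenS (fun v => len v) (len1 h1) h2 g

theorem rad_cond (hact : ∀ (g : Rac (⊥ : SimpleGraph V1) ⋊[racAct ⊥ h1]
      (M ⋊[ψ] Rac (⊥ : SimpleGraph V0))) (v : Rac (⊥ : SimpleGraph V1)),
      g • v = g.left * racAct ⊥ h1 g.right v)
    (q : Rac (⊥ : SimpleGraph V1) ⋊[racAct ⊥ h1] (M ⋊[ψ] Rac (⊥ : SimpleGraph V0)))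
    (v : Rac (⊥ : SimpleGraph V1)) : len (q • v) ≤ len1 h1 q + len v := by
  rw [hact]
  have := len_mul_le q.left (racAct ⊥ h1 q.right v)
  rw [len_racAct] at this
  unfold len1
  omega

theorem lenFn_len3 (hact : ∀ (g : Rac (⊥ : SimpleGraph V1) ⋊[racAct ⊥ h1]
      (M ⋊[ψ] Rac (⊥ : SimpleGraph V0))) (v : Rac (⊥ : SimpleGraph V1)),
      g • v = g.left * racAct ⊥ h1 g.right v) : LenFn (len3 h1 h2) :=
  LenFn.rac (rad_cond h1 hact) (lenFn_len1 h1) h2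

theorem preCD_A3 (hD : DiamondFree Λ) (hb : ∀ s t, Λ.Adj s t → (blk Λ s t).Finite)
    (hκ : ∀ r : ℕ, CliqueBound Λ {v | len v ≤ r} (r + 1)) (r : ℕ) :
    PreCD (A3 h1 h2 r) {g | len3 h1 h2 g ≤ r} (28 * (r + 1) ^ 7) := by
  have D0 := PreCD.base (V0 := V0) (ψ := ψ) r
  have D1 := D0.tree h1 r
  have D2 := D1.rac h2 hD hb (hκ r) r
  refine D2.mono ?_ ?_
  · intro g hg
    obtain ⟨e1, e2, e3, e4⟩ := mem_of_lenS_le h2 hg
    refine ⟨e1, e2, e3, ?_⟩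
    unfold len1 at e4
    exact ⟨by omega, by simp only [Set.mem_ofPred_eq]; omega⟩
  · have h := cbound_le r (r + 1)
    have h3 : (r + 1 + 1) ^ 2 ≤ (2 * (r + 1)) ^ 2 := Nat.pow_le_pow_left (by omega) 2
    calc cbound r (r + 1) * ((r + 1) * (r + 1))
        ≤ (7 * (r + 1) ^ 3 * (r + 1 + 1) ^ 2) * ((r + 1) * (r + 1)) := Nat.mul_le_mul_right _ h
      _ ≤ (7 * (r + 1) ^ 3 * (2 * (r + 1)) ^ 2) * ((r + 1) * (r + 1)) :=
          Nat.mul_le_mul_right _ (Nat.mul_le_mul_left _ h3)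
      _ = 28 * (r + 1) ^ 7 := by ring

variable [TopologicalSpace M]
  [TopologicalSpace (M ⋊[ψ] Rac (⊥ : SimpleGraph V0))]
  [TopologicalSpace (Rac (⊥ : SimpleGraph V1) ⋊[racAct ⊥ h1] (M ⋊[ψ] Rac (⊥ : SimpleGraph V0)))]
  [TopologicalSpace (Rac Λ ⋊[racAct Λ h2]
    (Rac (⊥ : SimpleGraph V1) ⋊[racAct ⊥ h1] (M ⋊[ψ] Rac (⊥ : SimpleGraph V0))))]
  [IsTopologicalGroup (Rac Λ ⋊[racAct Λ h2]
    (Rac (⊥ : SimpleGraph V1) ⋊[racAct ⊥ h1] (M ⋊[ψ] Rac (⊥ : SimpleGraph V0))))]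
  [SecondCountableTopology (Rac Λ ⋊[racAct Λ h2]
    (Rac (⊥ : SimpleGraph V1) ⋊[racAct ⊥ h1] (M ⋊[ψ] Rac (⊥ : SimpleGraph V0))))]
  [LocallyCompactSpace (Rac Λ ⋊[racAct Λ h2]
    (Rac (⊥ : SimpleGraph V1) ⋊[racAct ⊥ h1] (M ⋊[ψ] Rac (⊥ : SimpleGraph V0))))]
  [MeasurableSpace (Rac Λ ⋊[racAct Λ h2]
    (Rac (⊥ : SimpleGraph V1) ⋊[racAct ⊥ h1] (M ⋊[ψ] Rac (⊥ : SimpleGraph V0))))]
  [BorelSpace (Rac Λ ⋊[racAct Λ h2]
    (Rac (⊥ : SimpleGraph V1) ⋊[racAct ⊥ h1] (M ⋊[ψ] Rac (⊥ : SimpleGraph V0))))]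

/-- Rapid decay for the three-level group. -/
theorem rd_three [Countable V1] [CompactSpace M]
    (hact : ∀ (g : Rac (⊥ : SimpleGraph V1) ⋊[racAct ⊥ h1]
      (M ⋊[ψ] Rac (⊥ : SimpleGraph V0))) (v : Rac (⊥ : SimpleGraph V1)),
      g • v = g.left * racAct ⊥ h1 g.right v)
    (hD : DiamondFree Λ) (hb : ∀ s t, Λ.Adj s t → (blk Λ s t).Finite)
    (hκ : ∀ r : ℕ, CliqueBound Λ {v | len v ≤ r} (r + 1))
    (hblk : ∀ s t, Λ.Adj s t → ∀ p : Rac (⊥ : SimpleGraph V1),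
      ∃ (E : Type) (_ : Fintype E) (_ : Group E) (χ : M →* E), Function.Surjective χ ∧
        2 ^ (blk Λ s t).ncard ≤ Fintype.card E ∧
        ∀ m : M, (fun v => tw h1 p m • v) '' blk Λ s t = blk Λ s t → χ m = 1)
    (hN1 : NearOne (M ⋊[ψ] Rac (⊥ : SimpleGraph V0)) V1)
    (hr0 : ∀ᶠ q in 𝓝 (1 : M ⋊[ψ] Rac (⊥ : SimpleGraph V0)), q.right = 1)
    (hl1 : ∀ᶠ g in 𝓝 (1 : Rac (⊥ : SimpleGraph V1) ⋊[racAct ⊥ h1]
      (M ⋊[ψ] Rac (⊥ : SimpleGraph V0))), g.left = 1)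
    (hr1 : Filter.Tendsto (fun g : Rac (⊥ : SimpleGraph V1) ⋊[racAct ⊥ h1]
      (M ⋊[ψ] Rac (⊥ : SimpleGraph V0)) => g.right) (𝓝 1) (𝓝 1))
    (hl2 : ∀ᶠ g in 𝓝 (1 : Rac Λ ⋊[racAct Λ h2]
      (Rac (⊥ : SimpleGraph V1) ⋊[racAct ⊥ h1] (M ⋊[ψ] Rac (⊥ : SimpleGraph V0)))), g.left = 1)
    (hr2 : Filter.Tendsto (fun g : Rac Λ ⋊[racAct Λ h2]
      (Rac (⊥ : SimpleGraph V1) ⋊[racAct ⊥ h1] (M ⋊[ψ] Rac (⊥ : SimpleGraph V0))) => g.right)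
      (𝓝 1) (𝓝 1))
    (hlc : IsLocallyConstant (fun g : Rac Λ ⋊[racAct Λ h2]
      (Rac (⊥ : SimpleGraph V1) ⋊[racAct ⊥ h1] (M ⋊[ψ] Rac (⊥ : SimpleGraph V0))) =>
        (g.left, g.right.left, g.right.right.right)))
    (hι : Topology.IsOpenEmbedding (iotaM h1 h2))
    (μ : Measure (Rac Λ ⋊[racAct Λ h2]
      (Rac (⊥ : SimpleGraph V1) ⋊[racAct ⊥ h1] (M ⋊[ψ] Rac (⊥ : SimpleGraph V0)))))
    [μ.IsHaarMeasure] :
    ∃ L : Rac Λ ⋊[racAct Λ h2]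
      (Rac (⊥ : SimpleGraph V1) ⋊[racAct ⊥ h1] (M ⋊[ψ] Rac (⊥ : SimpleGraph V0))) → ℝ,
      Measurable L ∧ L 1 = 0 ∧ (∀ g, 0 ≤ L g) ∧ (∀ g, L g⁻¹ = L g) ∧
          (∀ g h, L (g * h) ≤ L g + L h) ∧
          (∀ K, IsCompact K → BddAbove (L '' K)) ∧
          ∃ C s : ℝ, 0 ≤ C ∧ 0 ≤ s ∧
            ∀ f ξ : Rac Λ ⋊[racAct Λ h2]
                (Rac (⊥ : SimpleGraph V1) ⋊[racAct ⊥ h1] (M ⋊[ψ] Rac (⊥ : SimpleGraph V0))) → ℂ,
              Continuous f → HasCompactSupport f → Continuous ξ →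
              HasCompactSupport ξ →
              eLpNorm (fun x => ∫ y, f y * ξ (y⁻¹ * x) ∂μ) 2 μ ≤
                ENNReal.ofReal C * eLpNorm (fun g => f g * (((1 + L g) ^ s : ℝ) : ℂ)) 2 μ *
                  eLpNorm ξ 2 μ := by
  have hN2 : NearOne (Rac (⊥ : SimpleGraph V1) ⋊[racAct ⊥ h1] (M ⋊[ψ] Rac (⊥ : SimpleGraph V0)))
      (Rac (⊥ : SimpleGraph V1)) := by
    intro v
    filter_upwards [hl1, hr1.eventually (hN1.rac_apply h1 v)] with g e1 e2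
    rw [hact, e1, e2, one_mul]
  have hKB : NearOne (M ⋊[ψ] Rac (⊥ : SimpleGraph V0)) (KB V0) := by
    intro z
    filter_upwards [hr0] with q e
    apply KB.ext
    rw [KB_smul_pt, e, one_mul]
  have hKP := NearOne.KP hN1 hKB h1 hl1 hr1
  have hKR := NearOne.KR hN2 hKP h2 hl2 hr2
  have hopen := fun c => hKR.isOpen_stabilizer c
  have hcomp : IsCompact (Set.range (iotaM h1 h2)) := isCompact_range hι.continuous
  -- the length function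
  have hlen := lenFn_len3 h1 h2 hact
  have hlcR : IsLocallyConstant (fun g : Rac Λ ⋊[racAct Λ h2]
      (Rac (⊥ : SimpleGraph V1) ⋊[racAct ⊥ h1] (M ⋊[ψ] Rac (⊥ : SimpleGraph V0))) =>
        lenR (fun v => len v) (len1 h1) h2 g) :=
    hlc.comp (fun p => len p.1 + max (rad (fun v => len v) p.1) (len p.2.1 + len p.2.2))
  have hlcL : Continuous (fun g : Rac Λ ⋊[racAct Λ h2]
      (Rac (⊥ : SimpleGraph V1) ⋊[racAct ⊥ h1] (M ⋊[ψ] Rac (⊥ : SimpleGraph V0))) =>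
        (len3 h1 h2 g : ℝ)) := by
    have c1 : Continuous (fun g : Rac Λ ⋊[racAct Λ h2]
      (Rac (⊥ : SimpleGraph V1) ⋊[racAct ⊥ h1] (M ⋊[ψ] Rac (⊥ : SimpleGraph V0))) =>
        (lenR (fun v => len v) (len1 h1) h2 g : ℝ)) :=
      (hlcR.comp (fun n : ℕ => (n : ℝ))).continuous
    have c2 := c1.comp (continuous_inv (G := Rac Λ ⋊[racAct Λ h2]
      (Rac (⊥ : SimpleGraph V1) ⋊[racAct ⊥ h1] (M ⋊[ψ] Rac (⊥ : SimpleGraph V0)))))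
    have c3 := c1.max c2
    refine c3.congr ?_
    intro g
    simp only [Function.comp, len3, lenS, Nat.cast_max]
  refine ⟨fun g => (len3 h1 h2 g : ℝ), hlcL.measurable, by simp [hlen.one],
    fun g => Nat.cast_nonneg _, fun g => by simp only [hlen.inv],
    fun g h => by simp only []; exact_mod_cast hlen.mul g h,
    fun K hK => (hK.image hlcL).bddAbove, ?_⟩
  refine LibRD.rd_of_centers (K := KR Λ (KP (⊥ : SimpleGraph V1) (KB V0))) (μ := μ)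
    (fun g => (len3 h1 h2 g : ℝ)) hlcL (fun g => Nat.cast_nonneg _) (A3 h1 h2) 28 7
    (μ (Set.range (iotaM h1 h2))) hcomp.measure_lt_top.ne ?_
  intro r
  have D := preCD_A3 h1 h2 hD hb hκ r
  refine ⟨D.fin, D.card, ?_, hopen, ?_, ?_⟩
  · exact hlc.comp (fun p => AR Λ {v | len v ≤ r} r p.1 (AP r p.2.1 (AB r p.2.2)))
  · intro x c hc
    exact vol_stab h1 h2 μ hι hD hb hblk c (CW_cases hc.1) (hopen c)
  · intro y hy x
    exact D.cent y (by exact_mod_cast hy) x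

end Pool.Agent.RD54
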