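import Pool.Agent.LibRD54.Equi

/-!
# Prefixes as centres for a free product of involutions (empty graph)
-/

set_option autoImplicit false

namespace Pool.Agent.RD54

variable {V : Type*} {L : SimpleGraph V}

/-- Prefixes of length at most `n`. -/
def Pf (n : ℕ) (x : Rac L) : Set (Rac L) := {m | Pre x m ∧ len m ≤ n}

theorem finite_Pf (n : ℕ) (x : Rac L) : (Pf n x).Finite :=
  (finite_pre x).subset (fun _ h => h.1)

/-- Every triple `1, y, x` has a common centre, a point. -/
theorem exists_centre_pt {n : ℕ} {x y : Rac L} (hn : len y ≤ n) :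
    ∃ m, m ∈ Pf n y ∧ m ∈ Pf n x ∧ y⁻¹ * m ∈ Pf n (y⁻¹ * x) := by
  obtain ⟨m, hm⟩ := exists_med 1 y x
  obtain ⟨h1, h2, h3⟩ := hm
  simp only [inv_one, one_mul] at h1 h2
  have py : Pre y m := h1
  have px : Pre x m := h2
  have pyx : Pre (y⁻¹ * x) (y⁻¹ * m) := by
    unfold Pre
    have e : (y⁻¹ * m)⁻¹ * (y⁻¹ * x) = m⁻¹ * x := by group
    rw [e]; exact h3
  have hmn : len m ≤ n := py.len_le.trans hn
  have hq : Pre y⁻¹ (y⁻¹ * m) := by
    unfold Pre
    have e : (y⁻¹ * m)⁻¹ * y⁻¹ = m⁻¹ := by group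
    rw [e, len_inv, len_inv, len_symm]
    omega
  have hmn' : len (y⁻¹ * m) ≤ n := by
    have := hq.len_le
    rw [len_inv] at this
    exact this.trans hn
  exact ⟨m, ⟨py, hmn⟩, ⟨px, hmn⟩, ⟨pyx, hmn'⟩⟩

theorem Pf_racAct {A : Type*} [Group A] [MulAction A V]
    (h : ∀ (a : A) (x y : V), L.Adj x y → L.Adj (a • x) (a • y)) (a : A) {n : ℕ} {x m : Rac L}
    (hm : m ∈ Pf n x) : racAct L h a m ∈ Pf n (racAct L h a x) :=
  ⟨(pre_racAct h a).mpr hm.1, by rw [len_racAct]; exact hm.2⟩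

theorem diamondFree_bot : DiamondFree (⊥ : SimpleGraph V) := by
  intro s t u v h
  exact absurd h (by simp)

theorem desc_unique {m : Rac (⊥ : SimpleGraph V)} {s t : V} (hs : Desc m s) (ht : Desc m t) :
    s = t := by
  by_contra hne
  have := adj_of_desc hs ht hne
  simp at this

theorem pre_len_inj {x m m' : Rac (⊥ : SimpleGraph V)} (h : Pre x m) (h' : Pre x m')
    (hlen : len m = len m') : m = m' := by
  by_contra hne
  have hm : m ≠ 1 := by
    rintro rfl
    rw [len_one] at hlen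
    exact hne (len_eq_zero.mp hlen.symm).symm
  have hm' : m' ≠ 1 := by
    rintro rfl
    rw [len_one] at hlen
    exact hne (len_eq_zero.mp hlen)
  obtain ⟨s, hs⟩ := exists_desc hm
  obtain ⟨s', hs'⟩ := exists_desc hm'
  have := adj_last h h' hlen hne (fun _ _ a b => desc_unique a b) (fun _ _ a b => desc_unique a b)
    hs hs'
  simp at this

theorem ncard_Pf (n : ℕ) (x : Rac (⊥ : SimpleGraph V)) : (Pf n x).ncard ≤ n + 1 := by
  have h1 : ∀ m ∈ Pf n x, len m ∈ (Finset.range (n + 1) : Set ℕ) := by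
    intro m hm
    simp only [Finset.coe_range, Set.mem_Iio]
    have := hm.2
    omega
  have h2 := Set.ncard_le_ncard_of_injOn (s := Pf n x) (t := (Finset.range (n + 1) : Set ℕ))
    (fun m => len m) h1 (fun m hm m' hm' e => pre_len_inj hm.1 hm'.1 e) (Finset.finite_toSet _)
  rwa [Set.ncard_coe_finset, Finset.card_range] at h2

theorem Pf_mono {n n' : ℕ} (h : n ≤ n') (x : Rac L) : Pf n x ⊆ Pf n' x :=
  fun _ hm => ⟨hm.1, hm.2.trans h⟩

end Pool.Agent.RD54
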